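import Mathlib
import Pool.Agent.Helper11.AAQuantities

/-!
Quantum query algorithms which ask their queries in rounds, and classical algorithms which ask their
queries in rounds.
-/

namespace Pool.Agent.Helper24.QRounds

/-- One round of parallel phase queries to the input `x`: the basis state `r` is multiplied by the
product of the `x i` with `i` in the set `Q r`. -/
noncomputable def query {n : ℕ} {R : Type} (Q : R → Finset (Fin n))
    (x : Fin n → ℤˣ) (φ : EuclideanSpace ℂ R) : EuclideanSpace ℂ R :=
  WithLp.toLp 2 fun r => (∏ i ∈ Q r, ((x i : ℤ) : ℂ)) * φ r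

/-- The state after `t` rounds of queries on the input `x`: it starts with `ψ`, and the unitary
`U t` follows the queries of round `t`. -/
noncomputable def state {n : ℕ} {R : Type} [Fintype R] (Q : R → Finset (Fin n))
    (U : ℕ → EuclideanSpace ℂ R ≃ₗᵢ[ℂ] EuclideanSpace ℂ R) (ψ : EuclideanSpace ℂ R)
    (x : Fin n → ℤˣ) : ℕ → EuclideanSpace ℂ R
  | 0 => ψ
  | t + 1 => U t (query Q x (state Q U ψ x t))

/-- The expected payoff when the final state is measured in the standard basis and the outcome `r`
is paid `c r` (for `c` with values `0` and `1` this is the acceptance probability). -/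
noncomputable def payoff {n : ℕ} {R : Type} [Fintype R] (Q : R → Finset (Fin n))
    (U : ℕ → EuclideanSpace ℂ R ≃ₗᵢ[ℂ] EuclideanSpace ℂ R) (ψ : EuclideanSpace ℂ R)
    (c : R → ℝ) (k : ℕ) (x : Fin n → ℤˣ) : ℝ :=
  ∑ r, c r * ‖state Q U ψ x k r‖ ^ 2

/-- The queries of a deterministic classical algorithm which works in rounds: on the input `x` it
has read the coordinates in `K t x` after `t` rounds, the set read in the next round depends only on
what was read before, and at most `q` new coordinates are read in each round. -/
structure ClassicalRounds {n : ℕ} (K : ℕ → (Fin n → ℤˣ) → Finset (Fin n)) (q : ℝ) : Prop where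
  start : ∀ x, K 0 x = ∅
  grow : ∀ t x, K t x ⊆ K (t + 1) x
  adaptive : ∀ t x y, (∀ i ∈ K t x, y i = x i) → K (t + 1) y = K (t + 1) x
  card_le : ∀ t x, ((K (t + 1) x \ K t x).card : ℝ) ≤ q

end Pool.Agent.Helper24.QRounds
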