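import Mathlib
import Pool.Agent.Helper11.Cube
import Pool.Agent.Helper11.Markov
import Pool.Agent.Helper11.AAQuantities
import Pool.Agent.Helper11.AADefs
import Pool.Agent.Helper11.DTree
import Pool.Agent.Helper11.Bonami

/-!
Mixing points of the cube, adaptively chosen sets of coordinates, exchange of independent copies,
and a one-sided Poincare inequality.
-/

set_option linter.dupNamespace false

namespace Pool.Agent.Helper24.QR

open Finset Pool.Agent.Helper11.Cube Pool.Agent.Helper11.AA

/-- `x` on `K` and `y` outside `K`. -/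
def mix {n : ℕ} (K : Finset (Fin n)) (x y : Cube n) : Cube n := fun i => if i ∈ K then x i else y i

lemma mix_mem {n : ℕ} {K : Finset (Fin n)} {x y : Cube n} {i : Fin n} (h : i ∈ K) :
    mix K x y i = x i := by simp [mix, h]

lemma mix_notMem {n : ℕ} {K : Finset (Fin n)} {x y : Cube n} {i : Fin n} (h : i ∉ K) :
    mix K x y i = y i := by simp [mix, h]

/-- The set `K x` is determined by the coordinates of `x` in `K x`. -/
def Stop {n : ℕ} (K : Cube n → Finset (Fin n)) : Prop :=
  ∀ x y : Cube n, (∀ i ∈ K x, y i = x i) → K y = K x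

lemma Stop.mix {n : ℕ} {K : Cube n → Finset (Fin n)} (hK : Stop K) (x y : Cube n) :
    K (mix (K x) x y) = K x := hK _ _ fun _ hi => mix_mem hi

lemma stop_const {n : ℕ} (K : Finset (Fin n)) : Stop (fun _ : Cube n => K) := fun _ _ _ => rfl

/-- Swapping two independent copies outside an adaptively chosen set. -/
lemma exchange {n : ℕ} {K : Cube n → Finset (Fin n)} (hK : Stop K) (Φ : Cube n → Cube n → ℝ) :
    ex (fun x => ex (fun y => Φ (mix (K x) x y) (mix (K x) y x)))
      = ex (fun x => ex (fun y => Φ x y)) := by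
  unfold ex
  congr 1
  rw [← sum_div, ← sum_div]
  congr 1
  rw [← Fintype.sum_prod_type' (f := fun x y => Φ (mix (K x) x y) (mix (K x) y x)),
    ← Fintype.sum_prod_type' (f := fun x y => Φ x y)]
  have hinv : Function.Involutive
      (fun p : Cube n × Cube n => (mix (K p.1) p.1 p.2, mix (K p.1) p.2 p.1)) := by
    rintro ⟨x, y⟩
    simp only
    rw [hK.mix x y]
    ext i
    · by_cases h : i ∈ K x <;> simp [mix, h]
    · by_cases h : i ∈ K x <;> simp [mix, h]
  exact (Equiv.sum_comp hinv.toPerm (fun p : Cube n × Cube n => Φ p.1 p.2))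

/-- Average of `g` over the points which agree with `x` on `K`. -/
noncomputable def cond {n : ℕ} (K : Finset (Fin n)) (g : Cube n → ℝ) (x : Cube n) : ℝ :=
  ex (fun y => g (mix K x y))

lemma ex_cond {n : ℕ} {K : Cube n → Finset (Fin n)} (hK : Stop K) (g : Cube n → ℝ) :
    ex (fun x => cond (K x) g x) = ex g := by
  unfold cond
  rw [exchange hK (fun x _ => g x)]
  congr 1; funext x; exact ex_const _

lemma ex_congr {n : ℕ} {f g : Cube n → ℝ} (h : ∀ x, f x = g x) : ex f = ex g := by
  congr 1; funext x; exact h x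

lemma ex_comm {n : ℕ} (Φ : Cube n → Cube n → ℝ) :
    ex (fun x => ex (fun y => Φ x y)) = ex (fun y => ex (fun x => Φ x y)) := by
  unfold ex
  rw [← sum_div, ← sum_div, sum_comm]

lemma ex_mul_const {n : ℕ} (c : ℝ) (f : Cube n → ℝ) : ex (fun x => f x * c) = ex f * c := by
  rw [← mul_comm c, ← ex_const_mul]; exact ex_congr fun x => mul_comm _ _

/-- Poincare inequality with positive parts of the differences. -/
lemma poincare_pos {n : ℕ} (g : Cube n → ℝ) :
    variance g ≤ (1 / 2) * ∑ i, ex (fun x => (max (g x - g (flipOn {i} x)) 0) ^ 2) := by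
  refine (poincare g).trans (le_of_eq ?_)
  rw [mul_sum]
  refine sum_congr rfl fun i _ => ?_
  have h1 : ∀ x, discreteDeriv i g x ^ 2 = (1 / 4) * (g x - g (flipOn {i} x)) ^ 2 := by
    intro x
    rw [← sq_abs (g x - g (flipOn {i} x)), abs_sub_flip, mul_pow, sq_abs]; ring
  have h2 : ∀ x, (g x - g (flipOn {i} x)) ^ 2
      = (max (g x - g (flipOn {i} x)) 0) ^ 2 + (max (g (flipOn {i} x) - g x) 0) ^ 2 := by
    intro x
    rcases le_total (g x) (g (flipOn {i} x)) with h | h
    · rw [max_eq_right (by linarith), max_eq_left (by linarith)]; ring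
    · rw [max_eq_left (by linarith), max_eq_right (by linarith)]; ring
  have h3 : ex (fun x => (max (g (flipOn {i} x) - g x) 0) ^ 2)
      = ex (fun x => (max (g x - g (flipOn {i} x)) 0) ^ 2) := by
    have hff : ∀ x : Cube n, flipOn {i} (flipOn {i} x) = x := by
      intro x; funext j; by_cases hj : j = i <;> simp [flipOn, hj]
    rw [← ex_flipOn {i} (fun x => (max (g x - g (flipOn {i} x)) 0) ^ 2)]
    exact ex_congr fun x => by rw [hff]
  rw [ex_congr h1, ex_const_mul, ex_congr h2, ex_add, h3]
  ring

lemma variance_nonneg' {n : ℕ} (f : Cube n → ℝ) : 0 ≤ variance f := by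
  rw [variance_eq_sum]; exact sum_nonneg fun _ _ => sq_nonneg _

/-- restriction of a flip to a subcube -/
lemma mix_flip_mem {n : ℕ} {K : Finset (Fin n)} (x y : Cube n) {i : Fin n} (hi : i ∈ K) :
    mix K x (flipOn {i} y) = mix K x y := by
  funext j
  by_cases hj : j ∈ K
  · simp [mix, hj]
  · have : j ≠ i := fun h => hj (h ▸ hi)
    simp [mix, hj, flipOn, this]

lemma mix_flip_notMem {n : ℕ} {K : Finset (Fin n)} (x y : Cube n) {i : Fin n} (hi : i ∉ K) :
    mix K x (flipOn {i} y) = flipOn {i} (mix K x y) := by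
  funext j
  by_cases hj : j = i
  · subst hj; simp [mix, flipOn, hi]
  · simp [mix, flipOn, hj]

/-- Poincare inequality on a subcube. -/
lemma poincare_cond {n : ℕ} (K : Finset (Fin n)) (g : Cube n → ℝ) (x : Cube n) :
    cond K (fun z => g z ^ 2) x - cond K g x ^ 2
      ≤ (1 / 2) * cond K (fun z => ∑ i ∈ univ \ K, (max (g z - g (flipOn {i} z)) 0) ^ 2) x := by
  have h := poincare_pos (fun y => g (mix K x y))
  rw [variance_eq] at h
  refine h.trans (le_of_eq ?_)
  unfold cond
  rw [ex_sum]
  congr 1
  rw [← sum_sdiff (subset_univ K)]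
  have h0 : ∑ i ∈ K, ex (fun y => (max (g (mix K x y) - g (mix K x (flipOn {i} y))) 0) ^ 2) = 0 := by
    refine sum_eq_zero fun i hi => ?_
    rw [ex_congr (g := fun _ => 0), ex_const]
    intro y
    rw [mix_flip_mem x y hi]; simp
  rw [h0, add_zero]
  refine sum_congr rfl fun i hi => ?_
  refine ex_congr fun y => ?_
  rw [mix_flip_notMem x y (by simpa using hi)]

/-- Resampling the coordinates in a fixed set `B`. -/
lemma resample {n : ℕ} (B : Finset (Fin n)) (f : Cube n → ℝ) :
    ex (fun z => ex (fun y => (f y - f (mix B z y)) ^ 2)) ≤ 2 * ∑ i ∈ B, derivNorm i f ^ 2 := by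
  -- write `y = mix B w y'`
  have h1 : ex (fun z => ex (fun y => (f y - f (mix B z y)) ^ 2))
      = ex (fun y' => ex (fun w => ex (fun z => (f (mix B w y') - f (mix B z y')) ^ 2))) := by
    have e1 : ∀ z : Cube n, ex (fun y => (f y - f (mix B z y)) ^ 2)
        = ex (fun w => ex (fun y' => (f (mix B w y') - f (mix B z y')) ^ 2)) := by
      intro z
      have := exchange (stop_const B) (fun y _ => (f y - f (mix B z y)) ^ 2)
      rw [ex_congr (f := fun x => ex (fun _ : Cube n => (f x - f (mix B z x)) ^ 2))
        (g := fun x => (f x - f (mix B z x)) ^ 2) (fun x => ex_const _)] at this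
      rw [← this]
      refine ex_congr fun w => ex_congr fun y' => ?_
      have : mix B z (mix B w y') = mix B z y' := by
        funext i; by_cases hi : i ∈ B <;> simp [mix, hi]
      rw [this]
    rw [ex_congr e1, ex_comm]
    rw [ex_congr (fun w => ex_comm (fun z y' => (f (mix B w y') - f (mix B z y')) ^ 2))]
    rw [ex_comm]
  rw [h1]
  have h2 : ∀ y' : Cube n, ex (fun w => ex (fun z => (f (mix B w y') - f (mix B z y')) ^ 2))
      ≤ 2 * ∑ i ∈ B, ex (fun w => discreteDeriv i f (mix B w y') ^ 2) := by
    intro y'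
    set G : Cube n → ℝ := fun w => f (mix B w y') with hG
    have h3 : ex (fun w => ex (fun z => (G w - G z) ^ 2)) = 2 * variance G := by
      have : ∀ w, ex (fun z => (G w - G z) ^ 2)
          = G w ^ 2 - 2 * ex G * G w + ex (fun z => G z ^ 2) := by
        intro w
        rw [ex_congr (g := fun z => (G w ^ 2 - 2 * G w * G z) + G z ^ 2) (fun z => by ring),
          ex_add, ex_sub, ex_const, ex_const_mul]
        ring
      rw [ex_congr this, ex_add, ex_sub, ex_const, ex_const_mul, variance_eq]
      ring
    rw [h3]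
    refine mul_le_mul_of_nonneg_left ?_ (by norm_num)
    refine (poincare G).trans (le_of_eq ?_)
    rw [← sum_sdiff (subset_univ B)]
    have h0 : ∑ i ∈ univ \ B, ex (fun w => discreteDeriv i G w ^ 2) = 0 := by
      refine sum_eq_zero fun i hi => ?_
      have hi' : i ∉ B := by simpa using hi
      rw [ex_congr (g := fun _ => 0), ex_const]
      intro w
      have : ∀ u : ℤˣ, mix B (Function.update w i u) y' = mix B w y' := by
        intro u; funext j
        by_cases hj : j ∈ B
        · have : j ≠ i := fun h => hi' (h ▸ hj)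
          simp [mix, hj, this]
        · simp [mix, hj]
      simp [discreteDeriv, hG, this]
    rw [h0, zero_add]
    refine sum_congr rfl fun i hi => ex_congr fun w => ?_
    have : ∀ u : ℤˣ, mix B (Function.update w i u) y' = Function.update (mix B w y') i u := by
      intro u; funext j
      by_cases hj : j = i
      · subst hj; simp [mix, hi]
      · by_cases hjB : j ∈ B <;> simp [mix, hjB, hj]
    simp [discreteDeriv, hG, this]
  refine (ex_mono h2).trans (le_of_eq ?_)
  rw [ex_const_mul, ex_sum]
  congr 1
  refine sum_congr rfl fun i _ => ?_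
  rw [ex_comm]
  have := ex_cond (stop_const B) (fun z => discreteDeriv i f z ^ 2)
  unfold cond at this
  rw [this, derivNorm_sq]

end Pool.Agent.Helper24.QR
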