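import Mathlib
import Pool.Agent.Helper24.QR.Mix

/-!
Moments of functions on the cube whose downward differences are controlled by the function itself.
-/

set_option linter.dupNamespace false

namespace Pool.Agent.Helper24.QR

open Finset Pool.Agent.Helper11.Cube Pool.Agent.Helper11.AA

lemma pow_sub_pow_le' {a b : ℝ} (hb : 0 ≤ b) (hab : b ≤ a) (p : ℕ) :
    a ^ (p + 1) - b ^ (p + 1) ≤ (p + 1) * a ^ p * (a - b) := by
  induction p with
  | zero => simp
  | succ p ih =>
    have ha : 0 ≤ a := hb.trans hab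
    have h1 : b * (a ^ (p + 1) - b ^ (p + 1)) ≤ a * ((p + 1) * a ^ p * (a - b)) := by
      refine (mul_le_mul_of_nonneg_left ih hb).trans ?_
      refine mul_le_mul_of_nonneg_right hab ?_
      have : 0 ≤ a - b := by linarith
      positivity
    have h2 : a ^ (p + 1 + 1) - b ^ (p + 1 + 1)
        = a ^ (p + 1) * (a - b) + b * (a ^ (p + 1) - b ^ (p + 1)) := by ring
    rw [h2]
    refine (add_le_add_right h1 _).trans (le_of_eq ?_)
    push_cast; ring

lemma young {a b P : ℝ} (ha : 0 ≤ a) (hb : 0 ≤ b) (hP : 0 < P) (n : ℕ) :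
    a ^ n * b ≤ (1 / P) * a ^ (n + 1) + P ^ n * b ^ (n + 1) := by
  rcases le_total (P * b) a with h | h
  · have h1 : b ≤ (1 / P) * a := by
      rw [one_div, ← div_eq_inv_mul, le_div_iff₀ hP]; linarith
    have h2 : a ^ n * b ≤ (1 / P) * a ^ (n + 1) := by
      refine (mul_le_mul_of_nonneg_left h1 (by positivity)).trans (le_of_eq ?_); ring
    have h3 : 0 ≤ P ^ n * b ^ (n + 1) := by positivity
    linarith
  · have h1 : a ^ n ≤ (P * b) ^ n := pow_le_pow_left₀ ha h n
    have h2 : a ^ n * b ≤ P ^ n * b ^ (n + 1) := by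
      refine (mul_le_mul_of_nonneg_right h1 hb).trans (le_of_eq ?_); ring
    have h3 : 0 ≤ (1 / P) * a ^ (n + 1) := by positivity
    linarith

lemma moment_step {n : ℕ} {g v : Cube n → ℝ} (hg : ∀ x, 0 ≤ g x)
    (hv : ∀ x, 0 ≤ v x)
    (hb : ∀ x, ∑ i, (max (g x - g (flipOn {i} x)) 0) ^ 2 ≤ v x * g x) (a : ℕ) :
    ex (fun x => g x ^ (2 * a + 2)) ≤ (1 / 2) * ((a : ℝ) + 1) ^ 2 * ex (fun x => v x * g x ^ (2 * a + 1))
      + ex (fun x => g x ^ (a + 1)) ^ 2 := by
  have h1 := poincare_pos (fun x => g x ^ (a + 1))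
  rw [variance_eq] at h1
  have h2 : ∑ i, ex (fun x => (max (g x ^ (a + 1) - g (flipOn {i} x) ^ (a + 1)) 0) ^ 2)
      ≤ ((a : ℝ) + 1) ^ 2 * ex (fun x => v x * g x ^ (2 * a + 1)) := by
    rw [← ex_sum, ← ex_const_mul]
    refine ex_mono fun x => ?_
    have h3 : ∀ i, (max (g x ^ (a + 1) - g (flipOn {i} x) ^ (a + 1)) 0) ^ 2
        ≤ (((a : ℝ) + 1) * g x ^ a) ^ 2 * (max (g x - g (flipOn {i} x)) 0) ^ 2 := by
      intro i
      rcases le_total (g x) (g (flipOn {i} x)) with h | h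
      · have := pow_le_pow_left₀ (hg x) h (a + 1)
        rw [max_eq_right (by linarith), max_eq_right (by linarith)]; simp
      · have h4 := pow_sub_pow_le' (hg (flipOn {i} x)) h a
        have h5 := pow_le_pow_left₀ (hg _) h (a + 1)
        rw [max_eq_left (by linarith), max_eq_left (by linarith), ← mul_pow]
        exact pow_le_pow_left₀ (by linarith) h4 2
    refine (sum_le_sum fun i _ => h3 i).trans ?_
    rw [← mul_sum]
    refine (mul_le_mul_of_nonneg_left (hb x) (sq_nonneg _)).trans (le_of_eq ?_)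
    ring
  have h4 : ex (fun x => (g x ^ (a + 1)) ^ 2) = ex (fun x => g x ^ (2 * a + 2)) :=
    ex_congr fun x => by ring
  rw [h4] at h1
  nlinarith

/-- **Moment lemma.** -/
theorem moment {n : ℕ} {g v : Cube n → ℝ} {δ : ℝ} (hg : ∀ x, 0 ≤ g x)
    (hE : ex g ≤ δ) (hv : ∀ x, δ ≤ v x)
    (hb : ∀ x, ∑ i, (max (g x - g (flipOn {i} x)) 0) ^ 2 ≤ v x * g x) (m : ℕ) :
    ex (fun x => g x ^ (2 ^ m)) ≤ (4 * (4 : ℝ) ^ m) ^ (2 ^ m - 1)
      * ex (fun x => v x ^ (2 ^ m - 1) * g x) := by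
  have hδ : 0 ≤ δ := (ex_nonneg hg).trans hE
  have hv0 : ∀ x, 0 ≤ v x := fun x => hδ.trans (hv x)
  induction m with
  | zero => simp
  | succ m ih =>
    obtain ⟨a, ha⟩ : ∃ a : ℕ, 2 ^ m = a + 1 := ⟨2 ^ m - 1, by have := Nat.one_le_two_pow (n := m); omega⟩
    have ha2 : 2 ^ (m + 1) = 2 * a + 2 := by rw [pow_succ, ha]; ring
    rw [ha] at ih
    rw [ha2]
    simp only [Nat.add_sub_cancel] at ih
    have e1 : 2 * a + 2 - 1 = 2 * a + 1 := by omega
    rw [e1]
    set P : ℝ := (4 : ℝ) ^ m with hP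
    have hPpos : 0 < P := by positivity
    have hP1 : 1 ≤ P := one_le_pow₀ (by norm_num)
    have hPa : ((a : ℝ) + 1) ^ 2 = P := by
      have : ((a : ℝ) + 1) = (2 : ℝ) ^ m := by
        have := congrArg (Nat.cast : ℕ → ℝ) ha
        push_cast at this; linarith
      rw [this, hP, ← pow_mul, mul_comm m 2, pow_mul]; norm_num
    have hs : (4 : ℝ) ^ (m + 1) = 4 * P := by rw [hP]; ring
    rw [hs]
    set M2 := ex (fun x => g x ^ (2 * a + 2)) with hM2
    set E := ex (fun x => v x ^ (2 * a + 1) * g x) with hE'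
    have hE0 : 0 ≤ E := ex_nonneg fun x => mul_nonneg (pow_nonneg (hv0 x) _) (hg x)
    have h1 := moment_step hg hv0 hb a
    rw [hPa] at h1
    -- Young
    have h2 : ex (fun x => v x * g x ^ (2 * a + 1)) ≤ (1 / P) * M2 + P ^ (2 * a) * E := by
      rw [hM2, hE', ← ex_const_mul, ← ex_const_mul, ← ex_add]
      refine ex_mono fun x => ?_
      have h3 := mul_le_mul_of_nonneg_left (young (hg x) (hv0 x) hPpos (2 * a)) (hg x)
      refine le_trans (le_of_eq ?_) (h3.trans (le_of_eq ?_))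
      · ring
      · ring
    have h3 : M2 ≤ P ^ (2 * a + 1) * E + 2 * ex (fun x => g x ^ (a + 1)) ^ 2 := by
      have h4 : (1 / 2) * P * ex (fun x => v x * g x ^ (2 * a + 1))
          ≤ (1 / 2) * P * ((1 / P) * M2 + P ^ (2 * a) * E) :=
        mul_le_mul_of_nonneg_left h2 (by positivity)
      have h5 : (1 / 2) * P * ((1 / P) * M2 + P ^ (2 * a) * E)
          = (1 / 2) * M2 + (1 / 2) * (P ^ (2 * a + 1) * E) := by
        field_simp
        ring
      linarith
    -- Cauchy-Schwarz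
    have h6 : ex (fun x => v x ^ a * g x) ^ 2 ≤ E := by
      have h7 := cauchy_schwarz (fun x => Real.sqrt (g x)) (fun x => v x ^ a * Real.sqrt (g x))
      have h8 : ex (fun x => Real.sqrt (g x) * (v x ^ a * Real.sqrt (g x)))
          = ex (fun x => v x ^ a * g x) := ex_congr fun x => by
        have := Real.mul_self_sqrt (hg x)
        calc Real.sqrt (g x) * (v x ^ a * Real.sqrt (g x))
            = v x ^ a * (Real.sqrt (g x) * Real.sqrt (g x)) := by ring
          _ = _ := by rw [this]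
      have h9 : ex (fun x => Real.sqrt (g x) ^ 2) = ex g := ex_congr fun x => Real.sq_sqrt (hg x)
      have h10 : ex (fun x => (v x ^ a * Real.sqrt (g x)) ^ 2) = ex (fun x => v x ^ (2 * a) * g x) :=
        ex_congr fun x => by rw [mul_pow, Real.sq_sqrt (hg x)]; ring
      rw [h8, h9, h10] at h7
      refine h7.trans ?_
      have h11 : 0 ≤ ex (fun x => v x ^ (2 * a) * g x) :=
        ex_nonneg fun x => mul_nonneg (pow_nonneg (hv0 x) _) (hg x)
      refine (mul_le_mul_of_nonneg_right hE h11).trans ?_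
      rw [← ex_const_mul]
      refine ex_mono fun x => ?_
      have : v x ^ (2 * a + 1) * g x = v x * (v x ^ (2 * a) * g x) := by ring
      rw [this]
      exact mul_le_mul_of_nonneg_right (hv x) (mul_nonneg (pow_nonneg (hv0 x) _) (hg x))
    have h12 : ex (fun x => g x ^ (a + 1)) ^ 2 ≤ (4 * P) ^ (2 * a) * E := by
      have h13 : 0 ≤ ex (fun x => g x ^ (a + 1)) := ex_nonneg fun x => pow_nonneg (hg x) _
      refine (pow_le_pow_left₀ h13 ih 2).trans ?_
      rw [mul_pow, ← pow_mul, mul_comm a 2]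
      exact mul_le_mul_of_nonneg_left h6 (by positivity)
    have h14 : P ^ (2 * a + 1) * E + 2 * ((4 * P) ^ (2 * a) * E)
        ≤ (4 * (4 * P)) ^ (2 * a + 1) * E := by
      have e2 : P ^ (2 * a + 1) * E + 2 * ((4 * P) ^ (2 * a) * E)
          = (P ^ (2 * a + 1) + 2 * (4 * P) ^ (2 * a)) * E := by ring
      rw [e2]
      refine mul_le_mul_of_nonneg_right ?_ hE0
      have h15 : P ^ (2 * a + 1) ≤ (4 * P) ^ (2 * a + 1) :=
        pow_le_pow_left₀ hPpos.le (by linarith) _
      have h16 : (4 * P) ^ (2 * a) ≤ (4 * P) ^ (2 * a + 1) :=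
        pow_le_pow_right₀ (by linarith) (by omega)
      have h17 : (4 * (4 * P)) ^ (2 * a + 1) = 4 ^ (2 * a + 1) * (4 * P) ^ (2 * a + 1) := by
        rw [mul_pow]
      have h18 : (4 : ℝ) ≤ 4 ^ (2 * a + 1) := by
        calc (4 : ℝ) = 4 ^ 1 := by norm_num
          _ ≤ 4 ^ (2 * a + 1) := pow_le_pow_right₀ (by norm_num) (by omega)
      have h19 : 0 ≤ (4 * P) ^ (2 * a + 1) := by positivity
      rw [h17]
      nlinarith
    linarith

end Pool.Agent.Helper24.QR
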