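import Mathlib
import Pool.Agent.Helper24.QR.Mix

/-!
Covariance with functions of a bounded number of adaptively chosen batches of coordinates.
-/

set_option linter.dupNamespace false

namespace Pool.Agent.Helper24.QR

open Finset Pool.Agent.Helper11.Cube Pool.Agent.Helper11.AA

variable {n : ℕ}

/-- Increasing sets of coordinates, chosen adaptively in batches. -/
structure Batches (K : ℕ → Cube n → Finset (Fin n)) : Prop where
  zero : ∀ x, K 0 x = ∅
  mono : ∀ t x, K t x ⊆ K (t + 1) x
  next : ∀ t x y, (∀ i ∈ K t x, y i = x i) → K (t + 1) y = K (t + 1) x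

lemma Batches.stop {K : ℕ → Cube n → Finset (Fin n)} (hK : Batches K) (t : ℕ) : Stop (K t) := by
  intro x y h
  cases t with
  | zero => rw [hK.zero, hK.zero]
  | succ t => exact hK.next t x y fun i hi => h i (hK.mono t x hi)

lemma Batches.mono' {K : ℕ → Cube n → Finset (Fin n)} (hK : Batches K) {s t : ℕ} (h : s ≤ t)
    (x : Cube n) : K s x ⊆ K t x := by
  induction h with
  | refl => exact Subset.rfl
  | step _ ih => exact ih.trans (hK.mono _ x)

lemma Batches.eq_of_agree {K : ℕ → Cube n → Finset (Fin n)} (hK : Batches K) {s t : ℕ} (h : s ≤ t)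
    {x y : Cube n} (hxy : ∀ i ∈ K t x, y i = x i) : K s y = K s x :=
  hK.stop s x y fun i hi => hxy i (hK.mono' h x hi)

lemma cond_congr {K : Finset (Fin n)} {g : Cube n → ℝ} {x y : Cube n} (h : ∀ i ∈ K, y i = x i) :
    cond K g y = cond K g x := by
  unfold cond
  refine ex_congr fun z => ?_
  congr 1
  funext i
  by_cases hi : i ∈ K
  · simp [mix, hi, h i hi]
  · simp [mix, hi]

lemma batch_step {K : ℕ → Cube n → Finset (Fin n)} (hK : Batches K) (t : ℕ) (f : Cube n → ℝ)
    {D M : ℝ} (hM : ∀ i, derivNorm i f ≤ M)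
    (hD : ∀ x, ((K (t + 1) x \ K t x).card : ℝ) ≤ D) :
    ex (fun x => ex (fun y => (f (mix (K t x) y x) - f (mix (K (t + 1) x) y x)) ^ 2))
      ≤ 2 * (D * M ^ 2) := by
  set B : Cube n → Finset (Fin n) := fun x => K (t + 1) x \ K t x with hB
  have hBagree : ∀ x y, (∀ i ∈ K t x, y i = x i) → B y = B x := by
    intro x y h
    simp only [hB]
    rw [hK.next t x y h, hK.stop t x y h]
  have h1 : ex (fun x => ex (fun y => (f (mix (K t x) y x) - f (mix (K (t + 1) x) y x)) ^ 2))
      = ex (fun x => ex (fun y => (f y - f (mix (B x) x y)) ^ 2)) := by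
    rw [← exchange (hK.stop t) (fun x y => (f y - f (mix (B x) x y)) ^ 2)]
    refine ex_congr fun x => ex_congr fun y => ?_
    rw [hBagree x (mix (K t x) x y) fun i hi => mix_mem hi]
    have : mix (B x) (mix (K t x) x y) (mix (K t x) y x) = mix (K (t + 1) x) y x := by
      funext i
      by_cases h1 : i ∈ K t x
      · have h2 : i ∈ K (t + 1) x := hK.mono t x h1
        simp [mix, hB, h1, h2]
      · by_cases h2 : i ∈ K (t + 1) x
        · simp [mix, hB, h1, h2]
        · simp [mix, hB, h1, h2]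
    rw [this]
  rw [h1, ← ex_cond (hK.stop t) (fun x => ex (fun y => (f y - f (mix (B x) x y)) ^ 2))]
  have h2 : ∀ x, cond (K t x) (fun x => ex (fun y => (f y - f (mix (B x) x y)) ^ 2)) x
      ≤ 2 * (D * M ^ 2) := by
    intro x
    unfold cond
    have e1 : ∀ z, ex (fun y => (f y - f (mix (B (mix (K t x) x z)) (mix (K t x) x z) y)) ^ 2)
        = ex (fun y => (f y - f (mix (B x) z y)) ^ 2) := by
      intro z
      refine ex_congr fun y => ?_
      rw [hBagree x (mix (K t x) x z) fun i hi => mix_mem hi]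
      have : mix (B x) (mix (K t x) x z) y = mix (B x) z y := by
        funext i
        by_cases h1 : i ∈ B x
        · have h2 : i ∉ K t x := (mem_sdiff.1 h1).2
          simp [mix, h1, h2]
        · simp [mix, h1]
      rw [this]
    rw [ex_congr e1]
    refine (resample (B x) f).trans ?_
    refine mul_le_mul_of_nonneg_left ?_ (by norm_num)
    calc ∑ i ∈ B x, derivNorm i f ^ 2 ≤ ∑ i ∈ B x, M ^ 2 :=
          sum_le_sum fun i _ => pow_le_pow_left₀ (derivNorm_nonneg f i) (hM i) 2
      _ = ((B x).card : ℝ) * M ^ 2 := by simp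
      _ ≤ D * M ^ 2 := mul_le_mul_of_nonneg_right (hD x) (sq_nonneg _)
  refine (ex_mono h2).trans (le_of_eq (ex_const _))

lemma ex2_cs (H : Cube n → ℝ) (Δ : Cube n → Cube n → ℝ) :
    ex (fun x => ex (fun y => H x * Δ x y)) ^ 2
      ≤ ex (fun x => H x ^ 2) * ex (fun x => ex (fun y => Δ x y ^ 2)) := by
  have h1 : ex (fun x => ex (fun y => H x * Δ x y)) = ex (fun x => H x * ex (fun y => Δ x y)) :=
    ex_congr fun x => ex_const_mul _ _
  rw [h1]
  refine (cauchy_schwarz H fun x => ex (fun y => Δ x y)).trans ?_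
  refine mul_le_mul_of_nonneg_left (ex_mono fun x => ?_) (ex_nonneg fun x => sq_nonneg _)
  have := cauchy_schwarz (fun _ : Cube n => (1 : ℝ)) (fun y => Δ x y)
  simp only [one_mul, one_pow] at this
  rwa [ex_const, one_mul] at this

/-- **Covariance bound.** -/
theorem batch_cov {K : ℕ → Cube n → Finset (Fin n)} (hK : Batches K) (k : ℕ) (f H : Cube n → ℝ)
    {D M : ℝ} (hM0 : 0 ≤ M) (hD0 : 0 ≤ D) (hM : ∀ i, derivNorm i f ≤ M)
    (hD : ∀ t < k, ∀ x, ((K (t + 1) x \ K t x).card : ℝ) ≤ D)
    (hH : ∀ x y, (∀ i ∈ K k x, y i = x i) → H y = H x) :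
    ex (fun x => H x * f x) - ex H * ex f
      ≤ k * (Real.sqrt (ex (fun x => H x ^ 2)) * Real.sqrt (2 * (D * M ^ 2))) := by
  have h1 : ex (fun x => ex (fun y => H x * f (mix (K k x) y x))) = ex H * ex f := by
    have := exchange (hK.stop k) (fun x y => H x * f y)
    have e2 : ex (fun x => ex (fun y => H x * f y)) = ex H * ex f := by
      rw [ex_congr (fun x => ex_const_mul (H x) f), ex_mul_const]
    rw [← e2, ← this]
    refine ex_congr fun x => ex_congr fun y => ?_
    rw [hH x (mix (K k x) x y) fun i hi => mix_mem hi]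
  have h0 : ex (fun x => ex (fun y => H x * f (mix (K 0 x) y x))) = ex (fun x => H x * f x) := by
    refine ex_congr fun x => ?_
    have : ∀ y, H x * f (mix (K 0 x) y x) = H x * f x := by
      intro y
      have : mix (K 0 x) y x = x := by funext i; simp [mix, hK.zero]
      rw [this]
    rw [ex_congr this, ex_const]
  have htel : ∀ m ≤ k, ex (fun x => ex (fun y => H x * f (mix (K 0 x) y x)))
      - ex (fun x => ex (fun y => H x * f (mix (K m x) y x)))
      ≤ m * (Real.sqrt (ex (fun x => H x ^ 2)) * Real.sqrt (2 * (D * M ^ 2))) := by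
    intro m
    induction m with
    | zero => intro _; simp
    | succ m ih =>
      intro hm
      have h2 := ih (by omega)
      have h3 : ex (fun x => ex (fun y => H x * f (mix (K m x) y x)))
          - ex (fun x => ex (fun y => H x * f (mix (K (m + 1) x) y x)))
          = ex (fun x => ex (fun y => H x * (f (mix (K m x) y x) - f (mix (K (m + 1) x) y x)))) := by
        rw [← ex_sub]
        refine ex_congr fun x => ?_
        rw [← ex_sub]
        exact ex_congr fun y => by ring
      have h4 := ex2_cs H fun x y => f (mix (K m x) y x) - f (mix (K (m + 1) x) y x)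
      have h5 := batch_step hK m f hM (hD m (by omega))
      have h6 : ex (fun x => ex (fun y => H x * (f (mix (K m x) y x) - f (mix (K (m + 1) x) y x))))
          ≤ Real.sqrt (ex (fun x => H x ^ 2)) * Real.sqrt (2 * (D * M ^ 2)) := by
        refine le_trans (le_abs_self _) ?_
        rw [← Real.sqrt_sq_eq_abs, ← Real.sqrt_mul (ex_nonneg fun x => sq_nonneg _)]
        refine Real.sqrt_le_sqrt (h4.trans ?_)
        exact mul_le_mul_of_nonneg_left h5 (ex_nonneg fun x => sq_nonneg _)
      push_cast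
      linarith
  have := htel k le_rfl
  rw [h0, h1] at this
  exact this

/-- **Variance of the conditional expectation on `k` adaptively chosen batches.** -/
theorem batch_var {K : ℕ → Cube n → Finset (Fin n)} (hK : Batches K) (k : ℕ) (f : Cube n → ℝ)
    {D M : ℝ} (hM0 : 0 ≤ M) (hD0 : 0 ≤ D) (hM : ∀ i, derivNorm i f ≤ M)
    (hD : ∀ t < k, ∀ x, ((K (t + 1) x \ K t x).card : ℝ) ≤ D) :
    ex (fun x => cond (K k x) f x ^ 2) - ex f ^ 2 ≤ 2 * (k : ℝ) ^ 2 * (D * M ^ 2) := by
  set h : Cube n → ℝ := fun x => cond (K k x) f x with hh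
  have hmeas : ∀ x y, (∀ i ∈ K k x, y i = x i) → h y = h x := by
    intro x y hxy
    simp only [hh]
    rw [hK.stop k x y hxy]
    exact cond_congr hxy
  have hexh : ex h = ex f := ex_cond (hK.stop k) f
  set H : Cube n → ℝ := fun x => h x - ex f with hH
  have hHmeas : ∀ x y, (∀ i ∈ K k x, y i = x i) → H y = H x := by
    intro x y hxy; simp only [hH]; rw [hmeas x y hxy]
  have h1 := batch_cov hK k f H hM0 hD0 hM hD hHmeas
  have h2 : ex H = 0 := by rw [hH, ex_sub, ex_const, hexh]; ring
  have h3 : ex (fun x => H x * f x) = ex (fun x => H x * h x) := by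
    rw [← ex_cond (hK.stop k) (fun x => H x * f x)]
    refine ex_congr fun x => ?_
    unfold cond
    rw [ex_congr (g := fun y => H x * f (mix (K k x) x y)) (fun y => by
      show H (mix (K k x) x y) * f (mix (K k x) x y) = H x * f (mix (K k x) x y)
      rw [hHmeas x (mix (K k x) x y) fun i hi => mix_mem hi]), ex_const_mul]
    rfl
  have h4 : ex (fun x => H x ^ 2) = ex (fun x => h x ^ 2) - ex f ^ 2 := by
    have : ∀ x, H x ^ 2 = (h x ^ 2 - 2 * ex f * h x) + ex f ^ 2 := by
      intro x; simp only [hH]; ring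
    rw [ex_congr this, ex_add, ex_sub, ex_const, ex_const_mul, hexh]; ring
  have h5 : ex (fun x => H x * h x) = ex (fun x => H x ^ 2) := by
    have : ∀ x, H x * h x = H x ^ 2 + ex f * H x := by intro x; simp only [hH]; ring
    rw [ex_congr this, ex_add, ex_const_mul, h2]; ring
  rw [h2, zero_mul, sub_zero, h3, h5] at h1
  set V := ex (fun x => H x ^ 2) with hV
  have hV0 : 0 ≤ V := ex_nonneg fun x => sq_nonneg _
  rw [← h4]
  have hDM : 0 ≤ 2 * (D * M ^ 2) := by positivity
  -- `V ≤ √V · c` gives `V ≤ c^2`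
  set s := Real.sqrt V with hs
  have hs2 : s ^ 2 = V := Real.sq_sqrt hV0
  have hs0 : 0 ≤ s := Real.sqrt_nonneg _
  set c := Real.sqrt (2 * (D * M ^ 2)) with hc
  have hc2 : c ^ 2 = 2 * (D * M ^ 2) := Real.sq_sqrt hDM
  have hc0 : 0 ≤ c := Real.sqrt_nonneg _
  have h6 : s ^ 2 ≤ k * (s * c) := by rw [hs2]; exact h1
  have h7 : s ≤ k * c := by
    by_contra hcon
    push Not at hcon
    have h8 : 0 ≤ (k : ℝ) * c := by positivity
    have h9 : 0 < s := lt_of_le_of_lt h8 hcon
    nlinarith
  calc V = s ^ 2 := hs2.symm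
    _ ≤ (k * c) ^ 2 := pow_le_pow_left₀ hs0 h7 2
    _ = 2 * (k : ℝ) ^ 2 * (D * M ^ 2) := by rw [mul_pow, hc2]; ring

end Pool.Agent.Helper24.QR
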