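import Mathlib
import Pool.Agent.Helper24.QR.Mix

/-!
Quantum query algorithms with several rounds of parallel queries: the hybrid argument.
-/

set_option linter.dupNamespace false

namespace Pool.Agent.Helper24.QR

open Finset Pool.Agent.Helper11.Cube Pool.Agent.Helper11.AA

/-- An oracle acting by signs on the basis states; the sign of the basis state `r` changes with the
coordinate `i` of the input iff `i ∈ od r`. -/
structure SignOracle (n T : ℕ) (R : Type) where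
  sg : Cube n → R → ℤˣ
  od : R → Finset (Fin n)
  flip_sg : ∀ x i r, sg (flipOn {i} x) r = if i ∈ od r then - sg x r else sg x r
  card_od : ∀ r, (od r).card ≤ T

variable {n T : ℕ} {R : Type} [Fintype R]

/-- The action of the oracle. -/
noncomputable def SignOracle.app (O : SignOracle n T R) (x : Cube n) (ψ : EuclideanSpace ℂ R) :
    EuclideanSpace ℂ R := WithLp.toLp 2 fun r => ((O.sg x r : ℤ) : ℂ) * ψ r

/-- Projection to the basis states whose sign depends on the coordinate `i`. -/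
noncomputable def SignOracle.pr (O : SignOracle n T R) (i : Fin n) (ψ : EuclideanSpace ℂ R) :
    EuclideanSpace ℂ R := WithLp.toLp 2 fun r => if i ∈ O.od r then ψ r else 0

/-- multiplication by a real diagonal matrix -/
noncomputable def dg (c : R → ℝ) (ψ : EuclideanSpace ℂ R) : EuclideanSpace ℂ R :=
  WithLp.toLp 2 fun r => (c r : ℂ) * ψ r

/-- The state after `m` rounds. -/
noncomputable def SignOracle.st (O : SignOracle n T R)
    (U : ℕ → EuclideanSpace ℂ R ≃ₗᵢ[ℂ] EuclideanSpace ℂ R) (ψ : EuclideanSpace ℂ R) (x : Cube n) :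
    ℕ → EuclideanSpace ℂ R
  | 0 => ψ
  | m + 1 => U m (O.app x (SignOracle.st O U ψ x m))

/-- Backward states. -/
noncomputable def SignOracle.bw (O : SignOracle n T R)
    (U : ℕ → EuclideanSpace ℂ R ≃ₗᵢ[ℂ] EuclideanSpace ℂ R) (x : Cube n) :
    ℕ → EuclideanSpace ℂ R → ℕ → EuclideanSpace ℂ R
  | 0, e, _ => e
  | m + 1, e, t => if t = m then O.app x ((U m).symm e)
      else SignOracle.bw O U x m (O.app x ((U m).symm e)) t

lemma sgn_mul_self (u : ℤˣ) : ((u : ℤ) : ℂ) * ((u : ℤ) : ℂ) = 1 := by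
  rcases Int.units_eq_one_or u with h | h <;> simp [h]

lemma norm_sgn (u : ℤˣ) : ‖((u : ℤ) : ℂ)‖ = 1 := by
  rcases Int.units_eq_one_or u with h | h <;> simp [h]

lemma conj_sgn (u : ℤˣ) : (starRingEnd ℂ) ((u : ℤ) : ℂ) = ((u : ℤ) : ℂ) := by
  rcases Int.units_eq_one_or u with h | h <;> simp [h]

lemma SignOracle.norm_app (O : SignOracle n T R) (x : Cube n) (ψ : EuclideanSpace ℂ R) :
    ‖O.app x ψ‖ = ‖ψ‖ := by
  rw [EuclideanSpace.norm_eq, EuclideanSpace.norm_eq]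
  congr 1
  refine sum_congr rfl fun r _ => ?_
  have : ‖(O.app x ψ).ofLp r‖ = ‖ψ.ofLp r‖ := by
    change ‖((O.sg x r : ℤ) : ℂ) * ψ r‖ = ‖ψ r‖
    rw [norm_mul, norm_sgn, one_mul]
  rw [this]

lemma SignOracle.app_sub (O : SignOracle n T R) (x : Cube n) (a b : EuclideanSpace ℂ R) :
    O.app x (a - b) = O.app x a - O.app x b := by
  ext r; simp [SignOracle.app, mul_sub]

lemma SignOracle.inner_app (O : SignOracle n T R) (x : Cube n) (a b : EuclideanSpace ℂ R) :
    inner ℂ a (O.app x b) = inner ℂ (O.app x a) b := by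
  rw [PiLp.inner_apply, PiLp.inner_apply]
  refine sum_congr rfl fun r _ => ?_
  simp only [SignOracle.app, RCLike.inner_apply, map_mul, conj_sgn]
  ring

lemma SignOracle.app_flip (O : SignOracle n T R) (x : Cube n) (i : Fin n) (ψ : EuclideanSpace ℂ R) :
    O.app (flipOn {i} x) ψ = O.app x ψ - (2 : ℂ) • O.app x (O.pr i ψ) := by
  ext r
  by_cases h : i ∈ O.od r
  · simp [SignOracle.app, SignOracle.pr, O.flip_sg, h]; ring
  · simp [SignOracle.app, SignOracle.pr, O.flip_sg, h]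

lemma SignOracle.norm_pr_sq (O : SignOracle n T R) (i : Fin n) (ψ : EuclideanSpace ℂ R) :
    ‖O.pr i ψ‖ ^ 2 = ∑ r, if i ∈ O.od r then ‖ψ r‖ ^ 2 else 0 := by
  rw [EuclideanSpace.norm_sq_eq]
  refine sum_congr rfl fun r _ => ?_
  by_cases h : i ∈ O.od r <;> simp [SignOracle.pr, h]

lemma SignOracle.norm_pr_le (O : SignOracle n T R) (i : Fin n) (ψ : EuclideanSpace ℂ R) :
    ‖O.pr i ψ‖ ≤ ‖ψ‖ := by
  refine (pow_le_pow_iff_left₀ (norm_nonneg _) (norm_nonneg _) (two_ne_zero)).1 ?_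
  rw [O.norm_pr_sq, EuclideanSpace.norm_sq_eq]
  refine sum_le_sum fun r _ => ?_
  split_ifs
  · exact le_rfl
  · positivity

lemma SignOracle.sum_norm_pr_sq (O : SignOracle n T R) (I : Finset (Fin n))
    (ψ : EuclideanSpace ℂ R) : ∑ i ∈ I, ‖O.pr i ψ‖ ^ 2 ≤ T * ‖ψ‖ ^ 2 := by
  simp_rw [O.norm_pr_sq]
  rw [sum_comm, EuclideanSpace.norm_sq_eq, mul_sum]
  refine sum_le_sum fun r _ => ?_
  rw [← sum_filter, sum_const, nsmul_eq_mul]
  refine mul_le_mul_of_nonneg_right ?_ (by positivity)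
  have : (I.filter fun i => i ∈ O.od r) ⊆ O.od r := fun i hi => (mem_filter.1 hi).2
  exact_mod_cast (card_le_card this).trans (O.card_od r)

lemma SignOracle.inner_pr (O : SignOracle n T R) (i : Fin n) (a b : EuclideanSpace ℂ R) :
    inner ℂ a (O.pr i b) = inner ℂ (O.pr i a) (O.pr i b) := by
  rw [PiLp.inner_apply, PiLp.inner_apply]
  refine sum_congr rfl fun r _ => ?_
  by_cases h : i ∈ O.od r <;> simp [SignOracle.pr, h]

lemma SignOracle.pr_sub (O : SignOracle n T R) (i : Fin n) (a b : EuclideanSpace ℂ R) :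
    O.pr i (a - b) = O.pr i a - O.pr i b := by
  ext r; by_cases h : i ∈ O.od r <;> simp [SignOracle.pr, h]

variable (O : SignOracle n T R) (U : ℕ → EuclideanSpace ℂ R ≃ₗᵢ[ℂ] EuclideanSpace ℂ R)
  (ψ : EuclideanSpace ℂ R)

lemma norm_st (x : Cube n) (m : ℕ) : ‖O.st U ψ x m‖ = ‖ψ‖ := by
  induction m with
  | zero => rfl
  | succ m ih => simp [SignOracle.st, O.norm_app, ih]

lemma norm_bw (x : Cube n) (m : ℕ) : ∀ (e : EuclideanSpace ℂ R) (t : ℕ), ‖O.bw U x m e t‖ = ‖e‖ := by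
  induction m with
  | zero => intro e t; rfl
  | succ m ih =>
    intro e t
    unfold SignOracle.bw
    split_ifs
    · simp [O.norm_app]
    · rw [ih]; simp [O.norm_app]

/-- hybrid argument for the norm -/
lemma norm_st_sub (x : Cube n) (i : Fin n) (m : ℕ) :
    ‖O.st U ψ (flipOn {i} x) m - O.st U ψ x m‖ ≤ 2 * ∑ t ∈ range m, ‖O.pr i (O.st U ψ x t)‖ := by
  induction m with
  | zero => simp [SignOracle.st]
  | succ m ih =>
    rw [sum_range_succ, mul_add]
    have h1 : O.st U ψ (flipOn {i} x) (m + 1) - O.st U ψ x (m + 1)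
        = U m (O.app (flipOn {i} x) (O.st U ψ (flipOn {i} x) m - O.st U ψ x m)
          - (2 : ℂ) • O.app x (O.pr i (O.st U ψ x m))) := by
      have h2 : O.app (flipOn {i} x) (O.st U ψ x m)
          = O.app x (O.st U ψ x m) - (2 : ℂ) • O.app x (O.pr i (O.st U ψ x m)) := O.app_flip x i _
      rw [O.app_sub, h2]
      simp only [SignOracle.st]
      rw [← map_sub]
      congr 1
      abel
    rw [h1, LinearIsometryEquiv.norm_map]
    refine (norm_sub_le _ _).trans ?_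
    rw [O.norm_app, norm_smul, O.norm_app]
    have : ‖(2 : ℂ)‖ = 2 := by simp
    rw [this]
    linarith

/-- hybrid argument for inner products -/
lemma inner_st_sub (x : Cube n) (i : Fin n) (m : ℕ) : ∀ e : EuclideanSpace ℂ R,
    inner ℂ e (O.st U ψ (flipOn {i} x) m - O.st U ψ x m)
      = -2 * ∑ t ∈ range m, inner ℂ (O.bw U x m e t) (O.pr i (O.st U ψ (flipOn {i} x) t)) := by
  induction m with
  | zero => intro e; simp [SignOracle.st]
  | succ m ih =>
    intro e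
    rw [sum_range_succ, mul_add]
    set y := flipOn {i} x with hy
    set e' := O.app x ((U m).symm e) with he'
    have h1 : O.st U ψ y (m + 1) - O.st U ψ x (m + 1)
        = U m (O.app x (O.st U ψ y m - O.st U ψ x m)
          - (2 : ℂ) • O.app x (O.pr i (O.st U ψ y m))) := by
      have h2 : O.app y (O.st U ψ y m)
          = O.app x (O.st U ψ y m) - (2 : ℂ) • O.app x (O.pr i (O.st U ψ y m)) := O.app_flip x i _
      rw [O.app_sub]
      simp only [SignOracle.st]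
      rw [← map_sub, h2]
      congr 1
      abel
    have h3 : ∀ w : EuclideanSpace ℂ R, inner ℂ e (U m w) = inner ℂ ((U m).symm e) w := by
      intro w
      rw [← LinearIsometryEquiv.inner_map_map (U m) ((U m).symm e) w,
        LinearIsometryEquiv.apply_symm_apply]
    rw [h1, h3, inner_sub_right, inner_smul_right, O.inner_app, O.inner_app, ← he', ih e']
    have h4 : ∑ t ∈ range m, inner ℂ (O.bw U x (m + 1) e t) (O.pr i (O.st U ψ y t))
        = ∑ t ∈ range m, inner ℂ (O.bw U x m e' t) (O.pr i (O.st U ψ y t)) := by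
      refine sum_congr rfl fun t ht => ?_
      have : t ≠ m := (mem_range.1 ht).ne
      rw [SignOracle.bw, if_neg this]
    have h5 : O.bw U x (m + 1) e m = e' := by rw [SignOracle.bw, if_pos rfl]
    rw [h4, h5]
    ring

/-- the query weight of the coordinate `i` in round `t + 1` -/
noncomputable def qw (i : Fin n) (t : ℕ) (x : Cube n) : ℝ := ‖O.pr i (O.st U ψ x t)‖ ^ 2

/-- the expected payoff after `m` rounds -/
noncomputable def pay (c : R → ℝ) (m : ℕ) (x : Cube n) : ℝ := ∑ r, c r * ‖O.st U ψ x m r‖ ^ 2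

lemma qw_nonneg (i : Fin n) (t : ℕ) (x : Cube n) : 0 ≤ qw O U ψ i t x := sq_nonneg _

lemma qw_eq_pay (i : Fin n) (t : ℕ) (x : Cube n) :
    qw O U ψ i t x = pay O U ψ (fun r => if i ∈ O.od r then 1 else 0) t x := by
  unfold qw pay
  rw [O.norm_pr_sq]
  refine sum_congr rfl fun r _ => ?_
  by_cases h : i ∈ O.od r <;> simp [h]

lemma sum_qw (hψ : ‖ψ‖ = 1) (I : Finset (Fin n)) (t : ℕ) (x : Cube n) :
    ∑ i ∈ I, qw O U ψ i t x ≤ T := by
  have := O.sum_norm_pr_sq I (O.st U ψ x t)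
  rw [norm_st, hψ] at this
  simpa [qw] using this

/-- one coordinate -/
lemma diff_le (c : R → ℝ) (hc0 : ∀ r, 0 ≤ c r) (m : ℕ) (x : Cube n) (i : Fin n) :
    max (pay O U ψ c m x - pay O U ψ c m (flipOn {i} x)) 0
      ≤ 8 * (∑ t ∈ range m, ‖O.pr i (O.bw U x m (dg c (O.st U ψ x m)) t)‖)
        * ∑ s ∈ range m, ‖O.pr i (O.st U ψ x s)‖ := by
  set y := flipOn {i} x with hy
  set φ := O.st U ψ x m with hφ
  set φ' := O.st U ψ y m with hφ'
  set e := dg c φ with he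
  have hS0 : 0 ≤ ∑ s ∈ range m, ‖O.pr i (O.st U ψ x s)‖ := sum_nonneg fun _ _ => norm_nonneg _
  have hB0 : 0 ≤ ∑ t ∈ range m, ‖O.pr i (O.bw U x m e t)‖ := sum_nonneg fun _ _ => norm_nonneg _
  refine max_le ?_ (by positivity)
  -- `g(x) - g(y) ≤ 2 |⟨e, φ' - φ⟩|`
  have h1 : pay O U ψ c m x - pay O U ψ c m y ≤ 2 * ‖inner ℂ e (φ' - φ)‖ := by
    have h2 : pay O U ψ c m y - pay O U ψ c m x
        = 2 * (inner ℂ e (φ' - φ)).re + ∑ r, c r * ‖φ' r - φ r‖ ^ 2 := by
      unfold pay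
      rw [PiLp.inner_apply, Complex.re_sum, mul_sum, ← sum_add_distrib, ← sum_sub_distrib]
      refine sum_congr rfl fun r _ => ?_
      have : (inner ℂ (e r) ((φ' - φ) r)).re
          = c r * ((starRingEnd ℂ (φ r)) * (φ' r - φ r)).re := by
        simp only [he, dg, RCLike.inner_apply, map_mul, Complex.conj_ofReal, PiLp.sub_apply]
        have : (φ' r - φ r) * ((c r : ℂ) * (starRingEnd ℂ) (φ r))
            = (c r : ℂ) * ((starRingEnd ℂ (φ r)) * (φ' r - φ r)) := by ring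
        rw [this, Complex.re_ofReal_mul]
      rw [this]
      have h3 : ‖φ' r‖ ^ 2 = ‖φ r‖ ^ 2 + 2 * ((starRingEnd ℂ (φ r)) * (φ' r - φ r)).re
          + ‖φ' r - φ r‖ ^ 2 := by
        rw [← Complex.normSq_eq_norm_sq, ← Complex.normSq_eq_norm_sq, ← Complex.normSq_eq_norm_sq]
        simp only [Complex.normSq_apply, Complex.mul_re, Complex.conj_re, Complex.conj_im,
          Complex.sub_re, Complex.sub_im]
        ring
      rw [← hφ, ← hφ', h3]
      ring
    have h4 : 0 ≤ ∑ r, c r * ‖φ' r - φ r‖ ^ 2 :=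
      sum_nonneg fun r _ => mul_nonneg (hc0 r) (sq_nonneg _)
    have h5 : -‖inner ℂ e (φ' - φ)‖ ≤ (inner ℂ e (φ' - φ)).re :=
      neg_le_of_abs_le (Complex.abs_re_le_norm _)
    linarith
  refine h1.trans ?_
  rw [inner_st_sub O U ψ x i m e, norm_mul]
  have h6 : ‖(-2 : ℂ)‖ = 2 := by simp
  rw [h6]
  have h7 : ‖∑ t ∈ range m, inner ℂ (O.bw U x m e t) (O.pr i (O.st U ψ y t))‖
      ≤ ∑ t ∈ range m, ‖O.pr i (O.bw U x m e t)‖ * (2 * ∑ s ∈ range m, ‖O.pr i (O.st U ψ x s)‖) := by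
    refine (norm_sum_le _ _).trans (sum_le_sum fun t ht => ?_)
    rw [O.inner_pr]
    refine (norm_inner_le_norm _ _).trans (mul_le_mul_of_nonneg_left ?_ (norm_nonneg _))
    have h8 : O.pr i (O.st U ψ y t) = O.pr i (O.st U ψ x t) + O.pr i (O.st U ψ y t - O.st U ψ x t) := by
      rw [O.pr_sub]; abel
    rw [h8]
    refine (norm_add_le _ _).trans ?_
    have h9 := (O.norm_pr_le i (O.st U ψ y t - O.st U ψ x t)).trans (norm_st_sub O U ψ x i t)
    have h10 : ∑ s ∈ range (t + 1), ‖O.pr i (O.st U ψ x s)‖ ≤ ∑ s ∈ range m, ‖O.pr i (O.st U ψ x s)‖ :=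
      sum_le_sum_of_subset_of_nonneg (range_subset_range.2 (mem_range.1 ht)) fun _ _ _ => norm_nonneg _
    rw [sum_range_succ] at h10
    have h11 : 0 ≤ ‖O.pr i (O.st U ψ x t)‖ := norm_nonneg _
    linarith
  rw [← sum_mul] at h7
  calc 2 * (2 * ‖∑ t ∈ range m, inner ℂ (O.bw U x m e t) (O.pr i (O.st U ψ y t))‖)
      ≤ 2 * (2 * ((∑ t ∈ range m, ‖O.pr i (O.bw U x m e t)‖)
        * (2 * ∑ s ∈ range m, ‖O.pr i (O.st U ψ x s)‖))) := by linarith
    _ = _ := by ring

lemma arith1 {a b m A X : ℝ} (hm : 0 ≤ m) (hX : 0 ≤ X) (ha : a ^ 2 ≤ m * X)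
    (hb : b ^ 2 ≤ m * A) : (8 * a * b) ^ 2 ≤ 64 * m ^ 2 * A * X := by
  have h : (8 * a * b) ^ 2 = 64 * (a ^ 2 * b ^ 2) := by ring
  rw [h]
  have h2 : a ^ 2 * b ^ 2 ≤ (m * X) * (m * A) :=
    mul_le_mul ha hb (sq_nonneg _) (by positivity)
  nlinarith

lemma arith2 {S m A T P E : ℝ} (hm : 0 ≤ m) (hA : 0 ≤ A) (hT : 0 ≤ T) (hE : E ≤ P)
    (hS : S ≤ m * (T * E)) : 64 * m ^ 2 * A * S ≤ 64 * m ^ 3 * T * A * P := by
  have h1 : S ≤ m * (T * P) :=
    hS.trans (mul_le_mul_of_nonneg_left (mul_le_mul_of_nonneg_left hE hT) hm)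
  have h2 : 64 * m ^ 2 * A * S ≤ 64 * m ^ 2 * A * (m * (T * P)) :=
    mul_le_mul_of_nonneg_left h1 (by positivity)
  refine h2.trans (le_of_eq ?_)
  ring

/-- **Sum of the squares of the downward differences.** -/
theorem sum_diff_le (c : R → ℝ) (hc0 : ∀ r, 0 ≤ c r) (hc1 : ∀ r, c r ≤ 1) (m : ℕ)
    (x : Cube n) (I : Finset (Fin n)) (A : ℝ) (hA0 : 0 ≤ A)
    (hA : ∀ i ∈ I, ∑ s ∈ range m, qw O U ψ i s x ≤ A) :
    ∑ i ∈ I, (max (pay O U ψ c m x - pay O U ψ c m (flipOn {i} x)) 0) ^ 2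
      ≤ 64 * (m : ℝ) ^ 3 * T * A * pay O U ψ c m x := by
  set e := dg c (O.st U ψ x m) with he
  have he2 : ‖e‖ ^ 2 ≤ pay O U ψ c m x := by
    rw [EuclideanSpace.norm_sq_eq]
    refine sum_le_sum fun r _ => ?_
    simp only [he, dg, norm_mul, mul_pow]
    have : ‖(c r : ℂ)‖ ^ 2 ≤ c r := by
      rw [Complex.norm_real, Real.norm_eq_abs, sq_abs]
      nlinarith [hc0 r, hc1 r]
    exact mul_le_mul_of_nonneg_right this (sq_nonneg _)
  have h1 : ∀ i ∈ I, (max (pay O U ψ c m x - pay O U ψ c m (flipOn {i} x)) 0) ^ 2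
      ≤ 64 * (m : ℝ) ^ 2 * A * ∑ t ∈ range m, ‖O.pr i (O.bw U x m e t)‖ ^ 2 := by
    intro i hi
    have h2 := diff_le O U ψ c hc0 m x i
    have h3 : (∑ t ∈ range m, ‖O.pr i (O.bw U x m e t)‖) ^ 2
        ≤ m * ∑ t ∈ range m, ‖O.pr i (O.bw U x m e t)‖ ^ 2 := by
      have := sq_sum_le_card_mul_sum_sq (s := range m) (f := fun t => ‖O.pr i (O.bw U x m e t)‖)
      simpa using this
    have h4 : (∑ s ∈ range m, ‖O.pr i (O.st U ψ x s)‖) ^ 2 ≤ m * A := by
      have := sq_sum_le_card_mul_sum_sq (s := range m) (f := fun s => ‖O.pr i (O.st U ψ x s)‖)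
      simp only [card_range] at this
      refine this.trans (mul_le_mul_of_nonneg_left (hA i hi) (by positivity))
    have h5 : 0 ≤ ∑ t ∈ range m, ‖O.pr i (O.bw U x m e t)‖ ^ 2 := sum_nonneg fun _ _ => sq_nonneg _
    exact (pow_le_pow_left₀ (le_max_right _ _) h2 2).trans (arith1 (Nat.cast_nonneg m) h5 h3 h4)
  refine (sum_le_sum h1).trans ?_
  rw [← mul_sum, sum_comm]
  have h6 : ∑ t ∈ range m, ∑ i ∈ I, ‖O.pr i (O.bw U x m e t)‖ ^ 2 ≤ m * (T * ‖e‖ ^ 2) := by
    have : ∀ t ∈ range m, ∑ i ∈ I, ‖O.pr i (O.bw U x m e t)‖ ^ 2 ≤ T * ‖e‖ ^ 2 := by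
      intro t _
      have := O.sum_norm_pr_sq I (O.bw U x m e t)
      rwa [norm_bw] at this
    refine (sum_le_sum this).trans (le_of_eq ?_)
    simp
  exact arith2 (Nat.cast_nonneg m) hA0 (Nat.cast_nonneg T) he2 h6

end Pool.Agent.Helper24.QR
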