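import Mathlib
import Pool.Agent.Helper24.QR.Moment
import Pool.Agent.Helper24.QR.Quant
import Pool.Agent.Helper24.QR.Osss

/-!
The adaptively chosen sets of heavy coordinates and the growth of the light weights from round to
round.
-/

set_option linter.dupNamespace false

namespace Pool.Agent.Helper24.QR

open Finset Pool.Agent.Helper11.Cube Pool.Agent.Helper11.AA

variable {n T : ℕ} {R : Type} [Fintype R]
variable (O : SignOracle n T R) (U : ℕ → EuclideanSpace ℂ R ≃ₗᵢ[ℂ] EuclideanSpace ℂ R)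
variable (ψ : EuclideanSpace ℂ R)

lemma cond_nonneg {n : ℕ} {K : Finset (Fin n)} {g : Cube n → ℝ} (hg : ∀ x, 0 ≤ g x) (x : Cube n) :
    0 ≤ cond K g x := ex_nonneg fun _ => hg _

lemma cond_mono {n : ℕ} {K : Finset (Fin n)} {g h : Cube n → ℝ} (hg : ∀ x, g x ≤ h x) (x : Cube n) :
    cond K g x ≤ cond K h x := ex_mono fun _ => hg _

lemma cond_sum {n : ℕ} {ι : Type*} {K : Finset (Fin n)} (s : Finset ι) (g : ι → Cube n → ℝ)
    (x : Cube n) : cond K (fun z => ∑ j ∈ s, g j z) x = ∑ j ∈ s, cond K (g j) x := by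
  unfold cond; rw [ex_sum]

lemma cond_const_mul {n : ℕ} {K : Finset (Fin n)} (c : ℝ) (g : Cube n → ℝ) (x : Cube n) :
    cond K (fun z => c * g z) x = c * cond K g x := by
  unfold cond; rw [ex_const_mul]

open Classical in
/-- The heavy coordinates after `t` rounds. -/
noncomputable def heavy (δ : ℝ) : ℕ → Cube n → Finset (Fin n)
  | 0, _ => ∅
  | t + 1, x => heavy δ t x ∪ univ.filter (fun j => δ ≤ cond (heavy δ t x) (qw O U ψ j t) x)

lemma heavy_stop (δ : ℝ) (t : ℕ) : Stop (heavy O U ψ δ t) := by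
  induction t with
  | zero => intro x y _; simp [heavy]
  | succ t ih =>
    intro x y h
    have h1 : ∀ i ∈ heavy O U ψ δ t x, y i = x i := fun i hi => h i (by
      simp only [heavy]; exact mem_union_left _ hi)
    simp only [heavy]
    rw [ih x y h1]
    congr 1
    refine filter_congr fun j _ => ?_
    rw [cond_congr h1]

lemma heavy_batches (δ : ℝ) : Batches (heavy O U ψ δ) where
  zero := fun _ => rfl
  mono := fun t x => by simp only [heavy]; exact subset_union_left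
  next := fun t x y h => by
    simp only [heavy]
    rw [heavy_stop O U ψ δ t x y h]
    congr 1
    refine filter_congr fun j _ => ?_
    rw [cond_congr h]

lemma light_lt (δ : ℝ) (t : ℕ) (x : Cube n) {j : Fin n} (hj : j ∉ heavy O U ψ δ (t + 1) x) :
    cond (heavy O U ψ δ t x) (qw O U ψ j t) x < δ := by
  simp only [heavy, mem_union, mem_filter, mem_univ, true_and, not_or, not_le] at hj
  exact hj.2

lemma heavy_card (hψ : ‖ψ‖ = 1) {δ : ℝ} (hδ : 0 < δ) (t : ℕ) (x : Cube n) :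
    ((heavy O U ψ δ (t + 1) x \ heavy O U ψ δ t x).card : ℝ) ≤ T / δ := by
  classical
  rw [le_div_iff₀ hδ]
  set F := univ.filter (fun j => δ ≤ cond (heavy O U ψ δ t x) (qw O U ψ j t) x) with hF
  have hsub : heavy O U ψ δ (t + 1) x \ heavy O U ψ δ t x ⊆ F := by
    intro j hj
    simp only [heavy, mem_sdiff, mem_union, mem_filter, mem_univ, true_and] at hj
    rw [hF, mem_filter]
    refine ⟨mem_univ _, ?_⟩
    rcases hj.1 with h | h
    · exact absurd h hj.2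
    · exact h
  calc ((heavy O U ψ δ (t + 1) x \ heavy O U ψ δ t x).card : ℝ) * δ
      ≤ (F.card : ℝ) * δ := mul_le_mul_of_nonneg_right (by exact_mod_cast card_le_card hsub) hδ.le
    _ = ∑ _j ∈ F, δ := by rw [sum_const, nsmul_eq_mul]
    _ ≤ ∑ j ∈ F, cond (heavy O U ψ δ t x) (qw O U ψ j t) x :=
        sum_le_sum fun j hj => (mem_filter.1 hj).2
    _ = cond (heavy O U ψ δ t x) (fun z => ∑ j ∈ F, qw O U ψ j t z) x := (cond_sum _ _ _).symm
    _ ≤ cond (heavy O U ψ δ t x) (fun _ => (T : ℝ)) x := cond_mono (fun z => sum_qw O U ψ hψ F t z) x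
    _ = T := ex_const _

/-- The `ℓ^p` norm of the light weights of round `t`. -/
noncomputable def light (δ : ℝ) (p t : ℕ) (x : Cube n) : ℝ :=
  (∑ j ∈ univ \ heavy O U ψ δ (t + 1) x, qw O U ψ j t x ^ p) ^ ((p : ℝ)⁻¹)

lemma light_nonneg (δ : ℝ) (p t : ℕ) (x : Cube n) : 0 ≤ light O U ψ δ p t x :=
  Real.rpow_nonneg (sum_nonneg fun _ _ => pow_nonneg (qw_nonneg O U ψ _ _ _) _) _

lemma light_pow (δ : ℝ) {p : ℕ} (hp : p ≠ 0) (t : ℕ) (x : Cube n) :
    light O U ψ δ p t x ^ p = ∑ j ∈ univ \ heavy O U ψ δ (t + 1) x, qw O U ψ j t x ^ p :=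
  Real.rpow_inv_natCast_pow (sum_nonneg fun _ _ => pow_nonneg (qw_nonneg O U ψ _ _ _) _) hp

lemma qw_le_light (δ : ℝ) {p : ℕ} (hp : p ≠ 0) (t : ℕ) (x : Cube n) {j : Fin n}
    (hj : j ∉ heavy O U ψ δ (t + 1) x) : qw O U ψ j t x ≤ light O U ψ δ p t x := by
  refine (pow_le_pow_iff_left₀ (qw_nonneg O U ψ _ _ _) (light_nonneg O U ψ δ p t x) hp).1 ?_
  rw [light_pow O U ψ δ hp]
  exact single_le_sum (f := fun j => qw O U ψ j t x ^ p)
    (fun i _ => pow_nonneg (qw_nonneg O U ψ _ _ _) _) (by simpa using hj)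

/-- `δ` plus the sum of the light norms of the first `t` rounds. -/
noncomputable def SS (δ : ℝ) (p t : ℕ) (x : Cube n) : ℝ := δ + ∑ s ∈ range t, light O U ψ δ p s x

lemma le_SS (δ : ℝ) (p t : ℕ) (x : Cube n) : δ ≤ SS O U ψ δ p t x := by
  have : 0 ≤ ∑ s ∈ range t, light O U ψ δ p s x := sum_nonneg fun _ _ => light_nonneg _ _ _ _ _ _ _
  unfold SS; linarith

lemma SS_succ (δ : ℝ) (p t : ℕ) (x : Cube n) :
    SS O U ψ δ p (t + 1) x = SS O U ψ δ p t x + light O U ψ δ p t x := by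
  unfold SS; rw [sum_range_succ]; ring

/-- Outside the heavy set all weights are bounded by `SS`. -/
lemma sum_qw_le (δ : ℝ) (hδ : 0 ≤ δ) {p : ℕ} (hp : p ≠ 0) (t : ℕ) (x : Cube n) {i : Fin n}
    (hi : i ∉ heavy O U ψ δ t x) : ∑ s ∈ range t, qw O U ψ i s x ≤ SS O U ψ δ p t x := by
  have h1 : ∑ s ∈ range t, qw O U ψ i s x ≤ ∑ s ∈ range t, light O U ψ δ p s x := by
    refine sum_le_sum fun s hs => qw_le_light O U ψ δ hp s x fun hcon => hi ?_
    exact (heavy_batches O U ψ δ).mono' (Nat.succ_le_of_lt (mem_range.1 hs)) x hcon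
  unfold SS; linarith

/-- One-sided differences of a payoff after `m ≤ k` rounds outside the heavy set. -/
lemma diff_heavy (δ : ℝ) (hδ : 0 ≤ δ) {p : ℕ} (hp : p ≠ 0) (c : R → ℝ) (hc0 : ∀ r, 0 ≤ c r)
    (hc1 : ∀ r, c r ≤ 1) (t : ℕ) (x : Cube n) :
    ∑ i ∈ univ \ heavy O U ψ δ t x,
      (max (pay O U ψ c t x - pay O U ψ c t (flipOn {i} x)) 0) ^ 2
      ≤ 64 * (t : ℝ) ^ 3 * T * SS O U ψ δ p t x * pay O U ψ c t x := by
  refine sum_diff_le O U ψ c hc0 hc1 t x _ _ (hδ.trans (le_SS O U ψ δ p t x)) fun i hi => ?_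
  exact sum_qw_le O U ψ δ hδ hp t x (by simpa using hi)

/-- The constant of round `t`. -/
noncomputable def cc (T p t : ℕ) : ℝ := 512 * (p : ℝ) ^ 2 * ((t : ℝ) + 1) ^ 3 * T

/-- The moment bound for one light coordinate. -/
lemma light_moment {δ : ℝ} (hδ : 0 < δ) (m t : ℕ) (hT : 1 ≤ T) (x : Cube n)
    {j : Fin n} (hj : j ∉ heavy O U ψ δ (t + 1) x) :
    cond (heavy O U ψ δ t x) (fun z => qw O U ψ j t z ^ (2 ^ m)) x
      ≤ (4 * (4 : ℝ) ^ m) ^ (2 ^ m - 1) * cond (heavy O U ψ δ t x)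
        (fun z => (64 * ((t : ℝ) + 1) ^ 3 * T * SS O U ψ δ (2 ^ m) t z) ^ (2 ^ m - 1)
          * qw O U ψ j t z) x := by
  have hp : (2 ^ m : ℕ) ≠ 0 := by positivity
  have hT' : (1 : ℝ) ≤ T := by exact_mod_cast hT
  set K := heavy O U ψ δ t x with hK
  refine moment (g := fun y => qw O U ψ j t (mix K x y))
    (v := fun y => 64 * ((t : ℝ) + 1) ^ 3 * T * SS O U ψ δ (2 ^ m) t (mix K x y)) (δ := δ)
    (fun y => qw_nonneg _ _ _ _ _ _) (light_lt O U ψ δ t x hj).le ?_ ?_ m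
  · intro y
    have h1 := le_SS O U ψ δ (2 ^ m) t (mix K x y)
    have h2 : (1 : ℝ) ≤ 64 * ((t : ℝ) + 1) ^ 3 * T := by
      have h3 : (1 : ℝ) ≤ ((t : ℝ) + 1) ^ 3 := one_le_pow₀ (by have := Nat.cast_nonneg (α := ℝ) t; linarith)
      nlinarith
    nlinarith
  · intro y
    set z := mix K x y with hz
    have hKz : heavy O U ψ δ t z = K := (heavy_stop O U ψ δ t).mix x y
    rw [← sum_sdiff (subset_univ K)]
    have h0 : ∑ i ∈ K, (max (qw O U ψ j t z - qw O U ψ j t (mix K x (flipOn {i} y))) 0) ^ 2 = 0 := by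
      refine sum_eq_zero fun i hi => ?_
      rw [mix_flip_mem x y hi]; simp [hz]
    rw [h0, add_zero]
    have h1 : ∑ i ∈ univ \ K, (max (qw O U ψ j t z - qw O U ψ j t (mix K x (flipOn {i} y))) 0) ^ 2
        = ∑ i ∈ univ \ heavy O U ψ δ t z,
          (max (qw O U ψ j t z - qw O U ψ j t (flipOn {i} z)) 0) ^ 2 := by
      rw [hKz]
      refine sum_congr rfl fun i hi => ?_
      rw [mix_flip_notMem x y (by simpa using hi)]
    rw [h1]
    have h2 := diff_heavy O U ψ δ hδ.le hp (fun r => if j ∈ O.od r then 1 else 0)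
      (fun r => by split_ifs <;> norm_num) (fun r => by split_ifs <;> norm_num) t z
    simp only [← qw_eq_pay] at h2
    refine h2.trans ?_
    refine mul_le_mul_of_nonneg_right ?_ (qw_nonneg _ _ _ _ _ _)
    refine mul_le_mul_of_nonneg_right ?_ (hδ.le.trans (le_SS O U ψ δ _ t z))
    refine mul_le_mul_of_nonneg_right ?_ (Nat.cast_nonneg _)
    refine mul_le_mul_of_nonneg_left ?_ (by norm_num)
    exact pow_le_pow_left₀ (Nat.cast_nonneg _) (by linarith) _

/-- The `p`-th moment of the light norm of round `t`. -/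
lemma ex_light_le (hψ : ‖ψ‖ = 1) {δ : ℝ} (hδ : 0 < δ) (m t : ℕ) (hT : 1 ≤ T)
    (hp : (T : ℝ) / δ ≤ 2 ^ (2 ^ m)) :
    ex (fun x => light O U ψ δ (2 ^ m) t x ^ (2 ^ m))
      ≤ cc T (2 ^ m) t ^ (2 ^ m) * ex (fun x => SS O U ψ δ (2 ^ m) t x ^ (2 ^ m)) := by
  have hp0 : (2 ^ m : ℕ) ≠ 0 := by positivity
  have hT' : (1 : ℝ) ≤ T := by exact_mod_cast hT
  set p := 2 ^ m with hpdef
  set B : ℝ := 64 * ((t : ℝ) + 1) ^ 3 * T with hB
  have hB1 : 1 ≤ B := by
    have h3 : (1 : ℝ) ≤ ((t : ℝ) + 1) ^ 3 := one_le_pow₀ (by have := Nat.cast_nonneg (α := ℝ) t; linarith)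
    rw [hB]; nlinarith
  have hstop := heavy_stop O U ψ δ t
  -- conditional bound
  have h1 : ∀ x, cond (heavy O U ψ δ t x) (fun z => light O U ψ δ p t z ^ p) x
      ≤ (4 * (4 : ℝ) ^ m) ^ (p - 1) * (T * cond (heavy O U ψ δ t x)
        (fun z => (B * SS O U ψ δ p t z) ^ (p - 1)) x) := by
    intro x
    set K := heavy O U ψ δ t x with hK
    set J := univ \ heavy O U ψ δ (t + 1) x with hJ
    have e1 : cond K (fun z => light O U ψ δ p t z ^ p) x
        = cond K (fun z => ∑ j ∈ J, qw O U ψ j t z ^ p) x := by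
      unfold cond
      refine ex_congr fun y => ?_
      show light O U ψ δ p t (mix K x y) ^ p = ∑ j ∈ J, qw O U ψ j t (mix K x y) ^ p
      rw [light_pow O U ψ δ hp0, hJ,
        (heavy_batches O U ψ δ).next t x (mix K x y) fun i hi => mix_mem hi]
    rw [e1, cond_sum]
    have h2 : ∀ j ∈ J, cond K (fun z => qw O U ψ j t z ^ p) x
        ≤ (4 * (4 : ℝ) ^ m) ^ (p - 1) * cond K
          (fun z => (B * SS O U ψ δ p t z) ^ (p - 1) * qw O U ψ j t z) x := by
      intro j hj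
      exact light_moment O U ψ hδ m t hT x (by simpa [hJ] using hj)
    refine (sum_le_sum h2).trans ?_
    rw [← mul_sum, ← cond_sum]
    refine mul_le_mul_of_nonneg_left ?_ (by positivity)
    rw [← cond_const_mul]
    refine cond_mono (fun z => ?_) x
    rw [← mul_sum, mul_comm]
    refine mul_le_mul_of_nonneg_right (sum_qw O U ψ hψ J t z) (pow_nonneg ?_ _)
    have := hδ.le.trans (le_SS O U ψ δ p t z)
    positivity
  have h2 : ex (fun x => light O U ψ δ p t x ^ p)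
      ≤ (4 * (4 : ℝ) ^ m) ^ (p - 1) * (T * ex (fun x => (B * SS O U ψ δ p t x) ^ (p - 1))) := by
    rw [← ex_cond hstop, ← ex_cond hstop (fun x => (B * SS O U ψ δ p t x) ^ (p - 1)),
      ← ex_const_mul, ← ex_const_mul]
    exact ex_mono h1
  -- `S^{p-1} ≤ S^p / δ`
  have h3 : ex (fun x => (B * SS O U ψ δ p t x) ^ (p - 1))
      ≤ B ^ (p - 1) * (1 / δ) * ex (fun x => SS O U ψ δ p t x ^ p) := by
    rw [← ex_const_mul]
    refine ex_mono fun x => ?_
    have hS := le_SS O U ψ δ p t x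
    have hS0 : 0 ≤ SS O U ψ δ p t x := hδ.le.trans hS
    rw [mul_pow, mul_assoc]
    refine mul_le_mul_of_nonneg_left ?_ (by positivity)
    rw [one_div, ← div_eq_inv_mul, le_div_iff₀ hδ]
    rw [← pow_sub_one_mul hp0 (SS O U ψ δ p t x)]
    exact mul_le_mul_of_nonneg_left hS (pow_nonneg hS0 _)
  set E := ex (fun x => SS O U ψ δ p t x ^ p) with hE
  have hE0 : 0 ≤ E := ex_nonneg fun x => pow_nonneg (hδ.le.trans (le_SS O U ψ δ p t x)) _
  have h4 : (4 * (4 : ℝ) ^ m) = 4 * (p : ℝ) ^ 2 := by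
    rw [hpdef]; push_cast
    rw [← pow_mul, mul_comm m 2, pow_mul]; norm_num
  set A : ℝ := 4 * (p : ℝ) ^ 2 with hA
  have hp1 : (1 : ℝ) ≤ p := by exact_mod_cast Nat.one_le_iff_ne_zero.2 hp0
  have hA1 : 1 ≤ A := by rw [hA]; nlinarith
  rw [h4] at h2
  have h5 : A ^ (p - 1) * (T * (B ^ (p - 1) * (1 / δ) * E)) ≤ cc T p t ^ p * E := by
    have e2 : A ^ (p - 1) * (T * (B ^ (p - 1) * (1 / δ) * E))
        = ((A * B) ^ (p - 1) * (T / δ)) * E := by
      rw [mul_pow A B]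
      generalize A ^ (p - 1) = a1
      generalize B ^ (p - 1) = b1
      ring
    rw [e2]
    refine mul_le_mul_of_nonneg_right ?_ hE0
    have hAB : 1 ≤ A * B := one_le_mul_of_one_le_of_one_le hA1 hB1
    calc (A * B) ^ (p - 1) * (T / δ) ≤ (A * B) ^ (p - 1) * 2 ^ p :=
          mul_le_mul_of_nonneg_left hp (by positivity)
      _ ≤ (A * B) ^ p * 2 ^ p :=
          mul_le_mul_of_nonneg_right (pow_le_pow_right₀ hAB (Nat.sub_le _ _)) (by positivity)
      _ = (A * B * 2) ^ p := (mul_pow _ _ _).symm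
      _ = cc T p t ^ p := by rw [hA, hB, cc]; ring
  refine h2.trans (le_trans ?_ h5)
  refine mul_le_mul_of_nonneg_left ?_ (by positivity)
  exact mul_le_mul_of_nonneg_left h3 (by linarith)

/-- Convexity. -/
lemma add_pow_convex {S a c : ℝ} (hS : 0 ≤ S) (ha : 0 ≤ a) (hc : 0 < c) (p : ℕ) (hp : p ≠ 0) :
    (S + a) ^ p ≤ (1 + c) ^ (p - 1) * (S ^ p + a ^ p / c ^ (p - 1)) := by
  obtain ⟨q, rfl⟩ : ∃ q, p = q + 1 := ⟨p - 1, by omega⟩
  simp only [Nat.add_sub_cancel]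
  have h1c : 0 < 1 + c := by linarith
  have h := (convexOn_pow (𝕜 := ℝ) (q + 1)).2 (show S ∈ Set.Ici (0 : ℝ) from hS)
    (show a / c ∈ Set.Ici (0 : ℝ) from div_nonneg ha hc.le)
    (show (0 : ℝ) ≤ 1 / (1 + c) by positivity) (show (0 : ℝ) ≤ c / (1 + c) by positivity)
    (by field_simp)
  simp only [smul_eq_mul] at h
  have e1 : 1 / (1 + c) * S + c / (1 + c) * (a / c) = (S + a) / (1 + c) := by field_simp
  rw [e1, div_pow, div_le_iff₀ (by positivity)] at h
  refine h.trans (le_of_eq ?_)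
  rw [div_pow]
  field_simp
  ring

/-- Growth of the moments of `SS` in one round. -/
lemma ex_SS_succ (hψ : ‖ψ‖ = 1) {δ : ℝ} (hδ : 0 < δ) (m t : ℕ) (hT : 1 ≤ T)
    (hp : (T : ℝ) / δ ≤ 2 ^ (2 ^ m)) :
    ex (fun x => SS O U ψ δ (2 ^ m) (t + 1) x ^ (2 ^ m))
      ≤ (1 + cc T (2 ^ m) t) ^ (2 ^ m) * ex (fun x => SS O U ψ δ (2 ^ m) t x ^ (2 ^ m)) := by
  have hp0 : (2 ^ m : ℕ) ≠ 0 := by positivity
  have hT' : (1 : ℝ) ≤ T := by exact_mod_cast hT
  have h1 := ex_light_le O U ψ hψ hδ m t hT hp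
  set p := 2 ^ m with hpdef
  set c := cc T p t with hc
  have hp1 : (1 : ℝ) ≤ p := by exact_mod_cast Nat.one_le_iff_ne_zero.2 hp0
  have hcpos : 0 < c := by
    rw [hc, cc]; positivity
  set E := ex (fun x => SS O U ψ δ p t x ^ p) with hE
  have hE0 : 0 ≤ E := ex_nonneg fun x => pow_nonneg (hδ.le.trans (le_SS O U ψ δ p t x)) _
  have h2 : ex (fun x => SS O U ψ δ p (t + 1) x ^ p)
      ≤ (1 + c) ^ (p - 1) * (E + ex (fun x => light O U ψ δ p t x ^ p) / c ^ (p - 1)) := by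
    have e1 : (1 + c) ^ (p - 1) * (E + ex (fun x => light O U ψ δ p t x ^ p) / c ^ (p - 1))
        = ex (fun x => (1 + c) ^ (p - 1) * (SS O U ψ δ p t x ^ p
          + (c ^ (p - 1))⁻¹ * light O U ψ δ p t x ^ p)) := by
      rw [ex_const_mul, ex_add, ex_const_mul, div_eq_inv_mul]
    rw [e1]
    refine ex_mono fun x => ?_
    rw [SS_succ]
    refine (add_pow_convex (hδ.le.trans (le_SS O U ψ δ p t x)) (light_nonneg O U ψ δ p t x)
      hcpos p hp0).trans (le_of_eq ?_)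
    rw [div_eq_inv_mul]
  refine h2.trans ?_
  have h3 : ex (fun x => light O U ψ δ p t x ^ p) / c ^ (p - 1) ≤ c * E := by
    rw [div_le_iff₀ (by positivity)]
    refine h1.trans (le_of_eq ?_)
    rw [← pow_sub_one_mul hp0 c]; ring
  calc (1 + c) ^ (p - 1) * (E + ex (fun x => light O U ψ δ p t x ^ p) / c ^ (p - 1))
      ≤ (1 + c) ^ (p - 1) * (E + c * E) :=
        mul_le_mul_of_nonneg_left (by linarith) (by positivity)
    _ = ((1 + c) ^ (p - 1) * (1 + c)) * E := by ring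
    _ = (1 + c) ^ p * E := by rw [pow_sub_one_mul hp0]

/-- The weights of the first round do not depend on the input. -/
lemma SS_one (hψ : ‖ψ‖ = 1) {δ : ℝ} (hδ : 0 < δ) (m : ℕ)
    (hp : (T : ℝ) / δ ≤ 2 ^ (2 ^ m)) (x : Cube n) : SS O U ψ δ (2 ^ m) 1 x ≤ 3 * δ := by
  have hp0 : (2 ^ m : ℕ) ≠ 0 := by positivity
  set p := 2 ^ m with hpdef
  unfold SS
  rw [sum_range_one]
  have h1 : light O U ψ δ p 0 x ≤ 2 * δ := by
    refine (pow_le_pow_iff_left₀ (light_nonneg O U ψ δ p 0 x) (by positivity) hp0).1 ?_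
    rw [light_pow O U ψ δ hp0]
    have h2 : ∀ j ∈ univ \ heavy O U ψ δ (0 + 1) x,
        qw O U ψ j 0 x ^ p ≤ δ ^ (p - 1) * qw O U ψ j 0 x := by
      intro j hj
      have h3 := light_lt O U ψ δ 0 x (j := j) (by simpa using hj)
      have h4 : cond (heavy O U ψ δ 0 x) (qw O U ψ j 0) x = qw O U ψ j 0 x := by
        unfold cond
        rw [ex_congr (g := fun _ => qw O U ψ j 0 x) (fun y => by simp [qw, SignOracle.st]), ex_const]
      rw [h4] at h3
      have h5 := qw_nonneg O U ψ j 0 x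
      rw [← pow_sub_one_mul hp0 (qw O U ψ j 0 x)]
      exact mul_le_mul_of_nonneg_right (pow_le_pow_left₀ h5 h3.le _) h5
    refine (sum_le_sum h2).trans ?_
    rw [← mul_sum]
    have h6 := sum_qw O U ψ hψ (univ \ heavy O U ψ δ (0 + 1) x) 0 x
    have h7 : (T : ℝ) ≤ 2 ^ p * δ := by rwa [div_le_iff₀ hδ] at hp
    calc δ ^ (p - 1) * ∑ j ∈ univ \ heavy O U ψ δ (0 + 1) x, qw O U ψ j 0 x
        ≤ δ ^ (p - 1) * (2 ^ p * δ) :=
          mul_le_mul_of_nonneg_left (h6.trans h7) (by positivity)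
      _ = 2 ^ p * (δ ^ (p - 1) * δ) := by ring
      _ = 2 ^ p * δ ^ p := by rw [pow_sub_one_mul hp0]
      _ = (2 * δ) ^ p := (mul_pow _ _ _).symm
  linarith

lemma ex_pow_le {n : ℕ} {g : Cube n → ℝ} (hg : ∀ x, 0 ≤ g x) (p : ℕ) :
    ex g ^ p ≤ ex (fun x => g x ^ p) := by
  have h := Real.pow_arith_mean_le_arith_mean_pow (univ : Finset (Cube n))
    (fun _ => ((2 : ℝ) ^ n)⁻¹) g (fun _ _ => by positivity)
    (by rw [sum_const, nsmul_eq_mul, card_univ]; simp) (fun x _ => hg x) p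
  unfold ex
  rw [← mul_sum, ← mul_sum] at h
  rwa [div_eq_inv_mul, div_eq_inv_mul]

/-- **The light weights stay small on average.** -/
theorem ex_SS_le (hψ : ‖ψ‖ = 1) {δ : ℝ} (hδ : 0 < δ) (m k : ℕ) (hk : 1 ≤ k) (hT : 1 ≤ T)
    (hp : (T : ℝ) / δ ≤ 2 ^ (2 ^ m)) :
    ex (fun x => SS O U ψ δ (2 ^ m) k x)
      ≤ (513 * (k : ℝ) ^ 3 * T * ((2 ^ m : ℕ) : ℝ) ^ 2) ^ (k - 1) * (3 * δ) := by
  have hp0 : (2 ^ m : ℕ) ≠ 0 := by positivity
  have hT' : (1 : ℝ) ≤ T := by exact_mod_cast hT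
  have hk' : (1 : ℝ) ≤ k := by exact_mod_cast hk
  set p := 2 ^ m with hpdef
  have hp1 : (1 : ℝ) ≤ p := by exact_mod_cast Nat.one_le_iff_ne_zero.2 hp0
  set C : ℝ := 513 * (k : ℝ) ^ 3 * T * (p : ℝ) ^ 2 with hC
  have hC0 : 0 ≤ C := by positivity
  have hstep : ∀ t, t + 1 ≤ k → ex (fun x => SS O U ψ δ p (t + 1) x ^ p) ≤ (C ^ t * (3 * δ)) ^ p := by
    intro t
    induction t with
    | zero =>
      intro _
      rw [pow_zero, one_mul]
      refine (ex_mono (g := fun _ => (3 * δ) ^ p) fun x => ?_).trans (le_of_eq (ex_const _))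
      exact pow_le_pow_left₀ (hδ.le.trans (le_SS O U ψ δ p _ x)) (SS_one O U ψ hψ hδ m hp x) _
    | succ t ih =>
      intro ht
      have h1 := ih (by omega)
      have h2 := ex_SS_succ O U ψ hψ hδ m (t + 1) hT hp
      have h3 : 1 + cc T p (t + 1) ≤ C := by
        have h4 : ((t : ℝ) + 1 + 1) ^ 3 ≤ (k : ℝ) ^ 3 := by
          refine pow_le_pow_left₀ (by positivity) ?_ 3
          exact_mod_cast ht
        rw [cc, hC]
        push_cast
        have h5 : 1 ≤ (k : ℝ) ^ 3 * T * (p : ℝ) ^ 2 :=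
          one_le_mul_of_one_le_of_one_le (one_le_mul_of_one_le_of_one_le (one_le_pow₀ hk') hT')
            (one_le_pow₀ hp1)
        have h6 : 512 * (p : ℝ) ^ 2 * ((t : ℝ) + 1 + 1) ^ 3 * T
            ≤ 512 * (p : ℝ) ^ 2 * (k : ℝ) ^ 3 * T := by
          refine mul_le_mul_of_nonneg_right ?_ (by positivity)
          exact mul_le_mul_of_nonneg_left h4 (by positivity)
        nlinarith
      have h0 : 0 ≤ 1 + cc T p (t + 1) := by
        have : 0 ≤ cc T p (t + 1) := by unfold cc; positivity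
        linarith
      refine h2.trans ?_
      calc (1 + cc T p (t + 1)) ^ p * ex (fun x => SS O U ψ δ p (t + 1) x ^ p)
          ≤ C ^ p * (C ^ t * (3 * δ)) ^ p :=
            mul_le_mul (pow_le_pow_left₀ h0 h3 _) h1
              (ex_nonneg fun x => pow_nonneg (hδ.le.trans (le_SS O U ψ δ p _ x)) _) (by positivity)
        _ = (C ^ (t + 1) * (3 * δ)) ^ p := by rw [← mul_pow, pow_succ]; congr 1; ring
  obtain ⟨t, rfl⟩ : ∃ t, k = t + 1 := ⟨k - 1, by omega⟩
  have h1 := hstep t le_rfl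
  have h2 := ex_pow_le (fun x => hδ.le.trans (le_SS O U ψ δ p (t + 1) x)) p
  simp only [Nat.add_sub_cancel]
  exact (pow_le_pow_iff_left₀ (ex_nonneg fun x => hδ.le.trans (le_SS O U ψ δ p (t + 1) x))
    (by positivity) hp0).1 (h2.trans h1)

end Pool.Agent.Helper24.QR
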