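import Mathlib
import Pool.Agent.Helper24.QR.Rounds
import Pool.Agent.Helper24.QR.Defs

/-!
The two bounds for `k` rounds of queries.
-/

set_option linter.dupNamespace false

namespace Pool.Agent.Helper24.QR

open Finset Pool.Agent.Helper11.Cube Pool.Agent.Helper11.AA Pool.Agent.Helper24.QRounds

/-- A power of two which is a logarithm. -/
lemma exists_double_pow {a : ℝ} (ha : 1 ≤ a) :
    ∃ m : ℕ, a ≤ 2 ^ (2 ^ m) ∧ ((2 ^ m : ℕ) : ℝ) ≤ 1 + 2 * Real.logb 2 a := by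
  have hlog : 0 ≤ Real.logb 2 a := Real.logb_nonneg (by norm_num) ha
  have hex : ∃ m : ℕ, a ≤ 2 ^ (2 ^ m) := by
    obtain ⟨m, hm⟩ := pow_unbounded_of_one_lt a (by norm_num : (1 : ℝ) < 2)
    refine ⟨m, hm.le.trans (pow_le_pow_right₀ (by norm_num) ?_)⟩
    exact (Nat.lt_two_pow_self (n := m)).le
  classical
  refine ⟨Nat.find hex, Nat.find_spec hex, ?_⟩
  rcases Nat.eq_zero_or_pos (Nat.find hex) with h0 | hpos
  · rw [h0]; simp; linarith
  · obtain ⟨m, hm⟩ := Nat.exists_eq_succ_of_ne_zero hpos.ne'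
    have h1 : ¬ a ≤ 2 ^ (2 ^ m) := Nat.find_min hex (by rw [hm]; exact Nat.lt_succ_self m)
    push Not at h1
    have h2 : ((2 ^ m : ℕ) : ℝ) ≤ Real.logb 2 a := by
      rw [Real.le_logb_iff_rpow_le (by norm_num) (by linarith), Real.rpow_natCast]
      exact h1.le
    rw [hm]
    push_cast at h2 ⊢
    rw [pow_succ]
    linarith

variable {n T : ℕ} {R : Type} [Fintype R]
variable (O : SignOracle n T R) (U : ℕ → EuclideanSpace ℂ R ≃ₗᵢ[ℂ] EuclideanSpace ℂ R)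
variable (ψ : EuclideanSpace ℂ R)

lemma pay_nonneg {c : R → ℝ} (hc0 : ∀ r, 0 ≤ c r) (k : ℕ) (x : Cube n) : 0 ≤ pay O U ψ c k x :=
  sum_nonneg fun r _ => mul_nonneg (hc0 r) (sq_nonneg _)

lemma pay_le_one (hψ : ‖ψ‖ = 1) {c : R → ℝ} (hc1 : ∀ r, c r ≤ 1) (k : ℕ)
    (x : Cube n) : pay O U ψ c k x ≤ 1 := by
  have h1 : pay O U ψ c k x ≤ ∑ r, ‖O.st U ψ x k r‖ ^ 2 :=
    sum_le_sum fun r _ => by
      have := mul_le_mul_of_nonneg_right (hc1 r) (sq_nonneg ‖O.st U ψ x k r‖)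
      linarith
  refine h1.trans (le_of_eq ?_)
  rw [← EuclideanSpace.norm_sq_eq, norm_st, hψ]; norm_num

/-- The conditional variance given the heavy coordinates is small. -/
theorem cond_var_le (hψ : ‖ψ‖ = 1) {δ : ℝ} (hδ : 0 < δ) (m k : ℕ) (hk : 1 ≤ k) (hT : 1 ≤ T)
    (hp : (T : ℝ) / δ ≤ 2 ^ (2 ^ m)) {c : R → ℝ} (hc0 : ∀ r, 0 ≤ c r) (hc1 : ∀ r, c r ≤ 1)
    {B : ℝ} (hB : ∀ x, pay O U ψ c k x ≤ B) :
    ex (fun x => cond (heavy O U ψ δ k x) (fun z => pay O U ψ c k z ^ 2) x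
        - cond (heavy O U ψ δ k x) (pay O U ψ c k) x ^ 2)
      ≤ 96 * (k : ℝ) ^ 3 * T * (513 * (k : ℝ) ^ 3 * T * ((2 ^ m : ℕ) : ℝ) ^ 2) ^ (k - 1)
        * B * δ := by
  have hp0 : (2 ^ m : ℕ) ≠ 0 := by positivity
  have hmain := ex_SS_le O U ψ hψ hδ m k hk hT hp
  set f := pay O U ψ c k with hf
  set p := 2 ^ m with hpdef
  have h1 : ∀ x, cond (heavy O U ψ δ k x) (fun z => f z ^ 2) x
        - cond (heavy O U ψ δ k x) f x ^ 2
      ≤ cond (heavy O U ψ δ k x) (fun z => 32 * (k : ℝ) ^ 3 * T * B * SS O U ψ δ p k z) x := by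
    intro x
    refine (poincare_cond (heavy O U ψ δ k x) f x).trans ?_
    rw [← cond_const_mul]
    refine ex_mono fun y => ?_
    show (1 / 2 : ℝ) * ∑ i ∈ univ \ heavy O U ψ δ k x,
      (max (f (mix (heavy O U ψ δ k x) x y) - f (flipOn {i} (mix (heavy O U ψ δ k x) x y))) 0) ^ 2
      ≤ 32 * (k : ℝ) ^ 3 * T * B * SS O U ψ δ p k (mix (heavy O U ψ δ k x) x y)
    have hKz : heavy O U ψ δ k (mix (heavy O U ψ δ k x) x y) = heavy O U ψ δ k x :=
      (heavy_stop O U ψ δ k).mix x y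
    set z := mix (heavy O U ψ δ k x) x y with hz
    rw [← hKz]
    have h2 := diff_heavy O U ψ δ hδ.le hp0 c hc0 hc1 k z
    have h3 : 64 * (k : ℝ) ^ 3 * T * SS O U ψ δ p k z * f z
        ≤ 64 * (k : ℝ) ^ 3 * T * SS O U ψ δ p k z * B := by
      refine mul_le_mul_of_nonneg_left (hB z) ?_
      have := hδ.le.trans (le_SS O U ψ δ p k z)
      positivity
    calc (1 / 2 : ℝ) * ∑ i ∈ univ \ heavy O U ψ δ k z, (max (f z - f (flipOn {i} z)) 0) ^ 2
        ≤ (1 / 2 : ℝ) * (64 * (k : ℝ) ^ 3 * T * SS O U ψ δ p k z * B) :=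
          mul_le_mul_of_nonneg_left (h2.trans h3) (by norm_num)
      _ = _ := by ring
  have hB0 : 0 ≤ B := (pay_nonneg O U ψ hc0 k (fun _ => 1)).trans (hB _)
  refine (ex_mono h1).trans ?_
  rw [ex_cond (heavy_stop O U ψ δ k), ex_const_mul]
  calc 32 * (k : ℝ) ^ 3 * T * B * ex (SS O U ψ δ p k)
      ≤ 32 * (k : ℝ) ^ 3 * T * B * ((513 * (k : ℝ) ^ 3 * T * (p : ℝ) ^ 2) ^ (k - 1) * (3 * δ)) :=
        mul_le_mul_of_nonneg_left hmain (by positivity)
    _ = _ := by ring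

/-- The mean square distance of `f` to its conditional average. -/
lemma ex_sub_cond {n : ℕ} {K : Cube n → Finset (Fin n)} (hK : Stop K) (f : Cube n → ℝ) :
    ex (fun x => (f x - cond (K x) f x) ^ 2)
      = ex (fun x => cond (K x) (fun z => f z ^ 2) x - cond (K x) f x ^ 2) := by
  have hg : ∀ x y, cond (K (mix (K x) x y)) f (mix (K x) x y) = cond (K x) f x := by
    intro x y
    rw [hK.mix]
    exact cond_congr fun i hi => mix_mem hi
  rw [← ex_cond hK (fun x => (f x - cond (K x) f x) ^ 2)]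
  refine ex_congr fun x => ?_
  show ex (fun y => (f (mix (K x) x y) - cond (K (mix (K x) x y)) f (mix (K x) x y)) ^ 2) = _
  have h1 : ∀ y, (f (mix (K x) x y) - cond (K (mix (K x) x y)) f (mix (K x) x y)) ^ 2
      = (f (mix (K x) x y) ^ 2 - 2 * cond (K x) f x * f (mix (K x) x y)) + cond (K x) f x ^ 2 := by
    intro y; rw [hg]; ring
  rw [ex_congr h1, ex_add, ex_sub, ex_const, ex_const_mul]
  have h2 : ex (fun y => f (mix (K x) x y)) = cond (K x) f x := rfl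
  have h3 : ex (fun y => f (mix (K x) x y) ^ 2) = cond (K x) (fun z => f z ^ 2) x := rfl
  rw [h2, h3]; ring

/-- The oracle of `query`. -/
def ofSets {n T : ℕ} {R : Type} (Q : R → Finset (Fin n)) (hQ : ∀ r, (Q r).card ≤ T) :
    SignOracle n T R where
  sg := fun x r => ∏ i ∈ Q r, x i
  od := Q
  flip_sg := by
    intro x i r
    by_cases h : i ∈ Q r
    · rw [if_pos h, ← mul_prod_erase (Q r) _ h, ← mul_prod_erase (Q r) (fun j => x j) h]
      have h1 : flipOn {i} x i = - x i := by simp [flipOn]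
      have h2 : ∏ j ∈ (Q r).erase i, flipOn {i} x j = ∏ j ∈ (Q r).erase i, x j := by
        refine prod_congr rfl fun j hj => ?_
        have := ne_of_mem_erase hj
        simp [flipOn, this]
      rw [h1, h2, neg_mul]
    · rw [if_neg h]
      refine prod_congr rfl fun j hj => ?_
      have : j ≠ i := fun hh => h (hh ▸ hj)
      simp [flipOn, this]
  card_od := hQ

lemma query_eq {n T : ℕ} {R : Type} [Fintype R] (Q : R → Finset (Fin n))
    (hQ : ∀ r, (Q r).card ≤ T) (x : Cube n) (φ : EuclideanSpace ℂ R) :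
    query Q x φ = (ofSets Q hQ).app x φ := by
  ext r
  simp [query, SignOracle.app, ofSets]

lemma state_eq {n T : ℕ} {R : Type} [Fintype R] (Q : R → Finset (Fin n))
    (hQ : ∀ r, (Q r).card ≤ T) (U : ℕ → EuclideanSpace ℂ R ≃ₗᵢ[ℂ] EuclideanSpace ℂ R)
    (ψ : EuclideanSpace ℂ R) (x : Cube n) (t : ℕ) :
    state Q U ψ x t = (ofSets Q hQ).st U ψ x t := by
  induction t with
  | zero => rfl
  | succ t ih => simp only [state, SignOracle.st]; rw [ih, query_eq Q hQ]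

lemma payoff_eq {n T : ℕ} {R : Type} [Fintype R] (Q : R → Finset (Fin n))
    (hQ : ∀ r, (Q r).card ≤ T) (U : ℕ → EuclideanSpace ℂ R ≃ₗᵢ[ℂ] EuclideanSpace ℂ R)
    (ψ : EuclideanSpace ℂ R) (c : R → ℝ) (k : ℕ) :
    payoff Q U ψ c k = pay (ofSets Q hQ) U ψ c k := by
  funext x
  simp only [payoff, pay, state_eq Q hQ]

lemma derivNorm_le_of_bounded {n : ℕ} {f : Cube n → ℝ} (h0 : ∀ x, 0 ≤ f x) (h1 : ∀ x, f x ≤ 1)
    (j : Fin n) : derivNorm j f ≤ 1 := by
  have h2 : derivNorm j f ^ 2 ≤ 1 ^ 2 := by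
    rw [derivNorm_sq]
    refine (ex_mono (g := fun _ => 1) fun x => ?_).trans (le_of_eq ?_)
    · have ha := h0 (Function.update x j 1)
      have hb := h1 (Function.update x j 1)
      have hc := h0 (Function.update x j (-1))
      have hd := h1 (Function.update x j (-1))
      have : |discreteDeriv j f x| ≤ 1 := by
        unfold discreteDeriv
        rw [abs_le]; constructor <;> linarith
      rw [← sq_abs]
      exact pow_le_one₀ (abs_nonneg _) this
    · rw [ex_const]; norm_num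
  exact (pow_le_pow_iff_left₀ (derivNorm_nonneg f j) zero_le_one two_ne_zero).1 h2

lemma maxDerivNorm_le_of_bounded {n : ℕ} {f : Cube n → ℝ} (h0 : ∀ x, 0 ≤ f x)
    (h1 : ∀ x, f x ≤ 1) : maxDerivNorm f ≤ 1 := by
  unfold maxDerivNorm
  rcases isEmpty_or_nonempty (Fin n) with h | h
  · rw [Real.iSup_of_isEmpty]; exact zero_le_one
  · exact ciSup_le fun j => derivNorm_le_of_bounded h0 h1 j

lemma variance_eq_zero_of_deriv {n : ℕ} {f : Cube n → ℝ} (h : maxDerivNorm f = 0) :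
    variance f = 0 := by
  refine le_antisymm ((poincare f).trans (le_of_eq ?_)) (variance_nonneg' f)
  refine sum_eq_zero fun j _ => ?_
  rw [← derivNorm_sq]
  have : derivNorm j f = 0 := le_antisymm (by rw [← h]; exact derivNorm_le f j) (derivNorm_nonneg f j)
  rw [this]; norm_num

/-- The classical algorithm. -/
theorem classical {n T k : ℕ} {R : Type} [Fintype R] (Q : R → Finset (Fin n))
    (hQ : ∀ r, (Q r).card ≤ T) (U : ℕ → EuclideanSpace ℂ R ≃ₗᵢ[ℂ] EuclideanSpace ℂ R)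
    (ψ : EuclideanSpace ℂ R) (hψ : ‖ψ‖ = 1) (c : R → ℝ) (hc0 : ∀ r, 0 ≤ c r) (hc1 : ∀ r, c r ≤ 1)
    (hk : 1 ≤ k) (hT : 1 ≤ T) {δ : ℝ} (hδ : 0 < δ) (hδ1 : δ ≤ 1) :
    ∃ (K : ℕ → (Fin n → ℤˣ) → Finset (Fin n)) (g : (Fin n → ℤˣ) → ℝ),
      ClassicalRounds K (T / δ) ∧ (∀ x y, (∀ i ∈ K k x, y i = x i) → g y = g x) ∧
      ex (fun x => (payoff Q U ψ c k x - g x) ^ 2)
        ≤ 96 * (k : ℝ) ^ 3 * T
          * (513 * (k : ℝ) ^ 3 * T * (1 + 2 * Real.logb 2 (T / δ)) ^ 2) ^ (k - 1)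
          * supNorm (payoff Q U ψ c k) * δ := by
  have hT' : (1 : ℝ) ≤ T := by exact_mod_cast hT
  have hTδ : 1 ≤ T / δ := by rw [le_div_iff₀ hδ]; linarith
  obtain ⟨m, hm1, hm2⟩ := exists_double_pow hTδ
  rw [payoff_eq Q hQ]
  set O := ofSets Q hQ with hO
  have hb := heavy_batches O U ψ δ
  refine ⟨heavy O U ψ δ, fun x => cond (heavy O U ψ δ k x) (pay O U ψ c k) x,
    ⟨hb.zero, hb.mono, hb.next, fun t x => heavy_card O U ψ hψ hδ t x⟩, ?_, ?_⟩
  · intro x y h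
    simp only
    rw [hb.stop k x y h]
    exact cond_congr h
  · rw [ex_sub_cond (hb.stop k)]
    have hB : ∀ x, pay O U ψ c k x ≤ supNorm (pay O U ψ c k) := fun x =>
      (le_abs_self _).trans (le_supNorm _ x)
    refine (cond_var_le O U ψ hψ hδ m k hk hT hm1 hc0 hc1 hB).trans ?_
    refine mul_le_mul_of_nonneg_right ?_ hδ.le
    refine mul_le_mul_of_nonneg_right ?_ (supNorm_nonneg _)
    refine mul_le_mul_of_nonneg_left ?_ (by positivity)
    refine pow_le_pow_left₀ (by positivity) ?_ _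
    refine mul_le_mul_of_nonneg_left ?_ (by positivity)
    exact pow_le_pow_left₀ (Nat.cast_nonneg _) hm2 2

/-- The inequality of Aaronson-Ambainis type. -/
theorem inequality {n T k : ℕ} {R : Type} [Fintype R] (Q : R → Finset (Fin n))
    (hQ : ∀ r, (Q r).card ≤ T) (U : ℕ → EuclideanSpace ℂ R ≃ₗᵢ[ℂ] EuclideanSpace ℂ R)
    (ψ : EuclideanSpace ℂ R) (hψ : ‖ψ‖ = 1) (c : R → ℝ) (hc0 : ∀ r, 0 ≤ c r) (hc1 : ∀ r, c r ≤ 1)
    (hk : 1 ≤ k) (hT : 1 ≤ T) :
    variance (payoff Q U ψ c k)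
      ≤ 98 * (k : ℝ) ^ 3 * T
        * (513 * (k : ℝ) ^ 3 * T
          * (1 + 2 * Real.logb 2 (T / maxDerivNorm (payoff Q U ψ c k))) ^ 2) ^ (k - 1)
        * √(supNorm (payoff Q U ψ c k)) * maxDerivNorm (payoff Q U ψ c k) := by
  have hT' : (1 : ℝ) ≤ T := by exact_mod_cast hT
  have hk' : (1 : ℝ) ≤ k := by exact_mod_cast hk
  rw [payoff_eq Q hQ]
  set O := ofSets Q hQ with hO
  set f := pay O U ψ c k with hf
  have hf0 : ∀ x, 0 ≤ f x := pay_nonneg O U ψ hc0 k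
  have hf1 : ∀ x, f x ≤ 1 := pay_le_one O U ψ hψ hc1 k
  set M := maxDerivNorm f with hM
  have hM0 : 0 ≤ M := maxDerivNorm_nonneg f
  rcases hM0.eq_or_lt with h0 | hMpos
  · rw [variance_eq_zero_of_deriv h0.symm, ← h0, mul_zero]
  have hM1 : M ≤ 1 := maxDerivNorm_le_of_bounded hf0 hf1
  -- the norm is positive
  have hB : ∀ x, f x ≤ supNorm f := fun x => (le_abs_self _).trans (le_supNorm _ x)
  have hNpos : 0 < supNorm f := by
    rcases (supNorm_nonneg f).eq_or_lt with h | h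
    · exfalso
      have hfz : ∀ x, f x = 0 := fun x => le_antisymm (h ▸ hB x) (hf0 x)
      have : M ≤ 0 := by
        rw [hM]; unfold maxDerivNorm
        rcases isEmpty_or_nonempty (Fin n) with hn | hn
        · rw [Real.iSup_of_isEmpty]
        · refine ciSup_le fun j => ?_
          have h2 : derivNorm j f ^ 2 = 0 := by
            rw [derivNorm_sq, ex_congr (g := fun _ => 0), ex_const]
            intro x; simp [discreteDeriv, hfz]
          exact le_of_eq (pow_eq_zero_iff two_ne_zero |>.1 h2)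
      linarith
    · exact h
  have hN1 : supNorm f ≤ 1 := by
    unfold supNorm
    exact ciSup_le fun x => by rw [abs_of_nonneg (hf0 x)]; exact hf1 x
  set s := √(supNorm f) with hs
  have hs2 : s ^ 2 = supNorm f := Real.sq_sqrt hNpos.le
  have hspos : 0 < s := Real.sqrt_pos.2 hNpos
  have hs1 : s ≤ 1 := by rw [hs]; exact Real.sqrt_le_one.2 hN1
  have hTM : 1 ≤ T / M := by rw [le_div_iff₀ hMpos]; linarith
  obtain ⟨m, hm1, hm2⟩ := exists_double_pow hTM
  set δ := M / s with hδ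
  have hδpos : 0 < δ := div_pos hMpos hspos
  have hMδ : M ≤ δ := by rw [hδ, le_div_iff₀ hspos]; nlinarith
  have hm3 : (T : ℝ) / δ ≤ 2 ^ (2 ^ m) :=
    (div_le_div_of_nonneg_left (by linarith) hMpos hMδ).trans hm1
  have h1 := cond_var_le O U ψ hψ hδpos m k hk hT hm3 hc0 hc1 hB
  have h2 := batch_var (heavy_batches O U ψ δ) k f hM0 (D := T / δ)
    (by positivity) (fun i => derivNorm_le f i) (fun t _ x => heavy_card O U ψ hψ hδpos t x)
  have h3 : variance f = ex (fun x => cond (heavy O U ψ δ k x) (fun z => f z ^ 2) x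
        - cond (heavy O U ψ δ k x) f x ^ 2)
      + (ex (fun x => cond (heavy O U ψ δ k x) f x ^ 2) - ex f ^ 2) := by
    rw [ex_sub, ex_cond (heavy_stop O U ψ δ k), variance_eq]; ring
  rw [h3]
  set P : ℝ := ((2 ^ m : ℕ) : ℝ) with hP
  have hP1 : 1 ≤ P := by rw [hP]; exact_mod_cast Nat.one_le_two_pow
  set C : ℝ := 513 * (k : ℝ) ^ 3 * T * P ^ 2 with hC
  set L : ℝ := 1 + 2 * Real.logb 2 (T / M) with hL
  have hk3 : (1 : ℝ) ≤ (k : ℝ) ^ 3 := one_le_pow₀ hk'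
  have hC1 : 1 ≤ C := by
    have : 1 ≤ (k : ℝ) ^ 3 * T * P ^ 2 :=
      one_le_mul_of_one_le_of_one_le (one_le_mul_of_one_le_of_one_le hk3 hT') (one_le_pow₀ hP1)
    rw [hC]; nlinarith
  have hCL : C ≤ 513 * (k : ℝ) ^ 3 * T * L ^ 2 := by
    refine mul_le_mul_of_nonneg_left ?_ (by positivity)
    exact pow_le_pow_left₀ (by positivity) hm2 2
  have hCpow : 1 ≤ C ^ (k - 1) := one_le_pow₀ hC1
  have h4 : 96 * (k : ℝ) ^ 3 * T * C ^ (k - 1) * supNorm f * δ
      = 96 * (k : ℝ) ^ 3 * T * C ^ (k - 1) * s * M := by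
    rw [← hs2, hδ]; field_simp
  have h5 : 2 * (k : ℝ) ^ 2 * (T / δ * M ^ 2) = 2 * (k : ℝ) ^ 2 * T * s * M := by
    rw [hδ]; field_simp
  have h6 : 2 * (k : ℝ) ^ 2 * T * s * M ≤ 2 * (k : ℝ) ^ 3 * T * C ^ (k - 1) * s * M := by
    have h7 : (k : ℝ) ^ 2 ≤ (k : ℝ) ^ 3 * C ^ (k - 1) := by
      have : (k : ℝ) ^ 2 ≤ (k : ℝ) ^ 3 := pow_le_pow_right₀ hk' (by norm_num)
      nlinarith
    have h8 : 0 ≤ 2 * T * s * M := by positivity
    nlinarith
  have h9 : C ^ (k - 1) ≤ (513 * (k : ℝ) ^ 3 * T * L ^ 2) ^ (k - 1) :=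
    pow_le_pow_left₀ (by linarith) hCL _
  calc _ ≤ 96 * (k : ℝ) ^ 3 * T * C ^ (k - 1) * s * M
        + 2 * (k : ℝ) ^ 3 * T * C ^ (k - 1) * s * M := by
        refine add_le_add (h1.trans (le_of_eq h4)) (h2.trans ?_)
        rw [h5]; exact h6
    _ = 98 * (k : ℝ) ^ 3 * T * s * M * C ^ (k - 1) := by ring
    _ ≤ 98 * (k : ℝ) ^ 3 * T * s * M * (513 * (k : ℝ) ^ 3 * T * L ^ 2) ^ (k - 1) :=
        mul_le_mul_of_nonneg_left h9 (by positivity)
    _ = _ := by ring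

end Pool.Agent.Helper24.QR
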