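import Mathlib
import Pool.Agent.Helper11.AAQuantities
import Pool.Agent.Helper24.QR.Defs
import Pool.Agent.Helper24.QR.Final

/-!
# Quantum query algorithms with boundedly many rounds of parallel queries

Let `f` be the expected payoff of a quantum algorithm which makes `k` rounds of at most `T` parallel
phase queries to `x`, with arbitrary unitaries between the rounds. Then the variance of `f` is at
most `M(f)`, the largest norm of a derivative, times a power of `T` and of `log (T / M(f))` which
depends only on `k`.

The proof chooses the coordinates which are read with a large average weight, round by round and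
adaptively; outside these coordinates the weights stay small on average in all rounds (a moment
bound for functions whose downward differences are controlled by the weights themselves, from the
hybrid argument), so the conditional variance is small by the Poincare inequality; the variance of
the conditional mean is bounded by an inequality for adaptively chosen batches of coordinates.
-/

set_option linter.dupNamespace false

namespace Pool.Agent.Helper24.QR.BoundedRounds

open Pool.Agent.Helper11.AA Pool.Agent.Helper24.QRounds

theorem result {n T k : ℕ} {R : Type} [Fintype R] (Q : R → Finset (Fin n))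
    (hQ : ∀ r, (Q r).card ≤ T) (U : ℕ → EuclideanSpace ℂ R ≃ₗᵢ[ℂ] EuclideanSpace ℂ R)
    (ψ : EuclideanSpace ℂ R) (hψ : ‖ψ‖ = 1) (c : R → ℝ) (hc0 : ∀ r, 0 ≤ c r) (hc1 : ∀ r, c r ≤ 1)
    (hk : 1 ≤ k) (hT : 1 ≤ T) :
    variance (payoff Q U ψ c k)
      ≤ 98 * (k : ℝ) ^ 3 * T
        * (513 * (k : ℝ) ^ 3 * T
          * (1 + 2 * Real.logb 2 (T / maxDerivNorm (payoff Q U ψ c k))) ^ 2) ^ (k - 1)
        * √(supNorm (payoff Q U ψ c k)) * maxDerivNorm (payoff Q U ψ c k) :=
  Pool.Agent.Helper24.QR.inequality Q hQ U ψ hψ c hc0 hc1 hk hT

end Pool.Agent.Helper24.QR.BoundedRounds
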