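import Mathlib
import Pool.Agent.Helper11.AAQuantities

/-!
Quantum query algorithms which ask their queries in rounds; the possible queries depend on the
round.
-/

namespace Pool.Agent.Helper24.QWindows

/-- One round of parallel phase queries to the input `x`: the basis state `r` is multiplied by the
product of the `x i` with `i` in the set `Q r`. -/
noncomputable def query {n : ℕ} {R : Type} (Q : R → Finset (Fin n))
    (x : Fin n → ℤˣ) (φ : EuclideanSpace ℂ R) : EuclideanSpace ℂ R :=
  WithLp.toLp 2 fun r => (∏ i ∈ Q r, ((x i : ℤ) : ℂ)) * φ r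

/-- The state after the rounds `0, ..., t - 1` on the input `x`: it starts with `ψ`, and the unitary
`U t` follows the queries of round `t`. -/
noncomputable def state {n : ℕ} {R : Type} [Fintype R] (Q : ℕ → R → Finset (Fin n))
    (U : ℕ → EuclideanSpace ℂ R ≃ₗᵢ[ℂ] EuclideanSpace ℂ R) (ψ : EuclideanSpace ℂ R)
    (x : Fin n → ℤˣ) : ℕ → EuclideanSpace ℂ R
  | 0 => ψ
  | t + 1 => U t (query (Q t) x (state Q U ψ x t))

/-- The expected payoff when the state after `N` rounds is measured in the standard basis and the
outcome `r` is paid `c r` (for `c` with values `0` and `1` this is the acceptance probability). -/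
noncomputable def payoff {n : ℕ} {R : Type} [Fintype R] (Q : ℕ → R → Finset (Fin n))
    (U : ℕ → EuclideanSpace ℂ R ≃ₗᵢ[ℂ] EuclideanSpace ℂ R) (ψ : EuclideanSpace ℂ R)
    (c : R → ℝ) (N : ℕ) (x : Fin n → ℤˣ) : ℝ :=
  ∑ r, c r * ‖state Q U ψ x N r‖ ^ 2

end Pool.Agent.Helper24.QWindows
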