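import Mathlib
import Pool.Agent.Helper24.QR.Osss
import Pool.Agent.Helper24.QR.Final

/-!
Adaptively chosen batches inside one class of coordinates, the other coordinates being averaged
or kept.
-/

set_option linter.dupNamespace false

namespace Pool.Agent.Helper24.QW

open Finset Pool.Agent.Helper11.Cube Pool.Agent.Helper11.AA Pool.Agent.Helper24.QR

variable {n : ℕ}

lemma cond_def (K : Finset (Fin n)) (g : Cube n → ℝ) (x : Cube n) :
    QR.cond K g x = ex (fun y => g (mix K x y)) := rfl

/-- averaging a function of a mixed point -/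
lemma ex_ex_mix (K : Finset (Fin n)) (G : Cube n → ℝ) :
    ex (fun y => ex (fun u => G (mix K y u))) = ex G :=
  ex_cond (stop_const K) G

/-- Tower property. -/
lemma cond_cond (A B : Finset (Fin n)) (g : Cube n → ℝ) (x : Cube n) :
    QR.cond A (fun z => QR.cond B g z) x = QR.cond (A ∩ B) g x := by
  show ex (fun y => ex (fun u => g (mix B (mix A x y) u))) = ex (fun y => g (mix (A ∩ B) x y))
  rw [← ex_ex_mix B (fun y => g (mix (A ∩ B) x y))]
  refine ex_congr fun y => ex_congr fun u => ?_
  congr 1
  funext i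
  by_cases hA : i ∈ A <;> by_cases hB : i ∈ B <;> simp [mix, hA, hB]

lemma cond_univ (g : Cube n → ℝ) (x : Cube n) : QR.cond univ g x = g x := by
  show ex (fun y => g (mix univ x y)) = g x
  rw [ex_congr (g := fun _ => g x), ex_const]
  intro y; congr 1; funext i; simp [mix]

lemma cond_empty (g : Cube n → ℝ) (x : Cube n) : QR.cond ∅ g x = ex g := by
  show ex (fun y => g (mix ∅ x y)) = ex g
  refine ex_congr fun y => ?_
  congr 1

/-- A function which is determined by the coordinates in `J x` can be taken out. -/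
lemma ex_mul_cond {J : Cube n → Finset (Fin n)} (hJ : Stop J) (H f : Cube n → ℝ)
    (hH : ∀ x y, (∀ i ∈ J x, y i = x i) → H y = H x) :
    ex (fun x => H x * f x) = ex (fun x => H x * QR.cond (J x) f x) := by
  rw [← ex_cond hJ (fun x => H x * f x)]
  refine ex_congr fun x => ?_
  show ex (fun y => H (mix (J x) x y) * f (mix (J x) x y)) = _
  rw [ex_congr (g := fun y => H x * f (mix (J x) x y)) (fun y => by
    rw [hH x (mix (J x) x y) fun i hi => mix_mem hi]), ex_const_mul]
  rfl

/-- The chain of resampled batches. -/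
lemma batch_chain {K : ℕ → Cube n → Finset (Fin n)} (hK : Batches K) (k : ℕ) (f H : Cube n → ℝ)
    {D M : ℝ} (hM : ∀ i, derivNorm i f ≤ M)
    (hD : ∀ t < k, ∀ x, ((K (t + 1) x \ K t x).card : ℝ) ≤ D) :
    ex (fun x => H x * f x) - ex (fun x => ex (fun y => H x * f (mix (K k x) y x)))
      ≤ k * (Real.sqrt (ex (fun x => H x ^ 2)) * Real.sqrt (2 * (D * M ^ 2))) := by
  have h0 : ex (fun x => ex (fun y => H x * f (mix (K 0 x) y x))) = ex (fun x => H x * f x) := by
    refine ex_congr fun x => ?_
    have : ∀ y, H x * f (mix (K 0 x) y x) = H x * f x := by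
      intro y
      have : mix (K 0 x) y x = x := by funext i; simp [mix, hK.zero]
      rw [this]
    rw [ex_congr this, ex_const]
  have htel : ∀ m ≤ k, ex (fun x => ex (fun y => H x * f (mix (K 0 x) y x)))
      - ex (fun x => ex (fun y => H x * f (mix (K m x) y x)))
      ≤ m * (Real.sqrt (ex (fun x => H x ^ 2)) * Real.sqrt (2 * (D * M ^ 2))) := by
    intro m
    induction m with
    | zero => intro _; simp
    | succ m ih =>
      intro hm
      have h2 := ih (by omega)
      have h3 : ex (fun x => ex (fun y => H x * f (mix (K m x) y x)))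
          - ex (fun x => ex (fun y => H x * f (mix (K (m + 1) x) y x)))
          = ex (fun x => ex (fun y => H x * (f (mix (K m x) y x) - f (mix (K (m + 1) x) y x)))) := by
        rw [← ex_sub]
        refine ex_congr fun x => ?_
        rw [← ex_sub]
        exact ex_congr fun y => by ring
      have h4 := ex2_cs H fun x y => f (mix (K m x) y x) - f (mix (K (m + 1) x) y x)
      have h5 := batch_step hK m f hM (hD m (by omega))
      have h6 : ex (fun x => ex (fun y => H x * (f (mix (K m x) y x) - f (mix (K (m + 1) x) y x))))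
          ≤ Real.sqrt (ex (fun x => H x ^ 2)) * Real.sqrt (2 * (D * M ^ 2)) := by
        refine le_trans (le_abs_self _) ?_
        rw [← Real.sqrt_sq_eq_abs, ← Real.sqrt_mul (ex_nonneg fun x => sq_nonneg _)]
        refine Real.sqrt_le_sqrt (h4.trans ?_)
        exact mul_le_mul_of_nonneg_left h5 (ex_nonneg fun x => sq_nonneg _)
      push_cast
      linarith
  have := htel k le_rfl
  rw [h0] at this
  exact this

/-- After all batches are resampled nothing is left of a function with mean zero over `B`. -/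
lemma resampled_zero {K : Cube n → Finset (Fin n)} (hK : Stop K) (A : Finset (Fin n))
    (H g : Cube n → ℝ) (hH : ∀ x y, (∀ i ∈ K x ∪ A, y i = x i) → H y = H x)
    (hg : ∀ x, QR.cond A g x = 0) :
    ex (fun x => ex (fun y => H x * g (mix (K x) y x))) = 0 := by
  have hJ : Stop (fun x => K x ∪ A) := by
    intro x y h
    simp only
    rw [hK x y fun i hi => h i (mem_union_left _ hi)]
  rw [← ex_cond hJ (fun x => ex (fun y => H x * g (mix (K x) y x)))]
  rw [ex_congr (g := fun _ => (0 : ℝ)), ex_const]
  intro x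
  show ex (fun u => ex (fun y => H (mix (K x ∪ A) x u)
    * g (mix (K (mix (K x ∪ A) x u)) y (mix (K x ∪ A) x u)))) = 0
  have h1 : ∀ u, K (mix (K x ∪ A) x u) = K x := fun u =>
    hK x _ fun i hi => mix_mem (mem_union_left _ hi)
  have h2 : ∀ u y, H (mix (K x ∪ A) x u)
      * g (mix (K (mix (K x ∪ A) x u)) y (mix (K x ∪ A) x u))
      = H x * g (mix (A \ K x) x (mix (K x) y u)) := by
    intro u y
    rw [h1, hH x (mix (K x ∪ A) x u) fun i hi => mix_mem hi]
    congr 2
    funext i
    by_cases hK' : i ∈ K x <;> by_cases hA' : i ∈ A <;> simp [mix, hK', hA']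
  rw [ex_congr fun u => ex_congr fun y => h2 u y, ex_comm]
  rw [ex_ex_mix (K x) (fun v => H x * g (mix (A \ K x) x v)), ex_const_mul]
  have h3 : ex (fun v => g (mix (A \ K x) x v)) = 0 := by
    have h4 := cond_cond (A \ K x) A g x
    have h5 : (A \ K x) ∩ A = A \ K x := inter_eq_left.2 sdiff_subset
    rw [h5] at h4
    show QR.cond (A \ K x) g x = 0
    rw [← h4]
    show ex (fun v => QR.cond A g (mix (A \ K x) x v)) = 0
    rw [ex_congr (g := fun _ => (0 : ℝ)) (fun v => hg _), ex_const]
  rw [h3, mul_zero]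

/-- The discrete derivative of a conditional mean. -/
lemma deriv_cond_mem (A : Finset (Fin n)) (f : Cube n → ℝ) {j : Fin n} (hj : j ∈ A) (x : Cube n) :
    discreteDeriv j (fun z => QR.cond A f z) x = QR.cond A (discreteDeriv j f) x := by
  have h : ∀ u : ℤˣ, QR.cond A f (Function.update x j u)
      = ex (fun y => f (Function.update (mix A x y) j u)) := by
    intro u
    refine ex_congr fun y => ?_
    congr 1
    funext i
    by_cases hi : i = j
    · subst hi; simp [mix, hj]
    · by_cases hA : i ∈ A <;> simp [mix, hA, hi]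
  show (QR.cond A f (Function.update x j 1) - QR.cond A f (Function.update x j (-1))) / 2
    = QR.cond A (discreteDeriv j f) x
  rw [h, h, ← ex_sub]
  show _ = ex (fun y => (f (Function.update (mix A x y) j 1)
    - f (Function.update (mix A x y) j (-1))) / 2)
  have : ∀ y, (f (Function.update (mix A x y) j 1)
      - f (Function.update (mix A x y) j (-1))) / 2
      = (1 / 2 : ℝ) * (f (Function.update (mix A x y) j 1)
      - f (Function.update (mix A x y) j (-1))) := fun y => by ring
  rw [ex_congr this, ex_const_mul]; ring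

lemma deriv_cond_notMem (A : Finset (Fin n)) (f : Cube n → ℝ) {j : Fin n} (hj : j ∉ A)
    (x : Cube n) : discreteDeriv j (fun z => QR.cond A f z) x = 0 := by
  have h : ∀ u : ℤˣ, QR.cond A f (Function.update x j u) = QR.cond A f x := by
    intro u
    refine cond_congr fun i hi => ?_
    have : i ≠ j := fun h => hj (h ▸ hi)
    simp [this]
  show (QR.cond A f (Function.update x j 1) - QR.cond A f (Function.update x j (-1))) / 2 = 0
  rw [h, h]; simp

lemma ex_cond_sq_le (A : Finset (Fin n)) (f : Cube n → ℝ) :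
    ex (fun x => QR.cond A f x ^ 2) ≤ ex (fun x => f x ^ 2) := by
  rw [← ex_cond (stop_const A) (fun x => f x ^ 2)]
  refine ex_mono fun x => ?_
  have := cauchy_schwarz (fun _ : Cube n => (1 : ℝ)) (fun y => f (mix A x y))
  simp only [one_mul, one_pow] at this
  rwa [ex_const, one_mul] at this

lemma ex_sub_cond_sq (A : Finset (Fin n)) (f : Cube n → ℝ) :
    ex (fun x => (f x - QR.cond A f x) ^ 2) = ex (fun x => f x ^ 2) - ex (fun x => QR.cond A f x ^ 2) := by
  have h1 : ex (fun x => f x * QR.cond A f x) = ex (fun x => QR.cond A f x ^ 2) := by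
    have := ex_mul_cond (stop_const A) (fun x => QR.cond A f x) f (fun x y h => cond_congr h)
    rw [ex_congr (g := fun x => QR.cond A f x * f x) (fun x => by ring), this]
    exact ex_congr fun x => by ring
  have h2 : ∀ x, (f x - QR.cond A f x) ^ 2
      = (f x ^ 2 - 2 * (f x * QR.cond A f x)) + QR.cond A f x ^ 2 := fun x => by ring
  rw [ex_congr h2, ex_add, ex_sub, ex_const_mul, h1]
  ring

lemma derivNorm_cond_le (A : Finset (Fin n)) (f : Cube n → ℝ) (j : Fin n) :
    derivNorm j (fun z => QR.cond A f z) ≤ derivNorm j f := by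
  refine (pow_le_pow_iff_left₀ (derivNorm_nonneg _ j) (derivNorm_nonneg f j) two_ne_zero).1 ?_
  rw [derivNorm_sq, derivNorm_sq]
  by_cases hj : j ∈ A
  · rw [ex_congr (fun x => by rw [deriv_cond_mem A f hj x] :
      ∀ x, discreteDeriv j (fun z => QR.cond A f z) x ^ 2 = QR.cond A (discreteDeriv j f) x ^ 2)]
    exact ex_cond_sq_le A _
  · rw [ex_congr (g := fun _ => (0 : ℝ)) (fun x => by rw [deriv_cond_notMem A f hj x]; norm_num),
      ex_const]
    exact ex_nonneg fun x => sq_nonneg _

lemma derivNorm_sub_cond_le (A : Finset (Fin n)) (f : Cube n → ℝ) (j : Fin n) :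
    derivNorm j (fun z => f z - QR.cond A f z) ≤ derivNorm j f := by
  refine (pow_le_pow_iff_left₀ (derivNorm_nonneg _ j) (derivNorm_nonneg f j) two_ne_zero).1 ?_
  rw [derivNorm_sq, derivNorm_sq]
  have hsub : ∀ x, discreteDeriv j (fun z => f z - QR.cond A f z) x
      = discreteDeriv j f x - discreteDeriv j (fun z => QR.cond A f z) x := by
    intro x; unfold discreteDeriv; ring
  by_cases hj : j ∈ A
  · rw [ex_congr (fun x => by rw [hsub, deriv_cond_mem A f hj x] :
      ∀ x, discreteDeriv j (fun z => f z - QR.cond A f z) x ^ 2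
        = (discreteDeriv j f x - QR.cond A (discreteDeriv j f) x) ^ 2)]
    rw [ex_sub_cond_sq]
    have := ex_nonneg (f := fun x => QR.cond A (discreteDeriv j f) x ^ 2) fun x => sq_nonneg _
    linarith
  · refine le_of_eq (ex_congr fun x => ?_)
    rw [hsub, deriv_cond_notMem A f hj x, sub_zero]

/-- **Variance of the conditional mean over one class**, when adaptively chosen batches and all
coordinates outside the class are read. -/
theorem batch_class {K : ℕ → Cube n → Finset (Fin n)} (hK : Batches K) (k : ℕ) (f : Cube n → ℝ)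
    {D M : ℝ} (hD0 : 0 ≤ D) (hM : ∀ i, derivNorm i f ≤ M)
    (hD : ∀ t < k, ∀ x, ((K (t + 1) x \ K t x).card : ℝ) ≤ D) (A : Finset (Fin n)) :
    ex (fun x => QR.cond (K k x ∪ A) f x ^ 2) - ex (fun x => QR.cond A f x ^ 2)
      ≤ 2 * (k : ℝ) ^ 2 * (D * M ^ 2) := by
  set J : Cube n → Finset (Fin n) := fun x => K k x ∪ A with hJdef
  have hJ : Stop J := by
    intro x y h
    simp only [hJdef]
    rw [hK.stop k x y fun i hi => h i (mem_union_left _ hi)]
  set h : Cube n → ℝ := fun x => QR.cond A f x with hh
  set f2 : Cube n → ℝ := fun x => QR.cond (J x) f x with hf2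
  have hhA : ∀ x y, (∀ i ∈ A, y i = x i) → h y = h x := fun x y hxy => cond_congr hxy
  have hhJ : ∀ x y, (∀ i ∈ J x, y i = x i) → h y = h x := fun x y hxy =>
    hhA x y fun i hi => hxy i (mem_union_right _ hi)
  have hf2J : ∀ x y, (∀ i ∈ J x, y i = x i) → f2 y = f2 x := by
    intro x y hxy
    simp only [hf2]
    rw [hJ x y hxy]
    exact cond_congr hxy
  set H : Cube n → ℝ := fun x => f2 x - h x with hHdef
  have hHJ : ∀ x y, (∀ i ∈ J x, y i = x i) → H y = H x := by
    intro x y hxy; simp only [hHdef]; rw [hf2J x y hxy, hhJ x y hxy]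
  set g : Cube n → ℝ := fun x => f x - h x with hg
  -- moments
  have e1 : ex (fun x => h x * f x) = ex (fun x => h x ^ 2) := by
    rw [ex_mul_cond (stop_const A) h f hhA]
    exact ex_congr fun x => by simp only [hh]; ring
  have e2 : ex (fun x => h x * f x) = ex (fun x => h x * f2 x) := ex_mul_cond hJ h f hhJ
  have e3 : ex (fun x => H x * f x) = ex (fun x => H x * f2 x) := ex_mul_cond hJ H f hHJ
  have e4 : ex (fun x => H x * h x) = 0 := by
    have : ∀ x, H x * h x = h x * f2 x - h x ^ 2 := fun x => by simp only [hHdef]; ring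
    rw [ex_congr this, ex_sub, ← e2, e1]; ring
  have e5 : ex (fun x => H x * f2 x) = ex (fun x => H x ^ 2) := by
    have : ∀ x, H x * f2 x = H x ^ 2 + H x * h x := fun x => by simp only [hHdef]; ring
    rw [ex_congr this, ex_add, e4, add_zero]
  have e6 : ex (fun x => H x * g x) = ex (fun x => H x ^ 2) := by
    have : ∀ x, H x * g x = H x * f x - H x * h x := fun x => by simp only [hg]; ring
    rw [ex_congr this, ex_sub, e4, sub_zero, e3, e5]
  have e7 : ex (fun x => f2 x ^ 2) - ex (fun x => h x ^ 2) = ex (fun x => H x ^ 2) := by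
    have : ∀ x, f2 x ^ 2 = (H x ^ 2 + 2 * (H x * h x)) + h x ^ 2 := fun x => by
      simp only [hHdef]; ring
    rw [ex_congr this, ex_add, ex_add, ex_const_mul, e4]; ring
  -- the chain
  have hgM : ∀ i, derivNorm i g ≤ M := fun i => (derivNorm_sub_cond_le A f i).trans (hM i)
  have h1 := batch_chain hK k g H hgM hD
  have hg0 : ∀ x, QR.cond A g x = 0 := by
    intro x
    have h2 := cond_cond A A f x
    rw [inter_self] at h2
    show ex (fun y => f (mix A x y) - h (mix A x y)) = 0
    rw [ex_sub]
    have h3 : ex (fun y => h (mix A x y)) = QR.cond A (fun z => QR.cond A f z) x := rfl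
    have h4 : ex (fun y => f (mix A x y)) = QR.cond A f x := rfl
    rw [h3, h4, h2, sub_self]
  rw [resampled_zero (hK.stop k) A H g hHJ hg0, sub_zero, e6] at h1
  rw [e7]
  set V := ex (fun x => H x ^ 2) with hV
  have hV0 : 0 ≤ V := ex_nonneg fun x => sq_nonneg _
  have hDM : 0 ≤ 2 * (D * M ^ 2) := by positivity
  set s := Real.sqrt V with hs
  have hs2 : s ^ 2 = V := Real.sq_sqrt hV0
  have hs0 : 0 ≤ s := Real.sqrt_nonneg _
  set c := Real.sqrt (2 * (D * M ^ 2)) with hc
  have hc2 : c ^ 2 = 2 * (D * M ^ 2) := Real.sq_sqrt hDM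
  have hc0 : 0 ≤ c := Real.sqrt_nonneg _
  have h6 : s ^ 2 ≤ k * (s * c) := by rw [hs2]; exact h1
  have h7 : s ≤ k * c := by
    by_contra hcon
    push Not at hcon
    have h8 : 0 ≤ (k : ℝ) * c := by positivity
    have h9 : 0 < s := lt_of_le_of_lt h8 hcon
    nlinarith
  calc V = s ^ 2 := hs2.symm
    _ ≤ (k * c) ^ 2 := pow_le_pow_left₀ hs0 h7 2
    _ = 2 * (k : ℝ) ^ 2 * (D * M ^ 2) := by rw [mul_pow, hc2]; ring

end Pool.Agent.Helper24.QW
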