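import Mathlib
import Pool.Agent.Helper24.QR.Quant

/-!
The hybrid argument for oracles which depend on the round.
-/

set_option linter.dupNamespace false

namespace Pool.Agent.Helper24.QW

open Finset Pool.Agent.Helper11.Cube Pool.Agent.Helper11.AA Pool.Agent.Helper24.QR

variable {n T : ℕ} {R : Type} [Fintype R]

/-- The state after `m` rounds. -/
noncomputable def st (O : ℕ → SignOracle n T R)
    (U : ℕ → EuclideanSpace ℂ R ≃ₗᵢ[ℂ] EuclideanSpace ℂ R) (ψ : EuclideanSpace ℂ R) (x : Cube n) :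
    ℕ → EuclideanSpace ℂ R
  | 0 => ψ
  | m + 1 => U m ((O m).app x (st O U ψ x m))

/-- Backward states. -/
noncomputable def bw (O : ℕ → SignOracle n T R)
    (U : ℕ → EuclideanSpace ℂ R ≃ₗᵢ[ℂ] EuclideanSpace ℂ R) (x : Cube n) :
    ℕ → EuclideanSpace ℂ R → ℕ → EuclideanSpace ℂ R
  | 0, e, _ => e
  | m + 1, e, t => if t = m then (O m).app x ((U m).symm e)
      else bw O U x m ((O m).app x ((U m).symm e)) t

variable (O : ℕ → SignOracle n T R) (U : ℕ → EuclideanSpace ℂ R ≃ₗᵢ[ℂ] EuclideanSpace ℂ R)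
  (ψ : EuclideanSpace ℂ R)

lemma norm_st (x : Cube n) (m : ℕ) : ‖st O U ψ x m‖ = ‖ψ‖ := by
  induction m with
  | zero => rfl
  | succ m ih => simp [st, SignOracle.norm_app, ih]

lemma norm_bw (x : Cube n) (m : ℕ) : ∀ (e : EuclideanSpace ℂ R) (t : ℕ), ‖bw O U x m e t‖ = ‖e‖ := by
  induction m with
  | zero => intro e t; rfl
  | succ m ih =>
    intro e t
    unfold bw
    split_ifs
    · simp [SignOracle.norm_app]
    · rw [ih]; simp [SignOracle.norm_app]

/-- hybrid argument for the norm -/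
lemma norm_st_sub (x : Cube n) (i : Fin n) (m : ℕ) :
    ‖st O U ψ (flipOn {i} x) m - st O U ψ x m‖ ≤ 2 * ∑ t ∈ range m, ‖(O t).pr i (st O U ψ x t)‖ := by
  induction m with
  | zero => simp [st]
  | succ m ih =>
    rw [sum_range_succ, mul_add]
    have h1 : st O U ψ (flipOn {i} x) (m + 1) - st O U ψ x (m + 1)
        = U m ((O m).app (flipOn {i} x) (st O U ψ (flipOn {i} x) m - st O U ψ x m)
          - (2 : ℂ) • (O m).app x ((O m).pr i (st O U ψ x m))) := by
      have h2 : (O m).app (flipOn {i} x) (st O U ψ x m)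
          = (O m).app x (st O U ψ x m) - (2 : ℂ) • (O m).app x ((O m).pr i (st O U ψ x m)) := (O m).app_flip x i _
      rw [(O m).app_sub, h2]
      simp only [st]
      rw [← map_sub]
      congr 1
      abel
    rw [h1, LinearIsometryEquiv.norm_map]
    refine (norm_sub_le _ _).trans ?_
    rw [(O m).norm_app, norm_smul, (O m).norm_app]
    have : ‖(2 : ℂ)‖ = 2 := by simp
    rw [this]
    linarith

/-- hybrid argument for inner products -/
lemma inner_st_sub (x : Cube n) (i : Fin n) (m : ℕ) : ∀ e : EuclideanSpace ℂ R,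
    inner ℂ e (st O U ψ (flipOn {i} x) m - st O U ψ x m)
      = -2 * ∑ t ∈ range m, inner ℂ (bw O U x m e t) ((O t).pr i (st O U ψ (flipOn {i} x) t)) := by
  induction m with
  | zero => intro e; simp [st]
  | succ m ih =>
    intro e
    rw [sum_range_succ, mul_add]
    set y := flipOn {i} x with hy
    set e' := (O m).app x ((U m).symm e) with he'
    have h1 : st O U ψ y (m + 1) - st O U ψ x (m + 1)
        = U m ((O m).app x (st O U ψ y m - st O U ψ x m)
          - (2 : ℂ) • (O m).app x ((O m).pr i (st O U ψ y m))) := by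
      have h2 : (O m).app y (st O U ψ y m)
          = (O m).app x (st O U ψ y m) - (2 : ℂ) • (O m).app x ((O m).pr i (st O U ψ y m)) := (O m).app_flip x i _
      rw [(O m).app_sub]
      simp only [st]
      rw [← map_sub, h2]
      congr 1
      abel
    have h3 : ∀ w : EuclideanSpace ℂ R, inner ℂ e (U m w) = inner ℂ ((U m).symm e) w := by
      intro w
      rw [← LinearIsometryEquiv.inner_map_map (U m) ((U m).symm e) w,
        LinearIsometryEquiv.apply_symm_apply]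
    rw [h1, h3, inner_sub_right, inner_smul_right, (O m).inner_app, (O m).inner_app, ← he', ih e']
    have h4 : ∑ t ∈ range m, inner ℂ (bw O U x (m + 1) e t) ((O t).pr i (st O U ψ y t))
        = ∑ t ∈ range m, inner ℂ (bw O U x m e' t) ((O t).pr i (st O U ψ y t)) := by
      refine sum_congr rfl fun t ht => ?_
      have : t ≠ m := (mem_range.1 ht).ne
      rw [bw, if_neg this]
    have h5 : bw O U x (m + 1) e m = e' := by rw [bw, if_pos rfl]
    rw [h4, h5]
    ring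

/-- the query weight of the coordinate `i` in round `t + 1` -/
noncomputable def qw (i : Fin n) (t : ℕ) (x : Cube n) : ℝ := ‖(O t).pr i (st O U ψ x t)‖ ^ 2

/-- the expected payoff after `m` rounds -/
noncomputable def pay (c : R → ℝ) (m : ℕ) (x : Cube n) : ℝ := ∑ r, c r * ‖st O U ψ x m r‖ ^ 2

lemma qw_nonneg (i : Fin n) (t : ℕ) (x : Cube n) : 0 ≤ qw O U ψ i t x := sq_nonneg _

lemma qw_eq_pay (i : Fin n) (t : ℕ) (x : Cube n) :
    qw O U ψ i t x = pay O U ψ (fun r => if i ∈ (O t).od r then 1 else 0) t x := by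
  unfold qw pay
  rw [(O t).norm_pr_sq]
  refine sum_congr rfl fun r _ => ?_
  by_cases h : i ∈ (O t).od r <;> simp [h]

lemma sum_qw (hψ : ‖ψ‖ = 1) (I : Finset (Fin n)) (t : ℕ) (x : Cube n) :
    ∑ i ∈ I, qw O U ψ i t x ≤ T := by
  have := (O t).sum_norm_pr_sq I (st O U ψ x t)
  rw [norm_st, hψ] at this
  simpa [qw] using this

/-- one coordinate -/
lemma diff_le (c : R → ℝ) (hc0 : ∀ r, 0 ≤ c r) (m : ℕ) (x : Cube n) (i : Fin n) :
    max (pay O U ψ c m x - pay O U ψ c m (flipOn {i} x)) 0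
      ≤ 8 * (∑ t ∈ range m, ‖(O t).pr i (bw O U x m (dg c (st O U ψ x m)) t)‖)
        * ∑ s ∈ range m, ‖(O s).pr i (st O U ψ x s)‖ := by
  set y := flipOn {i} x with hy
  set φ := st O U ψ x m with hφ
  set φ' := st O U ψ y m with hφ'
  set e := dg c φ with he
  have hS0 : 0 ≤ ∑ s ∈ range m, ‖(O s).pr i (st O U ψ x s)‖ := sum_nonneg fun _ _ => norm_nonneg _
  have hB0 : 0 ≤ ∑ t ∈ range m, ‖(O t).pr i (bw O U x m e t)‖ := sum_nonneg fun _ _ => norm_nonneg _
  refine max_le ?_ (by positivity)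
  -- `g(x) - g(y) ≤ 2 |⟨e, φ' - φ⟩|`
  have h1 : pay O U ψ c m x - pay O U ψ c m y ≤ 2 * ‖inner ℂ e (φ' - φ)‖ := by
    have h2 : pay O U ψ c m y - pay O U ψ c m x
        = 2 * (inner ℂ e (φ' - φ)).re + ∑ r, c r * ‖φ' r - φ r‖ ^ 2 := by
      unfold pay
      rw [PiLp.inner_apply, Complex.re_sum, mul_sum, ← sum_add_distrib, ← sum_sub_distrib]
      refine sum_congr rfl fun r _ => ?_
      have : (inner ℂ (e r) ((φ' - φ) r)).re
          = c r * ((starRingEnd ℂ (φ r)) * (φ' r - φ r)).re := by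
        simp only [he, dg, RCLike.inner_apply, map_mul, Complex.conj_ofReal, PiLp.sub_apply]
        have : (φ' r - φ r) * ((c r : ℂ) * (starRingEnd ℂ) (φ r))
            = (c r : ℂ) * ((starRingEnd ℂ (φ r)) * (φ' r - φ r)) := by ring
        rw [this, Complex.re_ofReal_mul]
      rw [this]
      have h3 : ‖φ' r‖ ^ 2 = ‖φ r‖ ^ 2 + 2 * ((starRingEnd ℂ (φ r)) * (φ' r - φ r)).re
          + ‖φ' r - φ r‖ ^ 2 := by
        rw [← Complex.normSq_eq_norm_sq, ← Complex.normSq_eq_norm_sq, ← Complex.normSq_eq_norm_sq]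
        simp only [Complex.normSq_apply, Complex.mul_re, Complex.conj_re, Complex.conj_im,
          Complex.sub_re, Complex.sub_im]
        ring
      rw [← hφ, ← hφ', h3]
      ring
    have h4 : 0 ≤ ∑ r, c r * ‖φ' r - φ r‖ ^ 2 :=
      sum_nonneg fun r _ => mul_nonneg (hc0 r) (sq_nonneg _)
    have h5 : -‖inner ℂ e (φ' - φ)‖ ≤ (inner ℂ e (φ' - φ)).re :=
      neg_le_of_abs_le (Complex.abs_re_le_norm _)
    linarith
  refine h1.trans ?_
  rw [inner_st_sub O U ψ x i m e, norm_mul]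
  have h6 : ‖(-2 : ℂ)‖ = 2 := by simp
  rw [h6]
  have h7 : ‖∑ t ∈ range m, inner ℂ (bw O U x m e t) ((O t).pr i (st O U ψ y t))‖
      ≤ ∑ t ∈ range m, ‖(O t).pr i (bw O U x m e t)‖ * (2 * ∑ s ∈ range m, ‖(O s).pr i (st O U ψ x s)‖) := by
    refine (norm_sum_le _ _).trans (sum_le_sum fun t ht => ?_)
    rw [(O t).inner_pr]
    refine (norm_inner_le_norm _ _).trans (mul_le_mul_of_nonneg_left ?_ (norm_nonneg _))
    have h8 : (O t).pr i (st O U ψ y t) = (O t).pr i (st O U ψ x t) + (O t).pr i (st O U ψ y t - st O U ψ x t) := by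
      rw [(O t).pr_sub]; abel
    rw [h8]
    refine (norm_add_le _ _).trans ?_
    have h9 := ((O t).norm_pr_le i (st O U ψ y t - st O U ψ x t)).trans (norm_st_sub O U ψ x i t)
    have h10 : ∑ s ∈ range (t + 1), ‖(O s).pr i (st O U ψ x s)‖ ≤ ∑ s ∈ range m, ‖(O s).pr i (st O U ψ x s)‖ :=
      sum_le_sum_of_subset_of_nonneg (range_subset_range.2 (mem_range.1 ht)) fun _ _ _ => norm_nonneg _
    rw [sum_range_succ] at h10
    have h11 : 0 ≤ ‖(O t).pr i (st O U ψ x t)‖ := norm_nonneg _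
    linarith
  rw [← sum_mul] at h7
  calc 2 * (2 * ‖∑ t ∈ range m, inner ℂ (bw O U x m e t) ((O t).pr i (st O U ψ y t))‖)
      ≤ 2 * (2 * ((∑ t ∈ range m, ‖(O t).pr i (bw O U x m e t)‖)
        * (2 * ∑ s ∈ range m, ‖(O s).pr i (st O U ψ x s)‖))) := by linarith
    _ = _ := by ring

/-- **Sum of the squares of the downward differences**, for coordinates which are queried in the
rounds of `W` only. -/
theorem sum_diff_le (c : R → ℝ) (hc0 : ∀ r, 0 ≤ c r) (hc1 : ∀ r, c r ≤ 1) (m : ℕ)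
    (x : Cube n) (I : Finset (Fin n)) (W : Finset ℕ)
    (hW : ∀ i ∈ I, ∀ t < m, t ∉ W → ∀ r, i ∉ (O t).od r) (A : ℝ) (hA0 : 0 ≤ A)
    (hA : ∀ i ∈ I, ∑ s ∈ range m, qw O U ψ i s x ≤ A) :
    ∑ i ∈ I, (max (pay O U ψ c m x - pay O U ψ c m (flipOn {i} x)) 0) ^ 2
      ≤ 64 * (W.card : ℝ) ^ 3 * T * A * pay O U ψ c m x := by
  set e := dg c (st O U ψ x m) with he
  have he2 : ‖e‖ ^ 2 ≤ pay O U ψ c m x := by
    rw [EuclideanSpace.norm_sq_eq]
    refine sum_le_sum fun r _ => ?_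
    simp only [he, dg, norm_mul, mul_pow]
    have : ‖(c r : ℂ)‖ ^ 2 ≤ c r := by
      rw [Complex.norm_real, Real.norm_eq_abs, sq_abs]
      nlinarith [hc0 r, hc1 r]
    exact mul_le_mul_of_nonneg_right this (sq_nonneg _)
  have hpr0 : ∀ i ∈ I, ∀ t < m, t ∉ W → ∀ φ : EuclideanSpace ℂ R, ‖(O t).pr i φ‖ = 0 := by
    intro i hi t ht htW φ
    have h : ‖(O t).pr i φ‖ ^ 2 = 0 := by
      rw [SignOracle.norm_pr_sq]
      exact sum_eq_zero fun r _ => if_neg (hW i hi t ht htW r)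
    exact pow_eq_zero_iff two_ne_zero |>.1 h
  set V := (range m).filter (fun t => t ∈ W) with hV
  have hVW : (V.card : ℝ) ≤ W.card := by
    exact_mod_cast card_le_card fun t ht => (mem_filter.1 ht).2
  have hred : ∀ i ∈ I, ∀ F : ℕ → EuclideanSpace ℂ R,
      (∑ t ∈ range m, ‖(O t).pr i (F t)‖) ^ 2
        ≤ (W.card : ℝ) * ∑ t ∈ range m, ‖(O t).pr i (F t)‖ ^ 2 := by
    intro i hi F
    have h1 : ∑ t ∈ range m, ‖(O t).pr i (F t)‖ = ∑ t ∈ V, ‖(O t).pr i (F t)‖ := by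
      rw [hV, sum_filter]
      refine sum_congr rfl fun t ht => ?_
      split_ifs with h
      · rfl
      · exact hpr0 i hi t (mem_range.1 ht) h _
    have h2 : ∑ t ∈ V, ‖(O t).pr i (F t)‖ ^ 2 ≤ ∑ t ∈ range m, ‖(O t).pr i (F t)‖ ^ 2 :=
      sum_le_sum_of_subset_of_nonneg (filter_subset _ _) fun _ _ _ => sq_nonneg _
    rw [h1]
    refine (sq_sum_le_card_mul_sum_sq (s := V) (f := fun t => ‖(O t).pr i (F t)‖)).trans ?_
    refine mul_le_mul hVW h2 (sum_nonneg fun _ _ => sq_nonneg _) (Nat.cast_nonneg _)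
  have h1 : ∀ i ∈ I, (max (pay O U ψ c m x - pay O U ψ c m (flipOn {i} x)) 0) ^ 2
      ≤ 64 * (W.card : ℝ) ^ 2 * A * ∑ t ∈ range m, ‖(O t).pr i (bw O U x m e t)‖ ^ 2 := by
    intro i hi
    have h2 := diff_le O U ψ c hc0 m x i
    have h3 := hred i hi (fun t => bw O U x m e t)
    have h4 : (∑ s ∈ range m, ‖(O s).pr i (st O U ψ x s)‖) ^ 2 ≤ (W.card : ℝ) * A :=
      (hred i hi (fun t => st O U ψ x t)).trans
        (mul_le_mul_of_nonneg_left (hA i hi) (Nat.cast_nonneg _))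
    have h5 : 0 ≤ ∑ t ∈ range m, ‖(O t).pr i (bw O U x m e t)‖ ^ 2 := sum_nonneg fun _ _ => sq_nonneg _
    exact (pow_le_pow_left₀ (le_max_right _ _) h2 2).trans (arith1 (Nat.cast_nonneg _) h5 h3 h4)
  have hVsum : ∀ i ∈ I, ∑ t ∈ range m, ‖(O t).pr i (bw O U x m e t)‖ ^ 2
      = ∑ t ∈ V, ‖(O t).pr i (bw O U x m e t)‖ ^ 2 := by
    intro i hi
    rw [hV, sum_filter]
    refine sum_congr rfl fun t ht => ?_
    split_ifs with h
    · rfl
    · rw [hpr0 i hi t (mem_range.1 ht) h _]; norm_num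
  refine (sum_le_sum h1).trans ?_
  rw [← mul_sum, sum_congr rfl hVsum, sum_comm]
  have h6 : ∑ t ∈ V, ∑ i ∈ I, ‖(O t).pr i (bw O U x m e t)‖ ^ 2 ≤ (W.card : ℝ) * (T * ‖e‖ ^ 2) := by
    have : ∀ t ∈ V, ∑ i ∈ I, ‖(O t).pr i (bw O U x m e t)‖ ^ 2 ≤ T * ‖e‖ ^ 2 := by
      intro t _
      have := (O t).sum_norm_pr_sq I (bw O U x m e t)
      rwa [norm_bw] at this
    refine (sum_le_sum this).trans ?_
    rw [sum_const, nsmul_eq_mul]
    exact mul_le_mul_of_nonneg_right hVW (by positivity)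
  exact arith2 (Nat.cast_nonneg _) hA0 (Nat.cast_nonneg T) he2 h6

end Pool.Agent.Helper24.QW
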