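import Mathlib
import Pool.Agent.Helper24.QR.WQuant
import Pool.Agent.Helper24.QR.Final

/-!
Averaging the payoff over the values of some coordinates: these values become a register of the
state.
-/

set_option linter.dupNamespace false

namespace Pool.Agent.Helper24.QW

open Finset Pool.Agent.Helper11.Cube Pool.Agent.Helper11.AA Pool.Agent.Helper24.QR

variable {n T : ℕ} {R : Type}

/-- Basis states with a register which holds an input. -/
abbrev RR (n : ℕ) (R : Type) : Type := Σ _ : Cube n, R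

noncomputable def curryR [Fintype R] : EuclideanSpace ℂ (RR n R) ≃ₗᵢ[ℂ]
    PiLp 2 (fun _ : Cube n => EuclideanSpace ℂ R) :=
  LinearIsometryEquiv.piLpCurry ℂ 2 (fun (_ : Cube n) (_ : R) => ℂ)

/-- A unitary which does not act on the register. -/
noncomputable def UU [Fintype R] (U : EuclideanSpace ℂ R ≃ₗᵢ[ℂ] EuclideanSpace ℂ R) :
    EuclideanSpace ℂ (RR n R) ≃ₗᵢ[ℂ] EuclideanSpace ℂ (RR n R) :=
  curryR.trans ((LinearIsometryEquiv.piLpCongrRight 2 (fun _ => U)).trans curryR.symm)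

lemma UU_apply [Fintype R] (U : EuclideanSpace ℂ R ≃ₗᵢ[ℂ] EuclideanSpace ℂ R)
    (φ : EuclideanSpace ℂ (RR n R)) (y : Cube n) (r : R) :
    UU U φ ⟨y, r⟩ = U (WithLp.toLp 2 fun r => φ ⟨y, r⟩) r := rfl

lemma mix_flip (F : Finset (Fin n)) (x y : Cube n) (i : Fin n) :
    mix (univ \ F) (flipOn {i} x) y
      = if i ∈ F then mix (univ \ F) x y else flipOn {i} (mix (univ \ F) x y) := by
  by_cases h : i ∈ F
  · rw [if_pos h]
    funext j
    by_cases hj : j ∈ F
    · simp [mix, hj]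
    · have : j ≠ i := fun hh => hj (hh ▸ h)
      simp [mix, hj, flipOn, this]
  · rw [if_neg h]
    funext j
    by_cases hj : j ∈ F
    · have : j ≠ i := fun hh => h (hh ▸ hj)
      simp [mix, hj, flipOn, this]
    · simp [mix, hj, flipOn]

/-- The oracle with the values of the coordinates in `F` taken from the register. -/
def regOracle (F : Finset (Fin n)) (Q : R → Finset (Fin n)) (hQ : ∀ r, (Q r).card ≤ T) :
    SignOracle n T (RR n R) where
  sg := fun x s => (ofSets Q hQ).sg (mix (univ \ F) x s.1) s.2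
  od := fun s => Q s.2 \ F
  flip_sg := by
    rintro x i ⟨y, r⟩
    simp only
    rw [mix_flip]
    by_cases hF : i ∈ F
    · rw [if_pos hF, if_neg (by simp [hF])]
    · rw [if_neg hF, (ofSets Q hQ).flip_sg]
      by_cases hi : i ∈ Q r
      · rw [if_pos (show i ∈ (ofSets Q hQ).od r from hi), if_pos (mem_sdiff.2 ⟨hi, hF⟩)]
      · rw [if_neg (show i ∉ (ofSets Q hQ).od r from hi), if_neg (by simp [hi])]
  card_od := fun s => (card_le_card sdiff_subset).trans (hQ s.2)

/-- The amplitude of one value of the register. -/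
noncomputable def amp (n : ℕ) : ℝ := (√((2 : ℝ) ^ n))⁻¹

lemma amp_sq (n : ℕ) : amp n ^ 2 = ((2 : ℝ) ^ n)⁻¹ := by
  unfold amp
  rw [inv_pow, Real.sq_sqrt (by positivity)]

lemma amp_pos (n : ℕ) : 0 < amp n := by unfold amp; positivity

/-- The state with a uniform register. -/
noncomputable def regState (n : ℕ) (ψ : EuclideanSpace ℂ R) : EuclideanSpace ℂ (RR n R) :=
  WithLp.toLp 2 fun s => (amp n : ℂ) * ψ s.2

lemma norm_regState [Fintype R] (ψ : EuclideanSpace ℂ R) (hψ : ‖ψ‖ = 1) :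
    ‖regState n ψ‖ = 1 := by
  have h : ‖regState n ψ‖ ^ 2 = 1 := by
    rw [EuclideanSpace.norm_sq_eq, Fintype.sum_sigma]
    have h1 : ∀ y : Cube n, ∑ r : R, ‖(regState n ψ) ⟨y, r⟩‖ ^ 2 = ((2 : ℝ) ^ n)⁻¹ := by
      intro y
      have h2 : ∀ r : R, ‖(regState n ψ) ⟨y, r⟩‖ ^ 2 = ((2 : ℝ) ^ n)⁻¹ * ‖ψ r‖ ^ 2 := by
        intro r
        show ‖(amp n : ℂ) * ψ r‖ ^ 2 = _
        rw [norm_mul, mul_pow, Complex.norm_real, Real.norm_eq_abs, sq_abs, amp_sq]
      rw [sum_congr rfl fun r _ => h2 r, ← mul_sum, ← EuclideanSpace.norm_sq_eq, hψ]; ring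
    rw [sum_congr rfl fun y _ => h1 y, sum_const, card_univ, nsmul_eq_mul]
    have : (Fintype.card (Cube n) : ℝ) = 2 ^ n := by simp
    rw [this]
    exact mul_inv_cancel₀ (by positivity)
  nlinarith [norm_nonneg (regState n ψ)]

lemma st_reg [Fintype R] (F : Finset (Fin n)) (Q : ℕ → R → Finset (Fin n))
    (hQ : ∀ t r, (Q t r).card ≤ T) (U : ℕ → EuclideanSpace ℂ R ≃ₗᵢ[ℂ] EuclideanSpace ℂ R)
    (ψ : EuclideanSpace ℂ R) (x y : Cube n) (t : ℕ) (r : R) :
    st (fun t => regOracle F (Q t) (hQ t)) (fun t => UU (U t)) (regState n ψ) x t ⟨y, r⟩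
      = (amp n : ℂ) * st (fun t => ofSets (Q t) (hQ t)) U ψ (mix (univ \ F) x y) t r := by
  induction t generalizing r with
  | zero => rfl
  | succ t ih =>
    simp only [st]
    rw [UU_apply]
    have h1 : (WithLp.toLp 2 fun r => ((regOracle F (Q t) (hQ t)).app x
        (st (fun t => regOracle F (Q t) (hQ t)) (fun t => UU (U t)) (regState n ψ) x t)) ⟨y, r⟩
        : EuclideanSpace ℂ R)
        = (amp n : ℂ) • (ofSets (Q t) (hQ t)).app (mix (univ \ F) x y)
          (st (fun t => ofSets (Q t) (hQ t)) U ψ (mix (univ \ F) x y) t) := by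
      ext r
      show (((regOracle F (Q t) (hQ t)).sg x ⟨y, r⟩ : ℤ) : ℂ)
        * st (fun t => regOracle F (Q t) (hQ t)) (fun t => UU (U t)) (regState n ψ) x t ⟨y, r⟩
        = (amp n : ℂ) * ((((ofSets (Q t) (hQ t)).sg (mix (univ \ F) x y) r : ℤ) : ℂ)
          * st (fun t => ofSets (Q t) (hQ t)) U ψ (mix (univ \ F) x y) t r)
      rw [ih]
      show (((ofSets (Q t) (hQ t)).sg (mix (univ \ F) x y) r : ℤ) : ℂ) * _ = _
      ring
    rw [h1, map_smul]
    rfl

/-- The payoff averaged over the coordinates in `F`. -/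
lemma pay_reg [Fintype R] (F : Finset (Fin n)) (Q : ℕ → R → Finset (Fin n))
    (hQ : ∀ t r, (Q t r).card ≤ T) (U : ℕ → EuclideanSpace ℂ R ≃ₗᵢ[ℂ] EuclideanSpace ℂ R)
    (ψ : EuclideanSpace ℂ R) (c : R → ℝ) (N : ℕ) (x : Cube n) :
    pay (fun t => regOracle F (Q t) (hQ t)) (fun t => UU (U t)) (regState n ψ) (fun s => c s.2) N x
      = QR.cond (univ \ F) (pay (fun t => ofSets (Q t) (hQ t)) U ψ c N) x := by
  unfold pay
  rw [Fintype.sum_sigma]
  show _ = (∑ y, ∑ r, c r * ‖st (fun t => ofSets (Q t) (hQ t)) U ψ (mix (univ \ F) x y) N r‖ ^ 2)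
    / (2 : ℝ) ^ n
  rw [sum_div]
  refine sum_congr rfl fun y _ => ?_
  rw [sum_div]
  refine sum_congr rfl fun r _ => ?_
  show c r * ‖st (fun t => regOracle F (Q t) (hQ t)) (fun t => UU (U t)) (regState n ψ) x N ⟨y, r⟩‖ ^ 2
    = _
  rw [st_reg F Q hQ U ψ x y N r, norm_mul, mul_pow, Complex.norm_real, Real.norm_eq_abs, sq_abs,
    amp_sq]
  ring

end Pool.Agent.Helper24.QW
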