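import Mathlib
import Pool.Agent.Helper24.QR.WQuant
import Pool.Agent.Helper24.QR.Final

/-!
Heavy coordinates and light weights for oracles which depend on the round, when no coordinate is
queried before the round `a`.
-/

set_option linter.dupNamespace false

namespace Pool.Agent.Helper24.QW

open Finset Pool.Agent.Helper11.Cube Pool.Agent.Helper11.AA Pool.Agent.Helper24.QR

variable {n T : ℕ} {R : Type} [Fintype R]
variable (O : ℕ → SignOracle n T R) (U : ℕ → EuclideanSpace ℂ R ≃ₗᵢ[ℂ] EuclideanSpace ℂ R)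
variable (ψ : EuclideanSpace ℂ R)

open Classical in
/-- The heavy coordinates after `t` rounds. -/
noncomputable def heavy (δ : ℝ) : ℕ → Cube n → Finset (Fin n)
  | 0, _ => ∅
  | t + 1, x => heavy δ t x ∪ univ.filter (fun j => δ ≤ cond (heavy δ t x) (qw O U ψ j t) x)

lemma heavy_stop (δ : ℝ) (t : ℕ) : Stop (heavy O U ψ δ t) := by
  induction t with
  | zero => intro x y _; simp [heavy]
  | succ t ih =>
    intro x y h
    have h1 : ∀ i ∈ heavy O U ψ δ t x, y i = x i := fun i hi => h i (by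
      simp only [heavy]; exact mem_union_left _ hi)
    simp only [heavy]
    rw [ih x y h1]
    congr 1
    refine filter_congr fun j _ => ?_
    rw [cond_congr h1]

lemma heavy_mono (δ : ℝ) (t : ℕ) (x : Cube n) : heavy O U ψ δ t x ⊆ heavy O U ψ δ (t + 1) x := by
  simp only [heavy]; exact subset_union_left

lemma heavy_mono' (δ : ℝ) {s t : ℕ} (h : s ≤ t) (x : Cube n) :
    heavy O U ψ δ s x ⊆ heavy O U ψ δ t x := by
  induction h with
  | refl => exact Subset.rfl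
  | step _ ih => exact ih.trans (heavy_mono O U ψ δ _ x)

lemma heavy_next (δ : ℝ) (t : ℕ) (x y : Cube n) (h : ∀ i ∈ heavy O U ψ δ t x, y i = x i) :
    heavy O U ψ δ (t + 1) y = heavy O U ψ δ (t + 1) x := by
  simp only [heavy]
  rw [heavy_stop O U ψ δ t x y h]
  congr 1
  refine filter_congr fun j _ => ?_
  rw [cond_congr h]

lemma light_lt (δ : ℝ) (t : ℕ) (x : Cube n) {j : Fin n} (hj : j ∉ heavy O U ψ δ (t + 1) x) :
    cond (heavy O U ψ δ t x) (qw O U ψ j t) x < δ := by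
  simp only [heavy, mem_union, mem_filter, mem_univ, true_and, not_or, not_le] at hj
  exact hj.2

lemma heavy_card (hψ : ‖ψ‖ = 1) {δ : ℝ} (hδ : 0 < δ) (t : ℕ) (x : Cube n) :
    ((heavy O U ψ δ (t + 1) x \ heavy O U ψ δ t x).card : ℝ) ≤ T / δ := by
  classical
  rw [le_div_iff₀ hδ]
  set F := univ.filter (fun j => δ ≤ cond (heavy O U ψ δ t x) (qw O U ψ j t) x) with hF
  have hsub : heavy O U ψ δ (t + 1) x \ heavy O U ψ δ t x ⊆ F := by
    intro j hj
    simp only [heavy, mem_sdiff, mem_union, mem_filter, mem_univ, true_and] at hj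
    rw [hF, mem_filter]
    refine ⟨mem_univ _, ?_⟩
    rcases hj.1 with h | h
    · exact absurd h hj.2
    · exact h
  calc ((heavy O U ψ δ (t + 1) x \ heavy O U ψ δ t x).card : ℝ) * δ
      ≤ (F.card : ℝ) * δ := mul_le_mul_of_nonneg_right (by exact_mod_cast card_le_card hsub) hδ.le
    _ = ∑ _j ∈ F, δ := by rw [sum_const, nsmul_eq_mul]
    _ ≤ ∑ j ∈ F, cond (heavy O U ψ δ t x) (qw O U ψ j t) x :=
        sum_le_sum fun j hj => (mem_filter.1 hj).2
    _ = cond (heavy O U ψ δ t x) (fun z => ∑ j ∈ F, qw O U ψ j t z) x := (cond_sum _ _ _).symm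
    _ ≤ cond (heavy O U ψ δ t x) (fun _ => (T : ℝ)) x := cond_mono (fun z => sum_qw O U ψ hψ F t z) x
    _ = T := ex_const _

/-- The `ℓ^p` norm of the light weights of round `t`. -/
noncomputable def light (δ : ℝ) (p t : ℕ) (x : Cube n) : ℝ :=
  (∑ j ∈ univ \ heavy O U ψ δ (t + 1) x, qw O U ψ j t x ^ p) ^ ((p : ℝ)⁻¹)

lemma light_nonneg (δ : ℝ) (p t : ℕ) (x : Cube n) : 0 ≤ light O U ψ δ p t x :=
  Real.rpow_nonneg (sum_nonneg fun _ _ => pow_nonneg (qw_nonneg O U ψ _ _ _) _) _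

lemma light_pow (δ : ℝ) {p : ℕ} (hp : p ≠ 0) (t : ℕ) (x : Cube n) :
    light O U ψ δ p t x ^ p = ∑ j ∈ univ \ heavy O U ψ δ (t + 1) x, qw O U ψ j t x ^ p :=
  Real.rpow_inv_natCast_pow (sum_nonneg fun _ _ => pow_nonneg (qw_nonneg O U ψ _ _ _) _) hp

lemma qw_le_light (δ : ℝ) {p : ℕ} (hp : p ≠ 0) (t : ℕ) (x : Cube n) {j : Fin n}
    (hj : j ∉ heavy O U ψ δ (t + 1) x) : qw O U ψ j t x ≤ light O U ψ δ p t x := by
  refine (pow_le_pow_iff_left₀ (qw_nonneg O U ψ _ _ _) (light_nonneg O U ψ δ p t x) hp).1 ?_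
  rw [light_pow O U ψ δ hp]
  exact single_le_sum (f := fun j => qw O U ψ j t x ^ p)
    (fun i _ => pow_nonneg (qw_nonneg O U ψ _ _ _) _) (by simpa using hj)

/-- `δ` plus the sum of the light norms of the first `t` rounds. -/
noncomputable def SS (δ : ℝ) (p t : ℕ) (x : Cube n) : ℝ := δ + ∑ s ∈ range t, light O U ψ δ p s x

lemma le_SS (δ : ℝ) (p t : ℕ) (x : Cube n) : δ ≤ SS O U ψ δ p t x := by
  have : 0 ≤ ∑ s ∈ range t, light O U ψ δ p s x := sum_nonneg fun _ _ => light_nonneg _ _ _ _ _ _ _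
  unfold SS; linarith

lemma SS_succ (δ : ℝ) (p t : ℕ) (x : Cube n) :
    SS O U ψ δ p (t + 1) x = SS O U ψ δ p t x + light O U ψ δ p t x := by
  unfold SS; rw [sum_range_succ]; ring

/-- Outside the heavy set all weights are bounded by `SS`. -/
lemma sum_qw_le (δ : ℝ) (hδ : 0 ≤ δ) {p : ℕ} (hp : p ≠ 0) (t : ℕ) (x : Cube n) {i : Fin n}
    (hi : i ∉ heavy O U ψ δ t x) : ∑ s ∈ range t, qw O U ψ i s x ≤ SS O U ψ δ p t x := by
  have h1 : ∑ s ∈ range t, qw O U ψ i s x ≤ ∑ s ∈ range t, light O U ψ δ p s x := by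
    refine sum_le_sum fun s hs => qw_le_light O U ψ δ hp s x fun hcon => hi ?_
    exact heavy_mono' O U ψ δ (Nat.succ_le_of_lt (mem_range.1 hs)) x hcon
  unfold SS; linarith

lemma qw_eq_zero {t : ℕ} {j : Fin n} (h : ∀ r, j ∉ (O t).od r) (x : Cube n) :
    qw O U ψ j t x = 0 := by
  unfold qw
  rw [SignOracle.norm_pr_sq]
  exact sum_eq_zero fun r _ => if_neg (h r)

lemma light_eq_zero (δ : ℝ) {p t : ℕ} (hp : p ≠ 0) (h : ∀ r, (O t).od r = ∅) (x : Cube n) :
    light O U ψ δ p t x = 0 := by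
  unfold light
  rw [sum_eq_zero, Real.zero_rpow (by simpa using hp)]
  intro j _
  rw [qw_eq_zero O U ψ (fun r => by rw [h r]; simp) x, zero_pow hp]

lemma flip_insert (i : Fin n) (A : Finset (Fin n)) (hi : i ∉ A) (x : Cube n) :
    flipOn (insert i A) x = flipOn {i} (flipOn A x) := by
  funext j
  by_cases h1 : j = i
  · subst h1; simp [flipOn, hi]
  · by_cases h2 : j ∈ A <;> simp [flipOn, h1, h2]

lemma eq_flipOn (x y : Cube n) : y = flipOn (univ.filter (fun i => y i ≠ x i)) x := by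
  funext i
  by_cases h : y i = x i
  · simp [flipOn, h]
  · simp only [flipOn, mem_filter, mem_univ, true_and, if_pos h, ne_eq]
    rcases Int.units_eq_one_or (x i) with hx | hx <;> rcases Int.units_eq_one_or (y i) with hy | hy <;>
      simp_all

lemma sg_const (P : SignOracle n T R) {r : R} (h : P.od r = ∅) (x y : Cube n) :
    P.sg y r = P.sg x r := by
  rw [eq_flipOn x y]
  generalize univ.filter (fun i => y i ≠ x i) = A
  induction A using Finset.induction_on with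
  | empty => rw [flip_empty]
  | insert i A hi ih => rw [flip_insert i A hi, P.flip_sg, if_neg (by rw [h]; simp), ih]

lemma st_const {a : ℕ} (hact : ∀ t < a, ∀ r, (O t).od r = ∅) (x y : Cube n) {t : ℕ} (ht : t ≤ a) :
    st O U ψ y t = st O U ψ x t := by
  induction t with
  | zero => rfl
  | succ t ih =>
    simp only [st]
    rw [ih (by omega)]
    congr 1
    ext r
    simp only [SignOracle.app]
    rw [sg_const (O t) (hact t (by omega) r) x y]

/-- One-sided differences of a payoff after `t` rounds outside the heavy set. -/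
lemma diff_heavy (δ : ℝ) (hδ : 0 ≤ δ) {p : ℕ} (hp : p ≠ 0) (c : R → ℝ) (hc0 : ∀ r, 0 ≤ c r)
    (hc1 : ∀ r, c r ≤ 1) {a w t : ℕ} (ht : t ≤ a + w) (hact : ∀ t < a, ∀ r, (O t).od r = ∅)
    (x : Cube n) :
    ∑ i ∈ univ \ heavy O U ψ δ t x,
      (max (pay O U ψ c t x - pay O U ψ c t (flipOn {i} x)) 0) ^ 2
      ≤ 64 * (w : ℝ) ^ 3 * T * SS O U ψ δ p t x * pay O U ψ c t x := by
  have hS : 0 ≤ SS O U ψ δ p t x := hδ.trans (le_SS O U ψ δ p t x)
  have hpay : 0 ≤ pay O U ψ c t x := sum_nonneg fun r _ => mul_nonneg (hc0 r) (sq_nonneg _)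
  refine (sum_diff_le O U ψ c hc0 hc1 t x _ (Ico a t) ?_ _ hS fun i hi => ?_).trans ?_
  · intro i _ s hs hs2 r
    have : s < a := by
      by_contra hcon
      exact hs2 (mem_Ico.2 ⟨by omega, hs⟩)
    rw [hact s this r]; simp
  · exact sum_qw_le O U ψ δ hδ hp t x (by simpa using hi)
  · refine mul_le_mul_of_nonneg_right ?_ hpay
    refine mul_le_mul_of_nonneg_right ?_ hS
    refine mul_le_mul_of_nonneg_right ?_ (Nat.cast_nonneg _)
    refine mul_le_mul_of_nonneg_left ?_ (by norm_num)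
    refine pow_le_pow_left₀ (Nat.cast_nonneg _) ?_ _
    rw [Nat.card_Ico]
    exact_mod_cast (by omega : t - a ≤ w)

/-- The growth constant of one round. -/
noncomputable def cc (T p w : ℕ) : ℝ := 512 * (p : ℝ) ^ 2 * (w : ℝ) ^ 3 * T

/-- The moment bound for one light coordinate. -/
lemma light_moment {δ : ℝ} (hδ : 0 < δ) (m : ℕ) {a w t : ℕ} (ht : t ≤ a + w)
    (hact : ∀ t < a, ∀ r, (O t).od r = ∅) (hw : 1 ≤ w) (hT : 1 ≤ T) (x : Cube n)
    {j : Fin n} (hj : j ∉ heavy O U ψ δ (t + 1) x) :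
    cond (heavy O U ψ δ t x) (fun z => qw O U ψ j t z ^ (2 ^ m)) x
      ≤ (4 * (4 : ℝ) ^ m) ^ (2 ^ m - 1) * cond (heavy O U ψ δ t x)
        (fun z => (64 * (w : ℝ) ^ 3 * T * SS O U ψ δ (2 ^ m) t z) ^ (2 ^ m - 1)
          * qw O U ψ j t z) x := by
  have hp : (2 ^ m : ℕ) ≠ 0 := by positivity
  have hT' : (1 : ℝ) ≤ T := by exact_mod_cast hT
  have hw' : (1 : ℝ) ≤ w := by exact_mod_cast hw
  set K := heavy O U ψ δ t x with hK
  refine moment (g := fun y => qw O U ψ j t (mix K x y))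
    (v := fun y => 64 * (w : ℝ) ^ 3 * T * SS O U ψ δ (2 ^ m) t (mix K x y)) (δ := δ)
    (fun y => qw_nonneg _ _ _ _ _ _) (light_lt O U ψ δ t x hj).le ?_ ?_ m
  · intro y
    have h1 := le_SS O U ψ δ (2 ^ m) t (mix K x y)
    have h2 : (1 : ℝ) ≤ 64 * (w : ℝ) ^ 3 * T := by
      have h3 : (1 : ℝ) ≤ (w : ℝ) ^ 3 := one_le_pow₀ hw'
      nlinarith
    nlinarith
  · intro y
    set z := mix K x y with hz
    have hKz : heavy O U ψ δ t z = K := (heavy_stop O U ψ δ t).mix x y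
    rw [← sum_sdiff (subset_univ K)]
    have h0 : ∑ i ∈ K, (max (qw O U ψ j t z - qw O U ψ j t (mix K x (flipOn {i} y))) 0) ^ 2 = 0 := by
      refine sum_eq_zero fun i hi => ?_
      rw [mix_flip_mem x y hi]; simp [hz]
    rw [h0, add_zero]
    have h1 : ∑ i ∈ univ \ K, (max (qw O U ψ j t z - qw O U ψ j t (mix K x (flipOn {i} y))) 0) ^ 2
        = ∑ i ∈ univ \ heavy O U ψ δ t z,
          (max (qw O U ψ j t z - qw O U ψ j t (flipOn {i} z)) 0) ^ 2 := by
      rw [hKz]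
      refine sum_congr rfl fun i hi => ?_
      rw [mix_flip_notMem x y (by simpa using hi)]
    rw [h1]
    have h2 := diff_heavy O U ψ δ hδ.le hp (fun r => if j ∈ (O t).od r then 1 else 0)
      (fun r => by split_ifs <;> norm_num) (fun r => by split_ifs <;> norm_num) ht hact z
    simp only [← qw_eq_pay] at h2
    exact h2

/-- The `p`-th moment of the light norm of round `t`. -/
lemma ex_light_le (hψ : ‖ψ‖ = 1) {δ : ℝ} (hδ : 0 < δ) (m : ℕ) {a w t : ℕ} (ht : t ≤ a + w)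
    (hact : ∀ t < a, ∀ r, (O t).od r = ∅) (hw : 1 ≤ w) (hT : 1 ≤ T)
    (hp : (T : ℝ) / δ ≤ 2 ^ (2 ^ m)) :
    ex (fun x => light O U ψ δ (2 ^ m) t x ^ (2 ^ m))
      ≤ cc T (2 ^ m) w ^ (2 ^ m) * ex (fun x => SS O U ψ δ (2 ^ m) t x ^ (2 ^ m)) := by
  have hp0 : (2 ^ m : ℕ) ≠ 0 := by positivity
  have hT' : (1 : ℝ) ≤ T := by exact_mod_cast hT
  have hw' : (1 : ℝ) ≤ w := by exact_mod_cast hw
  set p := 2 ^ m with hpdef
  set B : ℝ := 64 * (w : ℝ) ^ 3 * T with hB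
  have hB1 : 1 ≤ B := by
    have h3 : (1 : ℝ) ≤ (w : ℝ) ^ 3 := one_le_pow₀ hw'
    rw [hB]; nlinarith
  have hstop := heavy_stop O U ψ δ t
  -- conditional bound
  have h1 : ∀ x, cond (heavy O U ψ δ t x) (fun z => light O U ψ δ p t z ^ p) x
      ≤ (4 * (4 : ℝ) ^ m) ^ (p - 1) * (T * cond (heavy O U ψ δ t x)
        (fun z => (B * SS O U ψ δ p t z) ^ (p - 1)) x) := by
    intro x
    set K := heavy O U ψ δ t x with hK
    set J := univ \ heavy O U ψ δ (t + 1) x with hJ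
    have e1 : cond K (fun z => light O U ψ δ p t z ^ p) x
        = cond K (fun z => ∑ j ∈ J, qw O U ψ j t z ^ p) x := by
      unfold QR.cond
      refine ex_congr fun y => ?_
      show light O U ψ δ p t (mix K x y) ^ p = ∑ j ∈ J, qw O U ψ j t (mix K x y) ^ p
      rw [light_pow O U ψ δ hp0, hJ,
        heavy_next O U ψ δ t x (mix K x y) fun i hi => mix_mem hi]
    rw [e1, cond_sum]
    have h2 : ∀ j ∈ J, cond K (fun z => qw O U ψ j t z ^ p) x
        ≤ (4 * (4 : ℝ) ^ m) ^ (p - 1) * cond K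
          (fun z => (B * SS O U ψ δ p t z) ^ (p - 1) * qw O U ψ j t z) x := by
      intro j hj
      exact light_moment O U ψ hδ m ht hact hw hT x (by simpa [hJ] using hj)
    refine (sum_le_sum h2).trans ?_
    rw [← mul_sum, ← cond_sum]
    refine mul_le_mul_of_nonneg_left ?_ (by positivity)
    rw [← cond_const_mul]
    refine cond_mono (fun z => ?_) x
    rw [← mul_sum, mul_comm]
    refine mul_le_mul_of_nonneg_right (sum_qw O U ψ hψ J t z) (pow_nonneg ?_ _)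
    have := hδ.le.trans (le_SS O U ψ δ p t z)
    positivity
  have h2 : ex (fun x => light O U ψ δ p t x ^ p)
      ≤ (4 * (4 : ℝ) ^ m) ^ (p - 1) * (T * ex (fun x => (B * SS O U ψ δ p t x) ^ (p - 1))) := by
    rw [← ex_cond hstop, ← ex_cond hstop (fun x => (B * SS O U ψ δ p t x) ^ (p - 1)),
      ← ex_const_mul, ← ex_const_mul]
    exact ex_mono h1
  -- `S^{p-1} ≤ S^p / δ`
  have h3 : ex (fun x => (B * SS O U ψ δ p t x) ^ (p - 1))
      ≤ B ^ (p - 1) * (1 / δ) * ex (fun x => SS O U ψ δ p t x ^ p) := by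
    rw [← ex_const_mul]
    refine ex_mono fun x => ?_
    have hS := le_SS O U ψ δ p t x
    have hS0 : 0 ≤ SS O U ψ δ p t x := hδ.le.trans hS
    rw [mul_pow, mul_assoc]
    refine mul_le_mul_of_nonneg_left ?_ (by positivity)
    rw [one_div, ← div_eq_inv_mul, le_div_iff₀ hδ]
    rw [← pow_sub_one_mul hp0 (SS O U ψ δ p t x)]
    exact mul_le_mul_of_nonneg_left hS (pow_nonneg hS0 _)
  set E := ex (fun x => SS O U ψ δ p t x ^ p) with hE
  have hE0 : 0 ≤ E := ex_nonneg fun x => pow_nonneg (hδ.le.trans (le_SS O U ψ δ p t x)) _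
  have h4 : (4 * (4 : ℝ) ^ m) = 4 * (p : ℝ) ^ 2 := by
    rw [hpdef]; push_cast
    rw [← pow_mul, mul_comm m 2, pow_mul]; norm_num
  set A : ℝ := 4 * (p : ℝ) ^ 2 with hA
  have hp1 : (1 : ℝ) ≤ p := by exact_mod_cast Nat.one_le_iff_ne_zero.2 hp0
  have hA1 : 1 ≤ A := by rw [hA]; nlinarith
  rw [h4] at h2
  have h5 : A ^ (p - 1) * (T * (B ^ (p - 1) * (1 / δ) * E)) ≤ cc T p w ^ p * E := by
    have e2 : A ^ (p - 1) * (T * (B ^ (p - 1) * (1 / δ) * E))
        = ((A * B) ^ (p - 1) * (T / δ)) * E := by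
      rw [mul_pow A B]
      generalize A ^ (p - 1) = a1
      generalize B ^ (p - 1) = b1
      ring
    rw [e2]
    refine mul_le_mul_of_nonneg_right ?_ hE0
    have hAB : 1 ≤ A * B := one_le_mul_of_one_le_of_one_le hA1 hB1
    calc (A * B) ^ (p - 1) * (T / δ) ≤ (A * B) ^ (p - 1) * 2 ^ p :=
          mul_le_mul_of_nonneg_left hp (by positivity)
      _ ≤ (A * B) ^ p * 2 ^ p :=
          mul_le_mul_of_nonneg_right (pow_le_pow_right₀ hAB (Nat.sub_le _ _)) (by positivity)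
      _ = (A * B * 2) ^ p := (mul_pow _ _ _).symm
      _ = cc T p w ^ p := by rw [hA, hB, cc]; ring
  refine h2.trans (le_trans ?_ h5)
  refine mul_le_mul_of_nonneg_left ?_ (by positivity)
  exact mul_le_mul_of_nonneg_left h3 (by linarith)

/-- Growth of the moments of `SS` in one round. -/
lemma ex_SS_succ (hψ : ‖ψ‖ = 1) {δ : ℝ} (hδ : 0 < δ) (m : ℕ) {a w t : ℕ} (ht : t ≤ a + w)
    (hact : ∀ t < a, ∀ r, (O t).od r = ∅) (hw : 1 ≤ w) (hT : 1 ≤ T)
    (hp : (T : ℝ) / δ ≤ 2 ^ (2 ^ m)) :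
    ex (fun x => SS O U ψ δ (2 ^ m) (t + 1) x ^ (2 ^ m))
      ≤ (1 + cc T (2 ^ m) w) ^ (2 ^ m) * ex (fun x => SS O U ψ δ (2 ^ m) t x ^ (2 ^ m)) := by
  have hp0 : (2 ^ m : ℕ) ≠ 0 := by positivity
  have hT' : (1 : ℝ) ≤ T := by exact_mod_cast hT
  have hw' : (1 : ℝ) ≤ w := by exact_mod_cast hw
  have h1 := ex_light_le O U ψ hψ hδ m ht hact hw hT hp
  set p := 2 ^ m with hpdef
  set c := cc T p w with hc
  have hp1 : (1 : ℝ) ≤ p := by exact_mod_cast Nat.one_le_iff_ne_zero.2 hp0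
  have hcpos : 0 < c := by
    rw [hc, cc]; positivity
  set E := ex (fun x => SS O U ψ δ p t x ^ p) with hE
  have hE0 : 0 ≤ E := ex_nonneg fun x => pow_nonneg (hδ.le.trans (le_SS O U ψ δ p t x)) _
  have h2 : ex (fun x => SS O U ψ δ p (t + 1) x ^ p)
      ≤ (1 + c) ^ (p - 1) * (E + ex (fun x => light O U ψ δ p t x ^ p) / c ^ (p - 1)) := by
    have e1 : (1 + c) ^ (p - 1) * (E + ex (fun x => light O U ψ δ p t x ^ p) / c ^ (p - 1))
        = ex (fun x => (1 + c) ^ (p - 1) * (SS O U ψ δ p t x ^ p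
          + (c ^ (p - 1))⁻¹ * light O U ψ δ p t x ^ p)) := by
      rw [ex_const_mul, ex_add, ex_const_mul, div_eq_inv_mul]
    rw [e1]
    refine ex_mono fun x => ?_
    rw [SS_succ]
    refine (add_pow_convex (hδ.le.trans (le_SS O U ψ δ p t x)) (light_nonneg O U ψ δ p t x)
      hcpos p hp0).trans (le_of_eq ?_)
    rw [div_eq_inv_mul]
  refine h2.trans ?_
  have h3 : ex (fun x => light O U ψ δ p t x ^ p) / c ^ (p - 1) ≤ c * E := by
    rw [div_le_iff₀ (by positivity)]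
    refine h1.trans (le_of_eq ?_)
    rw [← pow_sub_one_mul hp0 c]; ring
  calc (1 + c) ^ (p - 1) * (E + ex (fun x => light O U ψ δ p t x ^ p) / c ^ (p - 1))
      ≤ (1 + c) ^ (p - 1) * (E + c * E) :=
        mul_le_mul_of_nonneg_left (by linarith) (by positivity)
    _ = ((1 + c) ^ (p - 1) * (1 + c)) * E := by ring
    _ = (1 + c) ^ p * E := by rw [pow_sub_one_mul hp0]

/-- The weights of the first active round do not depend on the input. -/
lemma SS_first (hψ : ‖ψ‖ = 1) {δ : ℝ} (hδ : 0 < δ) (m : ℕ) {a : ℕ}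
    (hact : ∀ t < a, ∀ r, (O t).od r = ∅)
    (hp : (T : ℝ) / δ ≤ 2 ^ (2 ^ m)) (x : Cube n) : SS O U ψ δ (2 ^ m) (a + 1) x ≤ 3 * δ := by
  have hp0 : (2 ^ m : ℕ) ≠ 0 := by positivity
  set p := 2 ^ m with hpdef
  rw [SS_succ]
  have h0 : SS O U ψ δ p a x = δ := by
    unfold SS
    rw [sum_eq_zero fun s hs => light_eq_zero O U ψ δ hp0 (hact s (mem_range.1 hs)) x, add_zero]
  have h1 : light O U ψ δ p a x ≤ 2 * δ := by
    refine (pow_le_pow_iff_left₀ (light_nonneg O U ψ δ p a x) (by positivity) hp0).1 ?_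
    rw [light_pow O U ψ δ hp0]
    have h2 : ∀ j ∈ univ \ heavy O U ψ δ (a + 1) x,
        qw O U ψ j a x ^ p ≤ δ ^ (p - 1) * qw O U ψ j a x := by
      intro j hj
      have h3 := light_lt O U ψ δ a x (j := j) (by simpa using hj)
      have h4 : cond (heavy O U ψ δ a x) (qw O U ψ j a) x = qw O U ψ j a x := by
        unfold QR.cond
        rw [ex_congr (g := fun _ => qw O U ψ j a x) (fun y => by
          unfold qw; rw [st_const O U ψ hact x _ le_rfl]), ex_const]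
      rw [h4] at h3
      have h5 := qw_nonneg O U ψ j a x
      rw [← pow_sub_one_mul hp0 (qw O U ψ j a x)]
      exact mul_le_mul_of_nonneg_right (pow_le_pow_left₀ h5 h3.le _) h5
    refine (sum_le_sum h2).trans ?_
    rw [← mul_sum]
    have h6 := sum_qw O U ψ hψ (univ \ heavy O U ψ δ (a + 1) x) a x
    have h7 : (T : ℝ) ≤ 2 ^ p * δ := by rwa [div_le_iff₀ hδ] at hp
    calc δ ^ (p - 1) * ∑ j ∈ univ \ heavy O U ψ δ (a + 1) x, qw O U ψ j a x
        ≤ δ ^ (p - 1) * (2 ^ p * δ) :=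
          mul_le_mul_of_nonneg_left (h6.trans h7) (by positivity)
      _ = 2 ^ p * (δ ^ (p - 1) * δ) := by ring
      _ = 2 ^ p * δ ^ p := by rw [pow_sub_one_mul hp0]
      _ = (2 * δ) ^ p := (mul_pow _ _ _).symm
  linarith

/-- **The light weights stay small on average.** -/
theorem ex_SS_le (hψ : ‖ψ‖ = 1) {δ : ℝ} (hδ : 0 < δ) (m : ℕ) {a w k : ℕ}
    (hact : ∀ t < a, ∀ r, (O t).od r = ∅) (hak : a < k) (hk : k ≤ a + w) (hT : 1 ≤ T)
    (hp : (T : ℝ) / δ ≤ 2 ^ (2 ^ m)) :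
    ex (fun x => SS O U ψ δ (2 ^ m) k x)
      ≤ (513 * (w : ℝ) ^ 3 * T * ((2 ^ m : ℕ) : ℝ) ^ 2) ^ (w - 1) * (3 * δ) := by
  have hp0 : (2 ^ m : ℕ) ≠ 0 := by positivity
  have hT' : (1 : ℝ) ≤ T := by exact_mod_cast hT
  have hw : 1 ≤ w := by omega
  have hw' : (1 : ℝ) ≤ w := by exact_mod_cast hw
  set p := 2 ^ m with hpdef
  have hp1 : (1 : ℝ) ≤ p := by exact_mod_cast Nat.one_le_iff_ne_zero.2 hp0
  set C : ℝ := 513 * (w : ℝ) ^ 3 * T * (p : ℝ) ^ 2 with hC
  have h5 : 1 ≤ (w : ℝ) ^ 3 * T * (p : ℝ) ^ 2 :=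
    one_le_mul_of_one_le_of_one_le (one_le_mul_of_one_le_of_one_le (one_le_pow₀ hw') hT')
      (one_le_pow₀ hp1)
  have hC1 : 1 ≤ C := by rw [hC]; nlinarith
  have hC0 : 0 ≤ C := by linarith
  have h3 : 1 + cc T p w ≤ C := by rw [cc, hC]; nlinarith
  have h0 : 0 ≤ 1 + cc T p w := by
    have : 0 ≤ cc T p w := by unfold cc; positivity
    linarith
  have hstep : ∀ t, a + t + 1 ≤ k →
      ex (fun x => SS O U ψ δ p (a + t + 1) x ^ p) ≤ (C ^ t * (3 * δ)) ^ p := by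
    intro t
    induction t with
    | zero =>
      intro _
      rw [pow_zero, one_mul]
      refine (ex_mono (g := fun _ => (3 * δ) ^ p) fun x => ?_).trans (le_of_eq (ex_const _))
      exact pow_le_pow_left₀ (hδ.le.trans (le_SS O U ψ δ p _ x)) (SS_first O U ψ hψ hδ m hact hp x) _
    | succ t ih =>
      intro ht
      have h1 := ih (by omega)
      have h2 := ex_SS_succ O U ψ hψ hδ m (t := a + t + 1) (w := w) (by omega) hact hw hT hp
      refine h2.trans ?_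
      calc (1 + cc T p w) ^ p * ex (fun x => SS O U ψ δ p (a + t + 1) x ^ p)
          ≤ C ^ p * (C ^ t * (3 * δ)) ^ p :=
            mul_le_mul (pow_le_pow_left₀ h0 h3 _) h1
              (ex_nonneg fun x => pow_nonneg (hδ.le.trans (le_SS O U ψ δ p _ x)) _) (by positivity)
        _ = (C ^ (t + 1) * (3 * δ)) ^ p := by rw [← mul_pow, pow_succ]; congr 1; ring
  obtain ⟨t, rfl⟩ : ∃ t, k = a + t + 1 := ⟨k - a - 1, by omega⟩
  have h1 := hstep t le_rfl
  have h2 := ex_pow_le (fun x => hδ.le.trans (le_SS O U ψ δ p (a + t + 1) x)) p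
  have h6 : ex (fun x => SS O U ψ δ p (a + t + 1) x) ≤ C ^ t * (3 * δ) :=
    (pow_le_pow_iff_left₀ (ex_nonneg fun x => hδ.le.trans (le_SS O U ψ δ p (a + t + 1) x))
      (by positivity) hp0).1 (h2.trans h1)
  refine h6.trans (mul_le_mul_of_nonneg_right ?_ (by positivity))
  exact pow_le_pow_right₀ hC1 (by omega)

lemma pay_nonneg {c : R → ℝ} (hc0 : ∀ r, 0 ≤ c r) (k : ℕ) (x : Cube n) : 0 ≤ pay O U ψ c k x :=
  sum_nonneg fun r _ => mul_nonneg (hc0 r) (sq_nonneg _)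

lemma pay_le_one (hψ : ‖ψ‖ = 1) {c : R → ℝ} (hc1 : ∀ r, c r ≤ 1) (k : ℕ)
    (x : Cube n) : pay O U ψ c k x ≤ 1 := by
  have h1 : pay O U ψ c k x ≤ ∑ r, ‖st O U ψ x k r‖ ^ 2 :=
    sum_le_sum fun r _ => by
      have := mul_le_mul_of_nonneg_right (hc1 r) (sq_nonneg ‖st O U ψ x k r‖)
      linarith
  refine h1.trans (le_of_eq ?_)
  rw [← EuclideanSpace.norm_sq_eq, norm_st, hψ]; norm_num

lemma stop_union {K : Cube n → Finset (Fin n)} (hK : Stop K) (A : Finset (Fin n)) :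
    Stop (fun x => K x ∪ A) := by
  intro x y h
  simp only
  rw [hK x y fun i hi => h i (mem_union_left _ hi)]

/-- The conditional variance over the light coordinates of a class `B` which is not queried after
the round `τ`. -/
theorem cond_var_le (hψ : ‖ψ‖ = 1) {δ : ℝ} (hδ : 0 < δ) (m : ℕ) {a w τ : ℕ} (N : ℕ)
    (hact : ∀ t < a, ∀ r, (O t).od r = ∅) (haτ : a ≤ τ) (hτ : τ + 1 ≤ a + w) (hT : 1 ≤ T)
    (hp : (T : ℝ) / δ ≤ 2 ^ (2 ^ m)) {c : R → ℝ} (hc0 : ∀ r, 0 ≤ c r) (hc1 : ∀ r, c r ≤ 1)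
    {Bd : ℝ} (hBd : ∀ x, pay O U ψ c N x ≤ Bd) (B : Finset (Fin n))
    (hB : ∀ i ∈ B, ∀ t, τ < t → ∀ r, i ∉ (O t).od r) :
    ex (fun x => cond (heavy O U ψ δ (τ + 1) x ∪ (univ \ B)) (fun z => pay O U ψ c N z ^ 2) x
        - cond (heavy O U ψ δ (τ + 1) x ∪ (univ \ B)) (pay O U ψ c N) x ^ 2)
      ≤ 96 * (w : ℝ) ^ 3 * T * (513 * (w : ℝ) ^ 3 * T * ((2 ^ m : ℕ) : ℝ) ^ 2) ^ (w - 1)
        * Bd * δ := by
  have hp0 : (2 ^ m : ℕ) ≠ 0 := by positivity
  have hmain := ex_SS_le O U ψ hψ hδ m (k := τ + 1) hact (by omega) hτ hT hp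
  set f := pay O U ψ c N with hf
  set p := 2 ^ m with hpdef
  set J : Cube n → Finset (Fin n) := fun x => heavy O U ψ δ (τ + 1) x ∪ (univ \ B) with hJ
  have hJstop : Stop J := stop_union (heavy_stop O U ψ δ (τ + 1)) _
  have h1 : ∀ x, cond (J x) (fun z => f z ^ 2) x - cond (J x) f x ^ 2
      ≤ cond (J x) (fun z => 32 * (w : ℝ) ^ 3 * T * Bd * SS O U ψ δ p (τ + 1) z) x := by
    intro x
    refine (poincare_cond (J x) f x).trans ?_
    rw [← cond_const_mul]
    refine ex_mono fun y => ?_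
    show (1 / 2 : ℝ) * ∑ i ∈ univ \ J x,
      (max (f (mix (J x) x y) - f (flipOn {i} (mix (J x) x y))) 0) ^ 2
      ≤ 32 * (w : ℝ) ^ 3 * T * Bd * SS O U ψ δ p (τ + 1) (mix (J x) x y)
    have hJz : J (mix (J x) x y) = J x := hJstop.mix x y
    set z := mix (J x) x y with hz
    rw [← hJz]
    have hS : 0 ≤ SS O U ψ δ p (τ + 1) z := hδ.le.trans (le_SS O U ψ δ p _ z)
    have hJB : ∀ i ∈ univ \ J z, i ∈ B ∧ i ∉ heavy O U ψ δ (τ + 1) z := by
      intro i hi
      simp only [hJ, mem_sdiff, mem_univ, true_and, mem_union, not_or, not_not] at hi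
      exact ⟨hi.2, hi.1⟩
    have h2 := sum_diff_le O U ψ c hc0 hc1 N z (univ \ J z) (Ico a (τ + 1)) (by
      intro i hi t _ ht2 r
      rcases Nat.lt_or_ge t a with h | h
      · rw [hact t h r]; simp
      · refine hB i (hJB i hi).1 t ?_ r
        by_contra hcon
        exact ht2 (mem_Ico.2 ⟨h, by omega⟩)) (SS O U ψ δ p (τ + 1) z) hS (by
      intro i hi
      have h3 : ∑ s ∈ range N, qw O U ψ i s z ≤ ∑ s ∈ range (τ + 1), qw O U ψ i s z := by
        have h4 : ∑ s ∈ range N, qw O U ψ i s z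
            = ∑ s ∈ (range N).filter (fun s => s < τ + 1), qw O U ψ i s z := by
          rw [sum_filter]
          refine sum_congr rfl fun s _ => ?_
          split_ifs with h
          · rfl
          · exact qw_eq_zero O U ψ (hB i (hJB i hi).1 s (by omega)) z
        rw [h4]
        refine sum_le_sum_of_subset_of_nonneg (fun s hs => ?_) fun _ _ _ => qw_nonneg _ _ _ _ _ _
        exact mem_range.2 (mem_filter.1 hs).2
      exact h3.trans (sum_qw_le O U ψ δ hδ.le hp0 (τ + 1) z (hJB i hi).2))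
    have hf0 : 0 ≤ f z := pay_nonneg O U ψ hc0 N z
    have hcard : ((Ico a (τ + 1)).card : ℝ) ≤ w := by
      rw [Nat.card_Ico]; exact_mod_cast (by omega : τ + 1 - a ≤ w)
    have h3 : 64 * ((Ico a (τ + 1)).card : ℝ) ^ 3 * T * SS O U ψ δ p (τ + 1) z * f z
        ≤ 64 * (w : ℝ) ^ 3 * T * SS O U ψ δ p (τ + 1) z * Bd := by
      refine mul_le_mul ?_ (hBd z) hf0 (by positivity)
      refine mul_le_mul_of_nonneg_right ?_ hS
      refine mul_le_mul_of_nonneg_right ?_ (Nat.cast_nonneg _)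
      refine mul_le_mul_of_nonneg_left ?_ (by norm_num)
      exact pow_le_pow_left₀ (Nat.cast_nonneg _) hcard _
    calc (1 / 2 : ℝ) * ∑ i ∈ univ \ J z, (max (f z - f (flipOn {i} z)) 0) ^ 2
        ≤ (1 / 2 : ℝ) * (64 * (w : ℝ) ^ 3 * T * SS O U ψ δ p (τ + 1) z * Bd) :=
          mul_le_mul_of_nonneg_left (h2.trans h3) (by norm_num)
      _ = _ := by ring
  have hB0 : 0 ≤ Bd := (pay_nonneg O U ψ hc0 N (fun _ => 1)).trans (hBd _)
  refine (ex_mono h1).trans ?_
  rw [ex_cond hJstop, ex_const_mul]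
  calc 32 * (w : ℝ) ^ 3 * T * Bd * ex (SS O U ψ δ p (τ + 1))
      ≤ 32 * (w : ℝ) ^ 3 * T * Bd
          * ((513 * (w : ℝ) ^ 3 * T * (p : ℝ) ^ 2) ^ (w - 1) * (3 * δ)) :=
        mul_le_mul_of_nonneg_left hmain (by positivity)
    _ = _ := by ring

end Pool.Agent.Helper24.QW
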