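import Mathlib
import Pool.Agent.Helper24.QR.WRounds
import Pool.Agent.Helper24.QR.WOsss
import Pool.Agent.Helper24.QR.WPurify
import Pool.Agent.Helper24.QR.WDefs

/-!
The inequality for algorithms whose coordinates are queried in windows of bounded length.
-/

set_option linter.dupNamespace false

namespace Pool.Agent.Helper24.QW

open Finset Pool.Agent.Helper11.Cube Pool.Agent.Helper11.AA Pool.Agent.Helper24.QR
  Pool.Agent.Helper24.QWindows

variable {n T : ℕ} {R : Type} [Fintype R]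

lemma query_eq (Q : R → Finset (Fin n)) (hQ : ∀ r, (Q r).card ≤ T) (x : Cube n)
    (φ : EuclideanSpace ℂ R) : QWindows.query Q x φ = (ofSets Q hQ).app x φ := by
  ext r
  simp [QWindows.query, SignOracle.app, ofSets]

lemma state_eq (Q : ℕ → R → Finset (Fin n)) (hQ : ∀ t r, (Q t r).card ≤ T)
    (U : ℕ → EuclideanSpace ℂ R ≃ₗᵢ[ℂ] EuclideanSpace ℂ R)
    (ψ : EuclideanSpace ℂ R) (x : Cube n) (t : ℕ) :
    QWindows.state Q U ψ x t = st (fun t => ofSets (Q t) (hQ t)) U ψ x t := by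
  induction t with
  | zero => rfl
  | succ t ih => simp only [QWindows.state, st]; rw [ih, query_eq (Q t) (hQ t)]

lemma payoff_eq (Q : ℕ → R → Finset (Fin n)) (hQ : ∀ t r, (Q t r).card ≤ T)
    (U : ℕ → EuclideanSpace ℂ R ≃ₗᵢ[ℂ] EuclideanSpace ℂ R)
    (ψ : EuclideanSpace ℂ R) (c : R → ℝ) (N : ℕ) :
    QWindows.payoff Q U ψ c N = pay (fun t => ofSets (Q t) (hQ t)) U ψ c N := by
  funext x
  simp only [QWindows.payoff, pay, state_eq Q hQ]

lemma heavy_empty (O : ℕ → SignOracle n T R) (U : ℕ → EuclideanSpace ℂ R ≃ₗᵢ[ℂ] EuclideanSpace ℂ R)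
    (ψ : EuclideanSpace ℂ R) {δ : ℝ} (hδ : 0 < δ) {a : ℕ} (hact : ∀ t < a, ∀ r, (O t).od r = ∅)
    (x : Cube n) {t : ℕ} (ht : t ≤ a) : heavy O U ψ δ t x = ∅ := by
  induction t with
  | zero => rfl
  | succ t ih =>
    simp only [heavy]
    rw [ih (by omega), empty_union]
    refine filter_eq_empty_iff.2 fun j _ => ?_
    rw [not_le]
    have : QR.cond ∅ (qw O U ψ j t) x = 0 := by
      show ex (fun y => qw O U ψ j t (mix ∅ x y)) = 0
      rw [ex_congr (g := fun _ => (0 : ℝ)) (fun y =>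
        qw_eq_zero O U ψ (fun r => by rw [hact t (by omega) r]; simp) _), ex_const]
    rw [this]
    exact hδ

lemma cond_le {K : Finset (Fin n)} {g : Cube n → ℝ} {b : ℝ} (hg : ∀ x, g x ≤ b) (x : Cube n) :
    QR.cond K g x ≤ b := (cond_mono hg x).trans (le_of_eq (ex_const b))

/-- One class of coordinates. -/
theorem class_step (Q : ℕ → R → Finset (Fin n)) (hQ : ∀ t r, (Q t r).card ≤ T)
    (U : ℕ → EuclideanSpace ℂ R ≃ₗᵢ[ℂ] EuclideanSpace ℂ R)
    (ψ : EuclideanSpace ℂ R) (hψ : ‖ψ‖ = 1) (c : R → ℝ) (hc0 : ∀ r, 0 ≤ c r) (hc1 : ∀ r, c r ≤ 1)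
    {w : ℕ} (N : ℕ) (hw : 1 ≤ w) (hT : 1 ≤ T) (e : Fin n → ℕ)
    (he : ∀ t, ∀ r, ∀ i ∈ Q t r, t ≤ e i ∧ e i < t + w) (f : Cube n → ℝ)
    (hf : f = pay (fun t => ofSets (Q t) (hQ t)) U ψ c N) {δ Bd M : ℝ} (hδ : 0 < δ) (m : ℕ)
    (hp : (T : ℝ) / δ ≤ 2 ^ (2 ^ m)) (hBd : ∀ x, f x ≤ Bd) (hM0 : 0 ≤ M)
    (hM : ∀ i, derivNorm i f ≤ M) (τ : ℕ) :
    ex (fun x => QR.cond (univ \ univ.filter (fun i => e i < τ)) f x ^ 2)
      - ex (fun x => QR.cond (univ \ univ.filter (fun i => e i < τ + 1)) f x ^ 2)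
      ≤ 96 * (w : ℝ) ^ 3 * T * (513 * (w : ℝ) ^ 3 * T * ((2 ^ m : ℕ) : ℝ) ^ 2) ^ (w - 1) * Bd * δ
        + 2 * (w : ℝ) ^ 2 * (T / δ * M ^ 2) := by
  set F : Finset (Fin n) := univ.filter (fun i => e i < τ) with hF
  set B : Finset (Fin n) := univ.filter (fun i => e i = τ) with hB
  set O : ℕ → SignOracle n T (RR n R) := fun t => regOracle F (Q t) (hQ t) with hO
  set U' : ℕ → EuclideanSpace ℂ (RR n R) ≃ₗᵢ[ℂ] EuclideanSpace ℂ (RR n R) := fun t => UU (U t)
    with hU'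
  set ψ' := regState n ψ with hψ'
  have hψ1 : ‖ψ'‖ = 1 := norm_regState ψ hψ
  set c' : RR n R → ℝ := fun s => c s.2 with hc'
  set f' : Cube n → ℝ := pay O U' ψ' c' N with hf'
  have hff' : f' = fun x => QR.cond (univ \ F) f x := by
    funext x
    rw [hf', hf]
    exact pay_reg F Q hQ U ψ c N x
  set a := τ + 1 - w with ha
  have hact : ∀ t < a, ∀ r, (O t).od r = ∅ := by
    rintro t ht ⟨y, r⟩
    show Q t r \ F = ∅
    refine sdiff_eq_empty_iff_subset.2 fun i hi => ?_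
    have := (he t r i hi).2
    rw [hF, mem_filter]
    exact ⟨mem_univ _, by omega⟩
  have hBq : ∀ i ∈ B, ∀ t, τ < t → ∀ r, i ∉ (O t).od r := by
    rintro i hi t ht ⟨y, r⟩ hcon
    have h1 : i ∈ Q t r := (mem_sdiff.1 (show i ∈ Q t r \ F from hcon)).1
    have h2 := (he t r i h1).1
    have h3 : e i = τ := (mem_filter.1 hi).2
    omega
  have hBd' : ∀ x, f' x ≤ Bd := by
    intro x; rw [hff']; exact cond_le hBd x
  have hM' : ∀ i, derivNorm i f' ≤ M := by
    intro i; rw [hff']; exact (derivNorm_cond_le _ f i).trans (hM i)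
  have h1 := cond_var_le O U' ψ' hψ1 hδ m N hact (τ := τ) (w := w) (by omega) (by omega) hT hp
    (c := c') (fun s => hc0 s.2) (fun s => hc1 s.2) hBd' B hBq
  -- the batches
  set K : ℕ → Cube n → Finset (Fin n) := fun s x => heavy O U' ψ' δ (a + s) x with hK
  have hbat : Batches K := by
    refine ⟨fun x => ?_, fun s x => ?_, fun s x y h => ?_⟩
    · exact heavy_empty O U' ψ' hδ hact x (by omega)
    · exact heavy_mono O U' ψ' δ (a + s) x
    · exact heavy_next O U' ψ' δ (a + s) x y h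
  have hk : a + (τ + 1 - a) = τ + 1 := by omega
  have h2 := batch_class hbat (τ + 1 - a) f' (D := T / δ) (M := M) (by positivity) hM'
    (fun s _ x => heavy_card O U' ψ' hψ1 hδ (a + s) x) (univ \ B)
  have hKk : ∀ x, K (τ + 1 - a) x = heavy O U' ψ' δ (τ + 1) x := by
    intro x; simp only [hK]; rw [hk]
  simp only [hKk] at h2
  have hkw : ((τ + 1 - a : ℕ) : ℝ) ≤ w := by exact_mod_cast (by omega : τ + 1 - a ≤ w)
  have h3 : 2 * ((τ + 1 - a : ℕ) : ℝ) ^ 2 * (T / δ * M ^ 2) ≤ 2 * (w : ℝ) ^ 2 * (T / δ * M ^ 2) := by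
    refine mul_le_mul_of_nonneg_right ?_ (by positivity)
    refine mul_le_mul_of_nonneg_left ?_ (by norm_num)
    exact pow_le_pow_left₀ (Nat.cast_nonneg _) hkw 2
  -- the two ends
  have hJ : Stop (fun x => heavy O U' ψ' δ (τ + 1) x ∪ (univ \ B)) :=
    stop_union (heavy_stop O U' ψ' δ (τ + 1)) _
  have e1 : ex (fun x => QR.cond (univ \ F) f x ^ 2)
      = ex (fun x => QR.cond (heavy O U' ψ' δ (τ + 1) x ∪ (univ \ B)) (fun z => f' z ^ 2) x) := by
    rw [ex_cond hJ (fun z => f' z ^ 2), hff']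
  have e2 : ∀ x, QR.cond (univ \ univ.filter (fun i => e i < τ + 1)) f x
      = QR.cond (univ \ B) f' x := by
    intro x
    rw [hff', cond_cond]
    congr 1
    ext i
    simp only [hB, hF, mem_sdiff, mem_univ, true_and, mem_filter, mem_inter]
    omega
  rw [ex_congr (fun x => by rw [e2 x] : ∀ x,
    QR.cond (univ \ univ.filter (fun i => e i < τ + 1)) f x ^ 2 = QR.cond (univ \ B) f' x ^ 2), e1]
  rw [ex_sub] at h1
  have h4 : (513 * (w : ℝ) ^ 3 * T * ((2 ^ m : ℕ) : ℝ) ^ 2) ^ (w - 1)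
      = (513 * (w : ℝ) ^ 3 * T * ((2 ^ m : ℕ) : ℝ) ^ 2) ^ (w - 1) := rfl
  linarith

/-- Coordinates with no window ending at `τ` do not contribute. -/
lemma class_trivial (e : Fin n → ℕ) (τ : ℕ) (h : τ ∉ univ.image e) :
    univ.filter (fun i => e i < τ + 1) = univ.filter (fun i => e i < τ) := by
  refine filter_congr fun i _ => ?_
  have : e i ≠ τ := fun hh => h (hh ▸ mem_image_of_mem e (mem_univ i))
  omega

/-- **The inequality for windows of length `w`**, when the queries after round `N` also respect the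
windows. -/
theorem windows_aux (Q : ℕ → R → Finset (Fin n)) (hQ : ∀ t r, (Q t r).card ≤ T)
    (U : ℕ → EuclideanSpace ℂ R ≃ₗᵢ[ℂ] EuclideanSpace ℂ R)
    (ψ : EuclideanSpace ℂ R) (hψ : ‖ψ‖ = 1) (c : R → ℝ) (hc0 : ∀ r, 0 ≤ c r) (hc1 : ∀ r, c r ≤ 1)
    {w : ℕ} (N : ℕ) (hw : 1 ≤ w) (hT : 1 ≤ T) (e : Fin n → ℕ)
    (he : ∀ t, ∀ r, ∀ i ∈ Q t r, t ≤ e i ∧ e i < t + w) :
    variance (QWindows.payoff Q U ψ c N)
      ≤ ((univ.image e).card : ℝ) * (98 * (w : ℝ) ^ 3 * T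
        * (513 * (w : ℝ) ^ 3 * T
          * (1 + 2 * Real.logb 2 (T / maxDerivNorm (QWindows.payoff Q U ψ c N))) ^ 2) ^ (w - 1)
        * √(supNorm (QWindows.payoff Q U ψ c N)) * maxDerivNorm (QWindows.payoff Q U ψ c N)) := by
  have hT' : (1 : ℝ) ≤ T := by exact_mod_cast hT
  have hw' : (1 : ℝ) ≤ w := by exact_mod_cast hw
  rw [payoff_eq Q hQ]
  set f := pay (fun t => ofSets (Q t) (hQ t)) U ψ c N with hf
  have hf0 : ∀ x, 0 ≤ f x := pay_nonneg _ U ψ hc0 N
  have hf1 : ∀ x, f x ≤ 1 := pay_le_one _ U ψ hψ hc1 N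
  set M := maxDerivNorm f with hM
  have hM0 : 0 ≤ M := maxDerivNorm_nonneg f
  rcases hM0.eq_or_lt with h0 | hMpos
  · rw [variance_eq_zero_of_deriv h0.symm, ← h0, mul_zero, mul_zero]
  have hM1 : M ≤ 1 := maxDerivNorm_le_of_bounded hf0 hf1
  have hB : ∀ x, f x ≤ supNorm f := fun x => (le_abs_self _).trans (le_supNorm _ x)
  have hNpos : 0 < supNorm f := by
    rcases (supNorm_nonneg f).eq_or_lt with h | h
    · exfalso
      have hfz : ∀ x, f x = 0 := fun x => le_antisymm (h ▸ hB x) (hf0 x)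
      have : M ≤ 0 := by
        rw [hM]; unfold maxDerivNorm
        rcases isEmpty_or_nonempty (Fin n) with hn | hn
        · rw [Real.iSup_of_isEmpty]
        · refine ciSup_le fun j => ?_
          have h2 : derivNorm j f ^ 2 = 0 := by
            rw [derivNorm_sq, ex_congr (g := fun _ => (0 : ℝ)), ex_const]
            intro x; simp [discreteDeriv, hfz]
          exact le_of_eq (pow_eq_zero_iff two_ne_zero |>.1 h2)
      linarith
    · exact h
  have hN1 : supNorm f ≤ 1 := by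
    unfold supNorm
    exact ciSup_le fun x => by rw [abs_of_nonneg (hf0 x)]; exact hf1 x
  set s := √(supNorm f) with hs
  have hs2 : s ^ 2 = supNorm f := Real.sq_sqrt hNpos.le
  have hspos : 0 < s := Real.sqrt_pos.2 hNpos
  have hs1 : s ≤ 1 := by rw [hs]; exact Real.sqrt_le_one.2 hN1
  have hTM : 1 ≤ T / M := by rw [le_div_iff₀ hMpos]; linarith
  obtain ⟨m, hm1, hm2⟩ := exists_double_pow hTM
  set δ := M / s with hδ
  have hδpos : 0 < δ := div_pos hMpos hspos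
  have hMδ : M ≤ δ := by rw [hδ, le_div_iff₀ hspos]; nlinarith
  have hm3 : (T : ℝ) / δ ≤ 2 ^ (2 ^ m) :=
    (div_le_div_of_nonneg_left (by linarith) hMpos hMδ).trans hm1
  have hstep := class_step Q hQ U ψ hψ c hc0 hc1 N hw hT e he f hf hδpos m hm3 hB hM0
    (fun i => derivNorm_le f i)
  set P : ℝ := ((2 ^ m : ℕ) : ℝ) with hP
  have hP1 : 1 ≤ P := by rw [hP]; exact_mod_cast Nat.one_le_two_pow
  set C : ℝ := 513 * (w : ℝ) ^ 3 * T * P ^ 2 with hC
  set L : ℝ := 1 + 2 * Real.logb 2 (T / M) with hL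
  have hw3 : (1 : ℝ) ≤ (w : ℝ) ^ 3 := one_le_pow₀ hw'
  have hC1 : 1 ≤ C := by
    have : 1 ≤ (w : ℝ) ^ 3 * T * P ^ 2 :=
      one_le_mul_of_one_le_of_one_le (one_le_mul_of_one_le_of_one_le hw3 hT') (one_le_pow₀ hP1)
    rw [hC]; nlinarith
  have hCL : C ≤ 513 * (w : ℝ) ^ 3 * T * L ^ 2 := by
    refine mul_le_mul_of_nonneg_left ?_ (by positivity)
    exact pow_le_pow_left₀ (by positivity) hm2 2
  have hCpow : 1 ≤ C ^ (w - 1) := one_le_pow₀ hC1
  set b : ℝ := 98 * (w : ℝ) ^ 3 * T * (513 * (w : ℝ) ^ 3 * T * L ^ 2) ^ (w - 1) * s * M with hb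
  have hb0 : 0 ≤ b := by
    have : 0 ≤ (513 * (w : ℝ) ^ 3 * T * L ^ 2) ^ (w - 1) := pow_nonneg (by positivity) _
    rw [hb]; positivity
  have hbound : 96 * (w : ℝ) ^ 3 * T * C ^ (w - 1) * supNorm f * δ
      + 2 * (w : ℝ) ^ 2 * (T / δ * M ^ 2) ≤ b := by
    have h4 : 96 * (w : ℝ) ^ 3 * T * C ^ (w - 1) * supNorm f * δ
        = 96 * (w : ℝ) ^ 3 * T * C ^ (w - 1) * s * M := by
      rw [← hs2, hδ]; field_simp
    have h5 : 2 * (w : ℝ) ^ 2 * (T / δ * M ^ 2) = 2 * (w : ℝ) ^ 2 * T * s * M := by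
      rw [hδ]; field_simp
    have h6 : 2 * (w : ℝ) ^ 2 * T * s * M ≤ 2 * (w : ℝ) ^ 3 * T * C ^ (w - 1) * s * M := by
      have h7 : (w : ℝ) ^ 2 ≤ (w : ℝ) ^ 3 * C ^ (w - 1) := by
        have : (w : ℝ) ^ 2 ≤ (w : ℝ) ^ 3 := pow_le_pow_right₀ hw' (by norm_num)
        nlinarith
      have h8 : 0 ≤ 2 * T * s * M := by positivity
      nlinarith
    have h9 : C ^ (w - 1) ≤ (513 * (w : ℝ) ^ 3 * T * L ^ 2) ^ (w - 1) :=
      pow_le_pow_left₀ (by linarith) hCL _
    rw [h4, h5]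
    calc 96 * (w : ℝ) ^ 3 * T * C ^ (w - 1) * s * M + 2 * (w : ℝ) ^ 2 * T * s * M
        ≤ 96 * (w : ℝ) ^ 3 * T * C ^ (w - 1) * s * M
          + 2 * (w : ℝ) ^ 3 * T * C ^ (w - 1) * s * M := by linarith
      _ = 98 * (w : ℝ) ^ 3 * T * s * M * C ^ (w - 1) := by ring
      _ ≤ 98 * (w : ℝ) ^ 3 * T * s * M * (513 * (w : ℝ) ^ 3 * T * L ^ 2) ^ (w - 1) :=
          mul_le_mul_of_nonneg_left h9 (by positivity)
      _ = b := by rw [hb]; ring
  -- telescoping
  set G : ℕ → ℝ := fun τ => ex (fun x => QR.cond (univ \ univ.filter (fun i => e i < τ)) f x ^ 2)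
    with hG
  have hGstep : ∀ τ, G τ - G (τ + 1) ≤ if τ ∈ univ.image e then b else 0 := by
    intro τ
    split_ifs with h
    · exact (hstep τ).trans hbound
    · simp only [hG]
      rw [class_trivial e τ h, sub_self]
  set Lm := (univ.sup e) + 1 with hLm
  have h0 : G 0 = ex (fun x => f x ^ 2) := by
    simp only [hG]
    refine ex_congr fun x => ?_
    have : univ \ univ.filter (fun i => e i < 0) = (univ : Finset (Fin n)) := by
      ext i; simp
    rw [this, cond_univ]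
  have h1 : G Lm = ex f ^ 2 := by
    simp only [hG]
    have : univ \ univ.filter (fun i => e i < Lm) = (∅ : Finset (Fin n)) := by
      rw [sdiff_eq_empty_iff_subset]
      intro i _
      rw [mem_filter]
      exact ⟨mem_univ _, Nat.lt_succ_of_le (le_sup (f := e) (mem_univ i))⟩
    rw [this, ex_congr (g := fun _ => ex f ^ 2) (fun x => by rw [cond_empty]), ex_const]
  have h2 : G 0 - G Lm = ∑ τ ∈ range Lm, (G τ - G (τ + 1)) := (sum_range_sub' G Lm).symm
  rw [variance_eq, ← h0, ← h1, h2]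
  refine (sum_le_sum fun τ _ => hGstep τ).trans ?_
  rw [← sum_filter, sum_const, nsmul_eq_mul]
  refine mul_le_mul_of_nonneg_right ?_ hb0
  exact_mod_cast card_le_card fun τ hτ => (mem_filter.1 hτ).2

/-- **The inequality for windows of length `w`.** -/
theorem windows (Q : ℕ → R → Finset (Fin n)) (N : ℕ) (hQ : ∀ t < N, ∀ r, (Q t r).card ≤ T)
    (U : ℕ → EuclideanSpace ℂ R ≃ₗᵢ[ℂ] EuclideanSpace ℂ R)
    (ψ : EuclideanSpace ℂ R) (hψ : ‖ψ‖ = 1) (c : R → ℝ) (hc0 : ∀ r, 0 ≤ c r) (hc1 : ∀ r, c r ≤ 1)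
    {w : ℕ} (hw : 1 ≤ w) (hT : 1 ≤ T) (e : Fin n → ℕ)
    (he : ∀ t < N, ∀ r, ∀ i ∈ Q t r, t ≤ e i ∧ e i < t + w) :
    variance (QWindows.payoff Q U ψ c N)
      ≤ ((univ.image e).card : ℝ) * (98 * (w : ℝ) ^ 3 * T
        * (513 * (w : ℝ) ^ 3 * T
          * (1 + 2 * Real.logb 2 (T / maxDerivNorm (QWindows.payoff Q U ψ c N))) ^ 2) ^ (w - 1)
        * √(supNorm (QWindows.payoff Q U ψ c N)) * maxDerivNorm (QWindows.payoff Q U ψ c N)) := by
  classical
  set Q' : ℕ → R → Finset (Fin n) := fun t r => if t < N then Q t r else ∅ with hQ'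
  have hst : ∀ x : Cube n, ∀ t ≤ N, QWindows.state Q U ψ x t = QWindows.state Q' U ψ x t := by
    intro x t
    induction t with
    | zero => intro _; rfl
    | succ t ih =>
      intro ht
      have h1 : Q' t = Q t := by
        funext r; simp only [hQ']; rw [if_pos (by omega)]
      simp only [QWindows.state]
      rw [ih (by omega), h1]
  have hpay : QWindows.payoff Q U ψ c N = QWindows.payoff Q' U ψ c N := by
    funext x
    unfold QWindows.payoff
    rw [hst x N le_rfl]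
  rw [hpay]
  refine windows_aux Q' ?_ U ψ hψ c hc0 hc1 N hw hT e ?_
  · intro t r
    by_cases h : t < N
    · simp only [hQ', if_pos h]; exact hQ t h r
    · simp only [hQ', if_neg h]; simp
  · intro t r i hi
    by_cases h : t < N
    · simp only [hQ', if_pos h] at hi; exact he t h r i hi
    · simp only [hQ', if_neg h] at hi; simp at hi

end Pool.Agent.Helper24.QW
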